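import Pool.Agent.Spl2.BrC2

/-!
# SplF/Adp: adapted coordinates at an edge

`L_u = dl p u`, `L_v = dl p v`, `Δ = p (u, 1) - p (v, 1) ≠ 0`; the linear forms `L_u, L_v, X 0` are coordinates.

PAPER PROOFS.  `adp_back`: `ψ = aeval ![L_u, L_v, X 0]`; `ψ (adp p u v (X i)) = C Δ * X i` for `i = 0, 1, 2` (`ring`), so
`ψ (adp p u v f) = aeval (fun i => C Δ * X i) f = C (Δ ^ n) * f` for `f` homogeneous of degree `n` (monomials).
`span_form`: `adp p u v f = ∑ s ∈ support, monomial s (coeff s _)` and apply `ψ`, divide by `Δ ^ n`.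
`adp_coeff`: `adp p u v` maps the ideal `(L_u, L_v)^m` into `(X 0, X 1)^m` (`adp_dl_left`, `adp_dl_right`: the images are `C Δ * X 0`,
`C Δ * X 1`), and the polynomials `f` with `coeff s f = 0` for all `s 0 + s 1 < m` form an ideal `J_m` with
`X 0 * J_m ⊆ J_(m+1)`, `X 1 * J_m ⊆ J_(m+1)` (induction on `m`).
`mem_J`: in `span_form` the terms with `s 0 + s 1 < δ`, `s 0 < τ`, `s 1 < τ'` vanish (`s 2 = k - s 0 - s 1`, `adp_homog`; `s = ex3 ..`),
the others are in one of the ideals (`Ideal.pow_le_pow_right`, `Ideal.pow_mem_pow`).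
`split_high`: in `span_form` the terms with `s 0 + s 1 ≥ m` are in `(L_u, L_v)^m`, the others have `s 2 > q` and are `X 0 ^ q` times a form
of degree `2 m`.
`pow_mem`: `span {a, b} ^ n` is generated by the `a ^ i * b ^ (n - i)`, `i ≤ n` (or `Ideal.span_pair_pow`, or induction);
if `n = 2 q - 1` then `i ≥ q` or `n - i ≥ q`.
`hom_pow`: in `span_form` only terms with `s 0 + s 1 ≥ m` occur (`adp_coeff`); take `i = min (s 0) m`.
-/

set_option autoImplicit false

namespace Pool.Agent.SplF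

open MvPolynomial Pool.Agent.Spl2

variable {V : Type*} [Fintype V] [DecidableEq V] {K : Type*} [Field K]

private theorem deg3 {R : Type*} [CommSemiring R] {n : ℕ} {f : MvPolynomial (Fin 3) R}
    (hf : f.IsHomogeneous n) {s : Fin 3 →₀ ℕ} (hs : s ∈ f.support) : s 0 + s 1 + s 2 = n := by
  have := hf (mem_support_iff.1 hs)
  rw [Finsupp.weight_apply, Finsupp.sum_fintype _ _ (by simp), Fin.sum_univ_three] at this
  simpa using this

private theorem aeval_scale (Δ : K) (n : ℕ) (f : MvPolynomial (Fin 3) K)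
    (hf : f.IsHomogeneous n) :
    aeval (fun i : Fin 3 => C Δ * (X i : MvPolynomial (Fin 3) K)) f = C (Δ ^ n) * f := by
  have h : aeval (fun i : Fin 3 => C Δ * (X i : MvPolynomial (Fin 3) K)) f =
      ∑ s ∈ f.support, C (Δ ^ n) * monomial s (coeff s f) := by
    rw [aeval_def, eval₂_eq']
    refine Finset.sum_congr rfl fun s hs => ?_
    have hdeg := deg3 hf hs
    rw [Fin.prod_univ_three, monomial_eq, Finsupp.prod_fintype _ _ (by simp),
      Fin.prod_univ_three, ← hdeg, algebraMap_eq]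
    simp only [map_pow]
    ring
  rw [h, ← Finset.mul_sum, ← f.as_sum]

omit [Fintype V] [DecidableEq V] in
private theorem psi_comp (p : V × Fin 2 → K) (u v : V) :
    (aeval ![dl p u, dl p v, (X 0 : MvPolynomial (Fin 3) K)]).comp (adp p u v) =
      aeval (R := K) (fun i : Fin 3 => C (p (u, 1) - p (v, 1)) * (X i : MvPolynomial (Fin 3) K)) := by
  apply MvPolynomial.algHom_ext
  intro i
  rw [AlgHom.comp_apply, aeval_X]
  unfold adp dl
  fin_cases i
  · simp only [aeval_X, map_mul, algHom_C, algebraMap_eq, Fin.zero_eta, Matrix.cons_val_zero,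
      Matrix.cons_val]
  · simp only [aeval_X, map_mul, map_sub, algHom_C, algebraMap_eq, Fin.mk_one,
      Matrix.cons_val_zero, Matrix.cons_val_one, Matrix.cons_val]
    ring
  · simp only [aeval_X, map_mul, map_sub, map_add, map_neg, algHom_C, algebraMap_eq,
      Fin.reduceFinMk, Matrix.cons_val_zero, Matrix.cons_val_one, Matrix.cons_val]
    ring

theorem adp_back (p : V × Fin 2 → K) (u v : V) (n : ℕ) (f : MvPolynomial (Fin 3) K)
    (hf : f.IsHomogeneous n) :
    aeval ![dl p u, dl p v, (X 0 : MvPolynomial (Fin 3) K)] (adp p u v f) =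
      C ((p (u, 1) - p (v, 1)) ^ n) * f := by
  rw [← AlgHom.comp_apply, psi_comp, aeval_scale _ n f hf]

theorem span_form (p : V × Fin 2 → K) (u v : V) (hΔ : p (u, 1) ≠ p (v, 1)) (n : ℕ)
    (f : MvPolynomial (Fin 3) K) (hf : f.IsHomogeneous n) :
    f = ∑ s ∈ (adp p u v f).support, C (((p (u, 1) - p (v, 1)) ^ n)⁻¹ * coeff s (adp p u v f)) *
      (dl p u ^ s 0 * dl p v ^ s 1 * X 0 ^ s 2) := by
  have h1 := adp_back p u v n f hf
  have h0 : (p (u, 1) - p (v, 1)) ^ n ≠ 0 := pow_ne_zero _ (sub_ne_zero.2 hΔ)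
  rw [aeval_def, eval₂_eq'] at h1
  have h2 : f = C ((p (u, 1) - p (v, 1)) ^ n)⁻¹ * (C ((p (u, 1) - p (v, 1)) ^ n) * f) := by
    rw [← mul_assoc, ← map_mul, inv_mul_cancel₀ h0, map_one, one_mul]
  conv_lhs => rw [h2, ← h1, Finset.mul_sum]
  refine Finset.sum_congr rfl fun s _ => ?_
  rw [Fin.prod_univ_three, map_mul, algebraMap_eq]
  simp only [Matrix.cons_val_zero, Matrix.cons_val_one, Matrix.cons_val]
  ring

theorem adp_coeff (p : V × Fin 2 → K) (u v : V) (m : ℕ) (f : MvPolynomial (Fin 3) K)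
    (hf : f ∈ Ideal.span {dl p u, dl p v} ^ m) (s : Fin 3 →₀ ℕ) (hs : s 0 + s 1 < m) :
    coeff s (adp p u v f) = 0 := by
  induction m generalizing f s with
  | zero => omega
  | succ m ih =>
    rw [pow_succ] at hf
    refine Submodule.mul_induction_on hf ?_ ?_
    · intro a ha b hb
      obtain ⟨x, y, rfl⟩ := Ideal.mem_span_pair.1 hb
      have e : adp p u v (a * (x * dl p u + y * dl p v)) =
          adp p u v (a * (x * C (p (u, 1) - p (v, 1)))) * X 0 +
          adp p u v (a * (y * C (p (u, 1) - p (v, 1)))) * X 1 := by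
        simp only [map_mul, map_add, adp_dl_left, adp_dl_right, algHom_C, algebraMap_eq, map_sub]
        ring
      have hx := Ideal.mul_mem_right (x * C (p (u, 1) - p (v, 1))) _ ha
      have hy := Ideal.mul_mem_right (y * C (p (u, 1) - p (v, 1))) _ ha
      rw [e, coeff_add, coeff_mul_X', coeff_mul_X']
      have h1 : (if (0 : Fin 3) ∈ s.support then
          coeff (s - Finsupp.single 0 1) (adp p u v (a * (x * C (p (u, 1) - p (v, 1))))) else 0) = 0 := by
        split_ifs with h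
        · refine ih _ hx _ ?_
          rw [Finsupp.mem_support_iff] at h
          simp
          omega
        · rfl
      have h2 : (if (1 : Fin 3) ∈ s.support then
          coeff (s - Finsupp.single 1 1) (adp p u v (a * (y * C (p (u, 1) - p (v, 1))))) else 0) = 0 := by
        split_ifs with h
        · refine ih _ hy _ ?_
          rw [Finsupp.mem_support_iff] at h
          simp
          omega
        · rfl
      rw [h1, h2, add_zero]
    · intro a b ha hb
      rw [map_add, coeff_add, ha, hb, add_zero]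

private theorem term_mem_pow (p : V × Fin 2 → K) (u v : V) (c : MvPolynomial (Fin 3) K)
    (δ a b l : ℕ) (h : δ ≤ a + b) :
    c * (dl p u ^ a * dl p v ^ b * X 0 ^ l) ∈ Ideal.span {dl p u, dl p v} ^ δ := by
  have h1 : dl p u ∈ Ideal.span {dl p u, dl p v} := Ideal.subset_span (by simp)
  have h2 : dl p v ∈ Ideal.span {dl p u, dl p v} := Ideal.subset_span (by simp)
  have h3 : dl p u ^ a * dl p v ^ b ∈ Ideal.span {dl p u, dl p v} ^ δ := by
    refine Ideal.pow_le_pow_right h ?_
    rw [pow_add]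
    exact Ideal.mul_mem_mul (Ideal.pow_mem_pow h1 a) (Ideal.pow_mem_pow h2 b)
  exact Ideal.mul_mem_left _ _ (Ideal.mul_mem_right _ _ h3)

theorem mem_J (p : V × Fin 2 → K) (u v : V) (hΔ : p (u, 1) ≠ p (v, 1)) (k δ τ τ' : ℕ)
    (f : MvPolynomial (Fin 3) K) (hf : f.IsHomogeneous k)
    (h : ∀ i j, i + j < δ → i < τ → j < τ' → coeff (ex3 i j (k - i - j)) (adp p u v f) = 0) :
    f ∈ Ideal.span {dl p u, dl p v} ^ δ ⊔ Ideal.span {dl p u ^ τ, dl p v ^ τ'} := by
  rw [span_form p u v hΔ k f hf]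
  refine Ideal.sum_mem _ fun s hs => ?_
  have hdeg := deg3 (adp_homog p u v k f hf) hs
  have hne := mem_support_iff.1 hs
  have hse : s = ex3 (s 0) (s 1) (k - s 0 - s 1) := by
    ext i
    fin_cases i
    · simp [ex3]
    · simp [ex3]
    · simp [ex3]
      omega
  by_cases h1 : δ ≤ s 0 + s 1
  · exact Ideal.mem_sup_left (term_mem_pow p u v _ δ _ _ _ h1)
  · by_cases h2 : τ ≤ s 0
    · refine Ideal.mem_sup_right ?_
      refine Ideal.mul_mem_left _ _ (Ideal.mul_mem_right _ _ (Ideal.mul_mem_right _ _ ?_))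
      obtain ⟨d, hd⟩ := Nat.exists_eq_add_of_le h2
      rw [hd, pow_add]
      exact Ideal.mul_mem_right _ _ (Ideal.subset_span (by simp))
    · by_cases h3 : τ' ≤ s 1
      · refine Ideal.mem_sup_right ?_
        refine Ideal.mul_mem_left _ _ (Ideal.mul_mem_right _ _ (Ideal.mul_mem_left _ _ ?_))
        obtain ⟨d, hd⟩ := Nat.exists_eq_add_of_le h3
        rw [hd, pow_add]
        exact Ideal.mul_mem_right _ _ (Ideal.subset_span (by simp))
      · exact absurd (by rw [hse]; exact h _ _ (by omega) (by omega) (by omega)) hne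

omit [Fintype V] [DecidableEq V] in
private theorem dl_homog (p : V × Fin 2 → K) (v : V) : (dl p v).IsHomogeneous 1 := by
  unfold dl
  exact ((isHomogeneous_C_mul_X _ _).add (isHomogeneous_C_mul_X _ _)).add (isHomogeneous_X _ _)

omit [Fintype V] [DecidableEq V] in
private theorem term_homog (p : V × Fin 2 → K) (u v : V) (c : K) (a b l n : ℕ)
    (h : a + b + l = n) :
    (C c * (dl p u ^ a * dl p v ^ b * X 0 ^ l) : MvPolynomial (Fin 3) K).IsHomogeneous n := by
  have h1 := (((dl_homog p u).pow a).mul ((dl_homog p v).pow b)).mul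
    ((isHomogeneous_X K (0 : Fin 3)).pow l)
  have h2 := (isHomogeneous_C (Fin 3) c).mul h1
  have e : 0 + (1 * a + 1 * b + 1 * l) = n := by omega
  rw [e] at h2
  exact h2

theorem split_high (p : V × Fin 2 → K) (u v : V) (hΔ : p (u, 1) ≠ p (v, 1)) (m q : ℕ)
    (g : MvPolynomial (Fin 3) K) (hg : g.IsHomogeneous (q + 2 * m)) :
    ∃ g1 g2 : MvPolynomial (Fin 3) K, g = g1 + X 0 ^ q * g2 ∧ g1.IsHomogeneous (q + 2 * m) ∧
      g2.IsHomogeneous (2 * m) ∧ g1 ∈ Ideal.span {dl p u, dl p v} ^ m := by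
  have hsf := span_form p u v hΔ (q + 2 * m) g hg
  set c : (Fin 3 →₀ ℕ) → K := fun s =>
    ((p (u, 1) - p (v, 1)) ^ (q + 2 * m))⁻¹ * coeff s (adp p u v g) with hc
  set S := (adp p u v g).support with hS
  have hdeg : ∀ s ∈ S, s 0 + s 1 + s 2 = q + 2 * m := fun s hs =>
    deg3 (adp_homog p u v _ g hg) hs
  refine ⟨∑ s ∈ S.filter (fun s => m ≤ s 0 + s 1),
      C (c s) * (dl p u ^ s 0 * dl p v ^ s 1 * X 0 ^ s 2),
    ∑ s ∈ S.filter (fun s => ¬ m ≤ s 0 + s 1),
      C (c s) * (dl p u ^ s 0 * dl p v ^ s 1 * X 0 ^ (s 2 - q)), ?_, ?_, ?_, ?_⟩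
  · conv_lhs => rw [hsf]
    rw [← Finset.sum_filter_add_sum_filter_not S (fun s => m ≤ s 0 + s 1), Finset.mul_sum]
    congr 1
    refine Finset.sum_congr rfl fun s hs => ?_
    rw [Finset.mem_filter] at hs
    have h1 := hdeg s hs.1
    have h2 : s 2 = q + (s 2 - q) := by omega
    change C (c s) * (dl p u ^ s 0 * dl p v ^ s 1 * X 0 ^ s 2) = _
    conv_lhs => rw [h2, pow_add]
    ring
  · refine IsHomogeneous.sum _ _ _ fun s hs => ?_
    rw [Finset.mem_filter] at hs
    exact term_homog p u v _ _ _ _ _ (hdeg s hs.1)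
  · refine IsHomogeneous.sum _ _ _ fun s hs => ?_
    rw [Finset.mem_filter] at hs
    have h1 := hdeg s hs.1
    exact term_homog p u v _ _ _ _ _ (by omega)
  · refine Ideal.sum_mem _ fun s hs => ?_
    rw [Finset.mem_filter] at hs
    exact term_mem_pow p u v _ m _ _ _ hs.2

theorem pow_mem {R : Type*} [CommRing R] (a b x : R) (q : ℕ) (hq : 0 < q)
    (hx : x ∈ Ideal.span {a, b} ^ (2 * q - 1)) : x ∈ Ideal.span {a ^ q, b ^ q} := by
  have key : ∀ n : ℕ, Ideal.span {a, b} ^ n ≤
      Ideal.span {y | ∃ i j : ℕ, i + j = n ∧ y = a ^ i * b ^ j} := by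
    intro n
    induction n with
    | zero =>
      intro y _
      have h1 : (1 : R) ∈ Ideal.span {y | ∃ i j : ℕ, i + j = 0 ∧ y = a ^ i * b ^ j} :=
        Ideal.subset_span ⟨0, 0, rfl, by simp⟩
      have := Ideal.mul_mem_left _ y h1
      rwa [mul_one] at this
    | succ n ih =>
      rw [pow_succ]
      refine (Ideal.mul_mono_left ih).trans ?_
      rw [Ideal.span_mul_span', Ideal.span_le]
      rintro _ ⟨y, ⟨i, j, hij, rfl⟩, z, hz, rfl⟩
      rw [Set.mem_insert_iff, Set.mem_singleton_iff] at hz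
      rcases hz with rfl | rfl
      · exact Ideal.subset_span ⟨i + 1, j, by omega, by simp only; ring⟩
      · exact Ideal.subset_span ⟨i, j + 1, by omega, by simp only; ring⟩
  have h1 := key _ hx
  refine (Ideal.span_le.2 ?_) h1
  rintro _ ⟨i, j, hij, rfl⟩
  by_cases hi : q ≤ i
  · obtain ⟨d, rfl⟩ := Nat.exists_eq_add_of_le hi
    rw [pow_add, mul_assoc]
    exact Ideal.mul_mem_right _ _ (Ideal.subset_span (by simp))
  · have hj : q ≤ j := by omega
    obtain ⟨d, rfl⟩ := Nat.exists_eq_add_of_le hj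
    rw [pow_add]
    exact Ideal.mul_mem_left _ _ (Ideal.mul_mem_right _ _ (Ideal.subset_span (by simp)))

/-- the forms of degree `m + l` in the `m`-th power of the ideal of the node -/
theorem hom_pow (p : V × Fin 2 → K) (u v : V) (hΔ : p (u, 1) ≠ p (v, 1)) (m l : ℕ)
    (g : MvPolynomial (Fin 3) K) (hg : g.IsHomogeneous (m + l))
    (h : g ∈ Ideal.span {dl p u, dl p v} ^ m) :
    g ∈ Submodule.span K {f : MvPolynomial (Fin 3) K | ∃ (i : ℕ) (s : Fin 3 →₀ ℕ), i ≤ m ∧
      s 0 + s 1 + s 2 = l ∧ f = dl p u ^ i * dl p v ^ (m - i) * monomial s 1} := by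
  rw [span_form p u v hΔ (m + l) g hg]
  refine Submodule.sum_mem _ fun s hs => ?_
  have hdeg := deg3 (adp_homog p u v _ g hg) hs
  have hne := mem_support_iff.1 hs
  have hge : m ≤ s 0 + s 1 := by
    by_contra hlt
    exact hne (adp_coeff p u v m g h s (by omega))
  obtain ⟨i, him, hi0, hi1⟩ : ∃ i, i ≤ m ∧ i ≤ s 0 ∧ m - i ≤ s 1 := by
    by_cases h1 : s 0 ≤ m
    · exact ⟨s 0, h1, le_rfl, by omega⟩
    · exact ⟨m, le_rfl, by omega, by omega⟩
  obtain ⟨a, ha⟩ := Nat.exists_eq_add_of_le hi0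
  obtain ⟨b, hb⟩ := Nat.exists_eq_add_of_le hi1
  set c := ((p (u, 1) - p (v, 1)) ^ (m + l))⁻¹ * coeff s (adp p u v g) with hc
  set R : MvPolynomial (Fin 3) K := C c * (dl p u ^ a * dl p v ^ b * X 0 ^ s 2) with hR
  have hRh : R.IsHomogeneous l := term_homog p u v c a b (s 2) l (by omega)
  have e : C c * (dl p u ^ s 0 * dl p v ^ s 1 * X 0 ^ s 2) =
      ∑ t ∈ R.support, coeff t R • (dl p u ^ i * dl p v ^ (m - i) * monomial t (1 : K)) := by
    have e1 : C c * (dl p u ^ s 0 * dl p v ^ s 1 * X 0 ^ s 2) =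
        dl p u ^ i * dl p v ^ (m - i) * R := by
      rw [hR]
      conv_lhs => rw [ha, hb, pow_add, pow_add]
      ring
    rw [e1]
    conv_lhs => rw [R.as_sum, Finset.mul_sum]
    refine Finset.sum_congr rfl fun t _ => ?_
    rw [← mul_smul_comm, smul_monomial, smul_eq_mul, mul_one]
  rw [e]
  refine Submodule.sum_mem _ fun t ht => Submodule.smul_mem _ _ (Submodule.subset_span ?_)
  exact ⟨i, t, him, deg3 hRh ht, rfl⟩

end Pool.Agent.SplF
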