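import Pool.Agent.Spl3.Defs
import Pool.Agent.SplF.Adp

/-!
# SplF/Aff: the affine chart `ξ = 1`, `η = Y = X 1`, `ζ = X = X 0`

PAPER PROOFS.  `deh1_dl`: `ring`/`simp`.  `deh1_surj`: linear in `f` (`f.as_sum`): for a monomial `X^s` with `s 0 + s 1 ≤ n` take
`ξ^(n - s 0 - s 1) η^(s 1) ζ^(s 0)`.
`deh1_mem`: by `span_form` `F = ∑_s c_s * (L_u^(s 0) * L_v^(s 1) * ξ^(s 2))` over the support of `adp p u v F`, which is homogeneous of degree `n`
(`adp_homog`), so `s` is determined by `(s 0, s 1)`; `deh1 F = ∑_s c_s l_u^(s 0) l_v^(s 1)`, `l_w = ln (p (w, 1)) (p (w, 0))`.  Let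
`θ : K[X, Y] → K[X, Y]` be the substitution with `θ l_u = X 0`, `θ l_v = X 1`: `Y ↦ Δ⁻¹ (X 0 - X 1 - (p (u, 0) - p (v, 0)))`,
`X ↦ X 0 - p (u, 1) θ(Y) - p (u, 0)`, `Δ = p (u, 1) - p (v, 1)`.  It maps `(l_u, l_v)^m` into `(X 0, X 1)^m`, whose elements have no coefficients of
degree `< m` (as in `adp_coeff`), and `θ (deh1 F) = ∑_s c_s X_0^(s 0) X_1^(s 1)`, so `c_s = 0` if `s 0 + s 1 < m`, and the other terms of
`F` are in `(L_u, L_v)^m`.
-/

set_option autoImplicit false

namespace Pool.Agent.SplF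

open MvPolynomial Pool.Agent.Spl2

variable {V : Type*} [Fintype V] [DecidableEq V] {K : Type*} [Field K]

/-- the affine chart -/
noncomputable def deh1 : MvPolynomial (Fin 3) K →ₐ[K] MvPolynomial (Fin 2) K :=
  aeval ![1, X 1, X 0]

theorem deh1_dl (p : V × Fin 2 → K) (v : V) : deh1 (dl p v) = Spl3.ln (p (v, 1)) (p (v, 0)) := by
  unfold deh1 dl Spl3.ln
  simp only [map_add, map_mul, aeval_X, algHom_C, algebraMap_eq, Matrix.cons_val_zero,
    Matrix.cons_val_one, Matrix.cons_val]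
  ring

theorem deh1_surj (n : ℕ) (f : MvPolynomial (Fin 2) K) (hf : f.totalDegree ≤ n) :
    ∃ F : MvPolynomial (Fin 3) K, F.IsHomogeneous n ∧ deh1 F = f := by
  refine ⟨∑ s ∈ f.support, C (coeff s f) * (X 0 ^ (n - s 0 - s 1) * X 1 ^ (s 1) * X 2 ^ (s 0)),
    ?_, ?_⟩
  · refine IsHomogeneous.sum _ _ _ fun s hs => ?_
    have h1 := le_totalDegree hs
    rw [Finsupp.sum_fintype _ _ (by simp), Fin.sum_univ_two] at h1
    have h2 := ((((isHomogeneous_X K (0 : Fin 3)).pow (n - s 0 - s 1)).mul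
      ((isHomogeneous_X K (1 : Fin 3)).pow (s 1))).mul ((isHomogeneous_X K (2 : Fin 3)).pow (s 0)))
    have h3 := (isHomogeneous_C (Fin 3) (coeff s f)).mul h2
    have e : 0 + (1 * (n - s 0 - s 1) + 1 * s 1 + 1 * s 0) = n := by omega
    rw [e] at h3
    exact h3
  · conv_rhs => rw [f.as_sum]
    rw [map_sum]
    refine Finset.sum_congr rfl fun s _ => ?_
    unfold deh1
    rw [monomial_eq, Finsupp.prod_fintype _ _ (by simp), Fin.prod_univ_two]
    simp only [map_mul, map_pow, aeval_X, algHom_C, algebraMap_eq, Matrix.cons_val_zero,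
      Matrix.cons_val_one, Matrix.cons_val]
    ring

private theorem aff_deg3 {n : ℕ} {f : MvPolynomial (Fin 3) K}
    (hf : f.IsHomogeneous n) {s : Fin 3 →₀ ℕ} (hs : s ∈ f.support) : s 0 + s 1 + s 2 = n := by
  have := hf (mem_support_iff.1 hs)
  rw [Finsupp.weight_apply, Finsupp.sum_fintype _ _ (by simp), Fin.sum_univ_three] at this
  simpa using this

omit [Fintype V] [DecidableEq V] in
private theorem aff_term (p : V × Fin 2 → K) (u v : V) (c : MvPolynomial (Fin 3) K)
    (δ a b l : ℕ) (h : δ ≤ a + b) :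
    c * (dl p u ^ a * dl p v ^ b * X 0 ^ l) ∈ Ideal.span {dl p u, dl p v} ^ δ := by
  have h1 : dl p u ∈ Ideal.span {dl p u, dl p v} := Ideal.subset_span (by simp)
  have h2 : dl p v ∈ Ideal.span {dl p u, dl p v} := Ideal.subset_span (by simp)
  have h3 : dl p u ^ a * dl p v ^ b ∈ Ideal.span {dl p u, dl p v} ^ δ := by
    refine Ideal.pow_le_pow_right h ?_
    rw [pow_add]
    exact Ideal.mul_mem_mul (Ideal.pow_mem_pow h1 a) (Ideal.pow_mem_pow h2 b)
  exact Ideal.mul_mem_left _ _ (Ideal.mul_mem_right _ _ h3)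

/-- a substitution which sends two elements to the variables -/
private theorem aff_coeff (θ : MvPolynomial (Fin 2) K →ₐ[K] MvPolynomial (Fin 2) K)
    (a b : MvPolynomial (Fin 2) K) (ha : θ a = X 0) (hb : θ b = X 1) (m : ℕ)
    (f : MvPolynomial (Fin 2) K) (hf : f ∈ Ideal.span {a, b} ^ m) (s : Fin 2 →₀ ℕ)
    (hs : s 0 + s 1 < m) : coeff s (θ f) = 0 := by
  induction m generalizing f s with
  | zero => omega
  | succ m ih =>
    rw [pow_succ] at hf
    refine Submodule.mul_induction_on hf ?_ ?_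
    · intro c hc d hd
      obtain ⟨x, y, rfl⟩ := Ideal.mem_span_pair.1 hd
      have e : θ (c * (x * a + y * b)) = θ (c * x) * X 0 + θ (c * y) * X 1 := by
        simp only [map_mul, map_add, ha, hb]
        ring
      have hx := Ideal.mul_mem_right x _ hc
      have hy := Ideal.mul_mem_right y _ hc
      rw [e, coeff_add, coeff_mul_X', coeff_mul_X']
      have h1 : (if (0 : Fin 2) ∈ s.support then
          coeff (s - Finsupp.single 0 1) (θ (c * x)) else 0) = 0 := by
        split_ifs with h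
        · refine ih _ hx _ ?_
          rw [Finsupp.mem_support_iff] at h
          simp
          omega
        · rfl
      have h2 : (if (1 : Fin 2) ∈ s.support then
          coeff (s - Finsupp.single 1 1) (θ (c * y)) else 0) = 0 := by
        split_ifs with h
        · refine ih _ hy _ ?_
          rw [Finsupp.mem_support_iff] at h
          simp
          omega
        · rfl
      rw [h1, h2, add_zero]
    · intro c d hc hd
      rw [map_add, coeff_add, hc, hd, add_zero]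

omit [Fintype V] [DecidableEq V] in
private theorem aff_theta (p : V × Fin 2 → K) (u v : V) (hΔ : p (u, 1) ≠ p (v, 1)) :
    ∃ θ : MvPolynomial (Fin 2) K →ₐ[K] MvPolynomial (Fin 2) K,
      θ (Spl3.ln (p (u, 1)) (p (u, 0))) = X 0 ∧ θ (Spl3.ln (p (v, 1)) (p (v, 0))) = X 1 := by
  have hne : p (u, 1) - p (v, 1) ≠ 0 := sub_ne_zero.2 hΔ
  obtain ⟨Y, hY⟩ : ∃ Y : MvPolynomial (Fin 2) K, Y = C (p (u, 1) - p (v, 1))⁻¹ *
    (X 0 - X 1 - C (p (u, 0) - p (v, 0))) := ⟨_, rfl⟩
  have hY2 : (C (p (u, 1)) - C (p (v, 1))) * Y = X 0 - X 1 - (C (p (u, 0)) - C (p (v, 0))) := by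
    rw [hY, ← map_sub, ← mul_assoc, ← map_mul, mul_inv_cancel₀ hne, map_one, one_mul, map_sub]
  refine ⟨aeval ![X 0 - C (p (u, 1)) * Y - C (p (u, 0)), Y], ?_, ?_⟩
  · unfold Spl3.ln
    simp only [map_add, map_mul, aeval_X, algHom_C, algebraMap_eq, Matrix.cons_val_zero,
      Matrix.cons_val_one, Matrix.cons_val]
    ring
  · unfold Spl3.ln
    simp only [map_add, map_mul, aeval_X, algHom_C, algebraMap_eq, Matrix.cons_val_zero,
      Matrix.cons_val_one, Matrix.cons_val]
    linear_combination (-1 : MvPolynomial (Fin 2) K) * hY2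

theorem deh1_mem (p : V × Fin 2 → K) (u v : V) (hΔ : p (u, 1) ≠ p (v, 1)) (n m : ℕ)
    (F : MvPolynomial (Fin 3) K) (hF : F.IsHomogeneous n)
    (h : deh1 F ∈ Ideal.span {Spl3.ln (p (u, 1)) (p (u, 0)), Spl3.ln (p (v, 1)) (p (v, 0))} ^ m) :
    F ∈ Ideal.span {dl p u, dl p v} ^ m := by
  have hsf := span_form p u v hΔ n F hF
  obtain ⟨S, hS⟩ : ∃ S : Finset (Fin 3 →₀ ℕ), S = (adp p u v F).support := ⟨_, rfl⟩
  obtain ⟨c, hc⟩ : ∃ c : (Fin 3 →₀ ℕ) → K, ∀ s, c s =
    ((p (u, 1) - p (v, 1)) ^ n)⁻¹ * coeff s (adp p u v F) := ⟨_, fun _ => rfl⟩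
  have hdeg : ∀ s ∈ S, s 0 + s 1 + s 2 = n := fun s hs =>
    aff_deg3 (adp_homog p u v _ F hF) (hS ▸ hs)
  have hsf' : F = ∑ s ∈ S, C (c s) * (dl p u ^ s 0 * dl p v ^ s 1 * X 0 ^ s 2) := by
    rw [hS]
    simp only [hc]
    exact hsf
  obtain ⟨θ, hθu, hθv⟩ := aff_theta p u v hΔ
  have hθ : θ (deh1 F) = ∑ s ∈ S,
      monomial (Finsupp.single (0 : Fin 2) (s 0) + Finsupp.single 1 (s 1)) (c s) := by
    conv_lhs => rw [hsf']
    rw [map_sum, map_sum]
    refine Finset.sum_congr rfl fun s _ => ?_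
    have h1 : deh1 (X 0 : MvPolynomial (Fin 3) K) = 1 := by
      unfold deh1
      simp
    have h2 : deh1 (C (c s) : MvPolynomial (Fin 3) K) = C (c s) := by
      rw [algHom_C, algebraMap_eq]
    have h3 : θ (C (c s)) = C (c s) := by
      rw [algHom_C, algebraMap_eq]
    have h4 : (monomial (Finsupp.single (0 : Fin 2) (s 0) + Finsupp.single 1 (s 1)) (c s) :
        MvPolynomial (Fin 2) K) = C (c s) * (X 0 ^ s 0 * X 1 ^ s 1) := by
      rw [X_pow_eq_monomial, X_pow_eq_monomial, monomial_mul, C_mul_monomial]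
      simp
    rw [h4]
    simp only [map_mul, map_pow, deh1_dl, h1, h2, h3, hθu, hθv, one_pow, mul_one]
  have hge : ∀ s ∈ S, m ≤ s 0 + s 1 := by
    intro s hs
    by_contra hlt
    push Not at hlt
    have h1 := aff_coeff θ _ _ hθu hθv m _ h
      (Finsupp.single (0 : Fin 2) (s 0) + Finsupp.single 1 (s 1)) (by simpa using hlt)
    rw [hθ, coeff_sum, Finset.sum_eq_single s] at h1
    · rw [coeff_monomial, if_pos rfl, hc] at h1
      have h2 : coeff s (adp p u v F) ≠ 0 := mem_support_iff.1 (hS ▸ hs)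
      exact mul_ne_zero (inv_ne_zero (pow_ne_zero _ (sub_ne_zero.2 hΔ))) h2 h1
    · intro t ht hts
      rw [coeff_monomial, if_neg]
      intro heq
      apply hts
      have e0 := DFunLike.congr_fun heq 0
      have e1 := DFunLike.congr_fun heq 1
      simp at e0 e1
      have d1 := hdeg s hs
      have d2 := hdeg t ht
      ext i
      fin_cases i
      · exact e0
      · exact e1
      · change t 2 = s 2
        omega
    · intro hns
      exact absurd hs hns
  rw [hsf']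
  refine Ideal.sum_mem _ fun s hs => ?_
  exact aff_term p u v _ m _ _ _ (hge s hs)

end Pool.Agent.SplF
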