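import Mathlib

/-!
# SplF/Dec: decimation of polynomials in three variables (the trace of Frobenius)

`dec q f` picks the monomials of `f` all of whose exponents are `q - 1` modulo `q` and divides the exponents by `q`
(`q (t + 1) - 1 ↦ t`).  Facts: it is linear over the polynomials in the `q`-th powers (`dec_expand_mul`), the monomials with
exponents `< q` are a dual basis (`dvd_of_dec`), degrees (`dec_hom`, `dec_zero`).

PAPER PROOFS.  `dec_monomial`: definition (`Basis.constr_basis`, `monomial s c = c • monomial s 1`).
`dec_expand_mul`: both sides are additive in `F` and `f`; for `F = monomial t a`, `f = monomial s c` we have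
`expand q F * f = monomial (q • t + s) (a * c)` (`expand_monomial`, `monomial_mul`), `(q t_i + s_i) % q = s_i % q` and
`(q t_i + s_i) / q = t_i + s_i / q`.
`dvd_of_dec`: the identity `f = ∑_{b} X^b * expand q (dec q (f * X^(q-1-b)))`, the sum over the exponents `b` with all `b_i < q`
(for instance over `b : Fin 3 → Fin q`); by linearity for `f = X^s`: `q - 1 - b_i + s_i` is `q - 1` modulo `q` iff `b_i = s_i % q`, so
only one term is not `0`, and there `(q - 1 - b_i + s_i) / q = s_i / q`, so the term is `X^b X^(q (s / q)) = X^s`.
`dec_hom`, `dec_zero`: if the coefficient of `f` at `q t + q - 1` is not `0`, `d = ∑ (q t_i + q - 1) = q ∑ t_i + 3 q - 3`.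
-/

set_option autoImplicit false

namespace Pool.Agent.SplF

open MvPolynomial

variable {K : Type*} [Field K]

/-- division of the exponents by `q` -/
noncomputable def dv (q : ℕ) (s : Fin 3 →₀ ℕ) : Fin 3 →₀ ℕ :=
  Finsupp.equivFunOnFinite.symm (fun i => s i / q)

/-- decimation -/
noncomputable def dec (q : ℕ) : MvPolynomial (Fin 3) K →ₗ[K] MvPolynomial (Fin 3) K :=
  (basisMonomials (Fin 3) K).constr K
    (fun s => if ∀ i, s i % q = q - 1 then monomial (dv q s) 1 else 0)

theorem dec_monomial (q : ℕ) (s : Fin 3 →₀ ℕ) (c : K) :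
    dec q (monomial s c) = if ∀ i, s i % q = q - 1 then monomial (dv q s) c else 0 := by
  have h : monomial s c = c • (basisMonomials (Fin 3) K) s := by
    rw [coe_basisMonomials, smul_monomial, smul_eq_mul, mul_one]
  rw [h, map_smul]
  unfold dec
  rw [Module.Basis.constr_basis]
  split_ifs
  · rw [smul_monomial, smul_eq_mul, mul_one]
  · rw [smul_zero]

theorem dec_expand_mul (q : ℕ) (hq : 0 < q) (F f : MvPolynomial (Fin 3) K) :
    dec q (expand q F * f) = F * dec q f := by
  induction F using MvPolynomial.induction_on' with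
  | add p r hp hr => rw [map_add, add_mul, map_add, hp, hr, add_mul]
  | monomial t a =>
    induction f using MvPolynomial.induction_on' with
    | add p r hp hr => rw [mul_add, map_add, hp, hr, map_add, mul_add]
    | monomial s c =>
      rw [expand_monomial, monomial_mul, dec_monomial, dec_monomial]
      have h1 : ∀ i, (q • t + s) i % q = s i % q := by
        intro i
        rw [Finsupp.add_apply, Finsupp.smul_apply, smul_eq_mul, Nat.mul_add_mod]
      have h2 : dv q (q • t + s) = t + dv q s := by
        ext i
        change (q • t + s) i / q = t i + s i / q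
        rw [Finsupp.add_apply, Finsupp.smul_apply, smul_eq_mul, Nat.mul_add_div hq]
      simp only [h1, h2]
      split_ifs
      · rw [monomial_mul]
      · rw [mul_zero]

theorem dvd_of_dec (q : ℕ) (hq : 0 < q) (L f : MvPolynomial (Fin 3) K)
    (h : ∀ s : Fin 3 →₀ ℕ, (∀ i, s i < q) → L ∣ dec q (f * monomial s 1)) : expand q L ∣ f := by
  classical
  have hid : ∀ f : MvPolynomial (Fin 3) K, f = ∑ b : Fin 3 → Fin q,
      monomial (Finsupp.equivFunOnFinite.symm (fun i => ((b i : Fin q) : ℕ))) 1 *
        expand q (dec q (f * monomial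
          (Finsupp.equivFunOnFinite.symm (fun i => q - 1 - ((b i : Fin q) : ℕ))) 1)) := by
    intro f
    induction f using MvPolynomial.induction_on' with
    | add p r hp hr =>
      simp only [add_mul, map_add, mul_add, Finset.sum_add_distrib]
      rw [← hp, ← hr]
    | monomial s c =>
      have hb0 : ∀ i, s i % q < q := fun i => Nat.mod_lt _ hq
      rw [Finset.sum_eq_single (fun i => (⟨s i % q, hb0 i⟩ : Fin q))]
      · rw [monomial_mul, dec_monomial, if_pos, expand_monomial, monomial_mul, mul_one, one_mul]
        · refine congrArg (fun t : Fin 3 →₀ ℕ => monomial t c) ?_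
          ext i
          change s i = s i % q + q * ((s i + (q - 1 - s i % q)) / q)
          have h3 : s i + (q - 1 - s i % q) = q * (s i / q) + (q - 1) := by
            have h4 := Nat.div_add_mod (s i) q
            have h5 := hb0 i
            omega
          rw [h3, Nat.mul_add_div hq, Nat.div_eq_of_lt (by omega : q - 1 < q), add_zero]
          have h4 := Nat.div_add_mod (s i) q
          omega
        · intro i
          change (s i + (q - 1 - s i % q)) % q = q - 1
          have h3 : s i + (q - 1 - s i % q) = q * (s i / q) + (q - 1) := by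
            have h4 := Nat.div_add_mod (s i) q
            have h5 := hb0 i
            omega
          rw [h3, Nat.mul_add_mod, Nat.mod_eq_of_lt (by omega)]
      · intro b _ hb
        rw [monomial_mul, dec_monomial, if_neg, map_zero, mul_zero]
        intro hall
        apply hb
        funext i
        apply Fin.ext
        change ((b i : Fin q) : ℕ) = s i % q
        have h3 : (s i + (q - 1 - ((b i : Fin q) : ℕ))) % q = q - 1 := hall i
        have h4 := Nat.div_add_mod (s i + (q - 1 - ((b i : Fin q) : ℕ))) q
        rw [h3] at h4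
        have h5 := (b i).2
        have h6 : s i + q = q * ((s i + (q - 1 - ((b i : Fin q) : ℕ))) / q) + q +
            ((b i : Fin q) : ℕ) := by omega
        have h7 : s i = ((b i : Fin q) : ℕ) +
            q * ((s i + (q - 1 - ((b i : Fin q) : ℕ))) / q) := by omega
        rw [h7, Nat.add_mul_mod_self_left, Nat.mod_eq_of_lt h5]
      · intro h
        exact absurd (Finset.mem_univ _) h
  rw [hid f]
  refine Finset.dvd_sum fun b _ => Dvd.dvd.mul_left ?_ _
  obtain ⟨g, hg⟩ := h (Finsupp.equivFunOnFinite.symm (fun i => q - 1 - ((b i : Fin q) : ℕ)))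
    (fun i => by
      change q - 1 - ((b i : Fin q) : ℕ) < q
      omega)
  rw [hg, map_mul]
  exact dvd_mul_right _ _

private theorem dec_deg (q : ℕ) (hq : 0 < q) (s : Fin 3 →₀ ℕ) (h : ∀ i, s i % q = q - 1) :
    s.degree + 3 = q * ((dv q s).degree + 3) := by
  rw [Finsupp.degree_eq_sum, Finsupp.degree_eq_sum, Fin.sum_univ_three, Fin.sum_univ_three]
  change s 0 + s 1 + s 2 + 3 = q * (s 0 / q + s 1 / q + s 2 / q + 3)
  have h0 := Nat.div_add_mod (s 0) q
  have h1 := Nat.div_add_mod (s 1) q
  have h2 := Nat.div_add_mod (s 2) q
  rw [h 0] at h0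
  rw [h 1] at h1
  rw [h 2] at h2
  have h3 : q * (s 0 / q + s 1 / q + s 2 / q + 3) =
      q * (s 0 / q) + q * (s 1 / q) + q * (s 2 / q) + (q + q + q) := by ring
  rw [h3]
  omega

private theorem dec_sum (q : ℕ) (f : MvPolynomial (Fin 3) K) :
    dec q f = ∑ s ∈ f.support, dec q (monomial s (coeff s f)) := by
  conv_lhs => rw [f.as_sum]
  rw [map_sum]

theorem dec_hom (q : ℕ) (hq : 0 < q) (f : MvPolynomial (Fin 3) K) (d d' : ℕ)
    (hf : f.IsHomogeneous d) (hd : d + 3 = q * (d' + 3)) : (dec q f).IsHomogeneous d' := by
  rw [dec_sum]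
  refine IsHomogeneous.sum _ _ _ fun s hs => ?_
  rw [dec_monomial]
  split_ifs with h
  · refine isHomogeneous_monomial _ ?_
    have h1 := dec_deg q hq s h
    have h2 : s.degree = d := by
      have := hf (mem_support_iff.1 hs)
      rw [Finsupp.degree_eq_weight_one]
      exact this
    rw [h2, hd] at h1
    have := Nat.eq_of_mul_eq_mul_left hq h1
    omega
  · exact isHomogeneous_zero _ _ _

theorem dec_zero (q : ℕ) (hq : 0 < q) (f : MvPolynomial (Fin 3) K) (d : ℕ)
    (hf : f.IsHomogeneous d) (hd : ∀ d', d + 3 ≠ q * (d' + 3)) : dec q f = 0 := by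
  rw [dec_sum]
  refine Finset.sum_eq_zero fun s hs => ?_
  rw [dec_monomial, if_neg]
  intro h
  have h1 := dec_deg q hq s h
  have h2 : s.degree = d := by
    have := hf (mem_support_iff.1 hs)
    rw [Finsupp.degree_eq_weight_one]
    exact this
  rw [h2] at h1
  exact hd _ h1

end Pool.Agent.SplF
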