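import Pool.Agent.Spl2.BrC2

/-!
# SplF/Nf: forms modulo a line and their values at the nodes

The point of the line `x ξ + y η + ζ = 0` in the direction `(a, b)` is `![b, -a, y * a - x * b]`.

PAPER PROOFS.  `nf_bev`: `nf_homog` of `BrC2` gives `F = bin (n+1) c + L * G`, `L = C x * X 0 + C y * X 1 + X 2`; `L` vanishes at the
point, so `eval F = eval (bin (n+1) c) = ∑_j c_j b^j (-a)^(n+1-j) = bev (n+1) q a b` with `q_j = (-1)^j c_(n+1-j)`
(reindex by `Fin.rev`). If `q = 0` then `c = 0` and `F = L * G`.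
`nf_lin`: for `n = 0` explicitly: `F = a0 ξ + a1 η + a2 ζ`, `q 0 = a0 - x a2`, `q 1 = y a2 - a1`, `a_i = coeff (single i 1) F`.
`eval_node`: with `a = x_v - x_u`, `b = y_v - y_u` the two points are equal and `dl p u`, `dl p v` vanish there
(`F - G = A * dl p u + B * dl p v`, `Ideal.mem_span_pair`).
-/

set_option autoImplicit false

namespace Pool.Agent.SplF

open MvPolynomial Pool.Agent.Spl2

variable {V : Type*} [Fintype V] [DecidableEq V] {K : Type*} [Field K]

theorem nf_bev (x y : K) (n : ℕ) (F : MvPolynomial (Fin 3) K) (hF : F.IsHomogeneous (n + 1)) :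
    ∃ q : Fin (n + 1 + 1) → K, (q = 0 → (C x * X 0 + C y * X 1 + X 2) ∣ F) ∧
      ∀ a b : K, bev (n + 1) q a b = eval ![b, -a, y * a - x * b] F := by
  obtain ⟨c, c', e, hFe⟩ := nf_homog x y n F hF
  refine ⟨fun j => (-1) ^ (j : ℕ) * c (Fin.rev j), ?_, ?_⟩
  · intro h0
    have hc : c = 0 := by
      funext j
      have h1 := congrFun h0 (Fin.rev j)
      simp only [Fin.rev_rev, Pi.zero_apply, mul_eq_zero] at h1
      rcases h1 with h1 | h1
      · exact absurd h1 (pow_ne_zero _ (neg_ne_zero.2 one_ne_zero))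
      · exact h1
    refine ⟨bin n c' + (C x * X 0 + C y * X 1 + X 2) * e, ?_⟩
    have h2 : bin (n + 1) c = 0 := by
      rw [hc]; unfold bin; simp
    rw [hFe, h2]; ring
  · intro a b
    have hL : eval ![b, -a, y * a - x * b] (C x * X 0 + C y * X 1 + X 2 : MvPolynomial (Fin 3) K) = 0 := by
      simp
      ring
    rw [hFe, map_add, map_add, map_mul, map_mul, map_pow, hL, zero_mul, zero_pow two_ne_zero, zero_mul,
      add_zero, add_zero]
    unfold bev bin
    rw [map_sum, ← Equiv.sum_comp Fin.revPerm]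
    refine Finset.sum_congr rfl fun j _ => ?_
    have hj : (j : ℕ) ≤ n + 1 := by have := j.2; omega
    have h3 : ((Fin.rev j : Fin (n + 1 + 1)) : ℕ) = n + 1 - (j : ℕ) := by
      rw [Fin.val_rev]; omega
    simp only [Fin.revPerm_apply, Fin.rev_rev, h3, map_mul, map_pow, eval_C, eval_X]
    have h4 : n + 1 - (n + 1 - (j : ℕ)) = j := by omega
    rw [h4]
    simp only [Matrix.cons_val_zero, Matrix.cons_val_one]
    rw [neg_pow a]
    ring

/-- the class of a linear form modulo the line, in coordinates, as a linear map on all polynomials -/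
noncomputable def red1 (x y : K) : MvPolynomial (Fin 3) K →ₗ[K] (Fin (1 + 1) → K) :=
  LinearMap.pi ![lcoeff K (Finsupp.single (0 : Fin 3) 1) - x • lcoeff K (Finsupp.single (2 : Fin 3) 1),
    y • lcoeff K (Finsupp.single (2 : Fin 3) 1) - lcoeff K (Finsupp.single (1 : Fin 3) 1)]

private theorem nfh_lin (F : MvPolynomial (Fin 3) K) (hF : F.IsHomogeneous 1) :
    F = C (coeff (Finsupp.single (0 : Fin 3) 1) F) * X 0 + C (coeff (Finsupp.single (1 : Fin 3) 1) F) * X 1 +
      C (coeff (Finsupp.single (2 : Fin 3) 1) F) * X 2 := by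
  obtain ⟨c, c', e, hFe⟩ := nf_homog (0 : K) 0 0 F hF
  ext s
  rw [coeff_add, coeff_add, coeff_C_mul, coeff_C_mul, coeff_C_mul, coeff_X', coeff_X', coeff_X']
  by_cases hs : coeff s F = 0
  · by_cases h0 : Finsupp.single (0 : Fin 3) 1 = s
    · subst h0
      have h1 : ¬ (Finsupp.single (1 : Fin 3) 1 = Finsupp.single (0 : Fin 3) (1 : ℕ)) := by
        intro h; have := DFunLike.congr_fun h 0; simp at this
      have h2 : ¬ (Finsupp.single (2 : Fin 3) 1 = Finsupp.single (0 : Fin 3) (1 : ℕ)) := by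
        intro h; have := DFunLike.congr_fun h 0; simp at this
      simp [h1, h2]
    · by_cases h1 : Finsupp.single (1 : Fin 3) 1 = s
      · subst h1
        have h2 : ¬ (Finsupp.single (2 : Fin 3) 1 = Finsupp.single (1 : Fin 3) (1 : ℕ)) := by
          intro h; have := DFunLike.congr_fun h 1; simp at this
        simp [h0, h2]
      · by_cases h2 : Finsupp.single (2 : Fin 3) 1 = s
        · subst h2
          simp [h0, h1]
        · simp [h0, h1, h2, hs]
  · have hdeg : s 0 + s 1 + s 2 = 1 := by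
      have := hF hs
      rw [Finsupp.weight_apply, Finsupp.sum_fintype _ _ (by simp), Fin.sum_univ_three] at this
      simpa using this
    have hcase : Finsupp.single (0 : Fin 3) 1 = s ∨ Finsupp.single (1 : Fin 3) 1 = s ∨
        Finsupp.single (2 : Fin 3) 1 = s := by
      have : (s 0 = 1 ∧ s 1 = 0 ∧ s 2 = 0) ∨ (s 0 = 0 ∧ s 1 = 1 ∧ s 2 = 0) ∨ (s 0 = 0 ∧ s 1 = 0 ∧ s 2 = 1) := by
        omega
      rcases this with ⟨h0, h1, h2⟩ | ⟨h0, h1, h2⟩ | ⟨h0, h1, h2⟩
      · left; ext i; fin_cases i <;> simp [h0, h1, h2]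
      · right; left; ext i; fin_cases i <;> simp [h0, h1, h2]
      · right; right; ext i; fin_cases i <;> simp [h0, h1, h2]
    have e01 : ¬ (Finsupp.single (0 : Fin 3) 1 = Finsupp.single (1 : Fin 3) (1 : ℕ)) := by
      intro h; have := DFunLike.congr_fun h 0; simp at this
    have e02 : ¬ (Finsupp.single (0 : Fin 3) 1 = Finsupp.single (2 : Fin 3) (1 : ℕ)) := by
      intro h; have := DFunLike.congr_fun h 0; simp at this
    have e12 : ¬ (Finsupp.single (1 : Fin 3) 1 = Finsupp.single (2 : Fin 3) (1 : ℕ)) := by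
      intro h; have := DFunLike.congr_fun h 1; simp at this
    rcases hcase with h | h | h
    · subst h; simp [Ne.symm e01, Ne.symm e02]
    · subst h; simp [e01, Ne.symm e12]
    · subst h; simp [e02, e12]

theorem red1_bev (x y : K) (F : MvPolynomial (Fin 3) K) (hF : F.IsHomogeneous 1) (a b : K) :
    bev 1 (red1 x y F) a b = eval ![b, -a, y * a - x * b] F := by
  conv_rhs => rw [nfh_lin F hF]
  simp only [bev, red1, Fin.sum_univ_two, LinearMap.pi_apply, Matrix.cons_val_zero, Matrix.cons_val_one,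
    LinearMap.sub_apply, LinearMap.smul_apply, lcoeff_apply, smul_eq_mul, map_add, map_mul, eval_C, eval_X,
    Fin.val_zero, Fin.val_one, pow_zero, pow_one, Matrix.cons_val]
  simp
  ring

theorem red1_zero (x y : K) (F : MvPolynomial (Fin 3) K) (hF : F.IsHomogeneous 1)
    (h : red1 x y F = 0) : F = C (coeff (Finsupp.single (2 : Fin 3) 1) F) * (C x * X 0 + C y * X 1 + X 2) := by
  have h0 := congrFun h 0
  have h1 := congrFun h 1
  simp only [red1, LinearMap.pi_apply, Matrix.cons_val_zero, Matrix.cons_val_one,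
    LinearMap.sub_apply, LinearMap.smul_apply, lcoeff_apply, smul_eq_mul, Pi.zero_apply] at h0 h1
  have e0 : coeff (Finsupp.single (0 : Fin 3) 1) F = x * coeff (Finsupp.single (2 : Fin 3) 1) F := by
    linear_combination h0
  have e1 : coeff (Finsupp.single (1 : Fin 3) 1) F = y * coeff (Finsupp.single (2 : Fin 3) 1) F := by
    linear_combination -h1
  conv_lhs => rw [nfh_lin F hF, e0, e1]
  rw [C_mul, C_mul]
  ring

theorem eval_node (p : V × Fin 2 → K) (u v : V) (F G : MvPolynomial (Fin 3) K)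
    (h : F - G ∈ Ideal.span {dl p u, dl p v}) :
    eval ![p (v, 1) - p (u, 1), -(p (v, 0) - p (u, 0)),
        p (u, 1) * (p (v, 0) - p (u, 0)) - p (u, 0) * (p (v, 1) - p (u, 1))] F =
      eval ![p (v, 1) - p (u, 1), -(p (v, 0) - p (u, 0)),
        p (v, 1) * (p (v, 0) - p (u, 0)) - p (v, 0) * (p (v, 1) - p (u, 1))] G := by
  have hpt : p (v, 1) * (p (v, 0) - p (u, 0)) - p (v, 0) * (p (v, 1) - p (u, 1)) =
      p (u, 1) * (p (v, 0) - p (u, 0)) - p (u, 0) * (p (v, 1) - p (u, 1)) := by ring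
  rw [hpt]
  obtain ⟨A, B, hAB⟩ := Ideal.mem_span_pair.1 h
  have hu : eval ![p (v, 1) - p (u, 1), -(p (v, 0) - p (u, 0)),
        p (u, 1) * (p (v, 0) - p (u, 0)) - p (u, 0) * (p (v, 1) - p (u, 1))] (dl p u) = 0 := by
    unfold dl
    simp
    ring
  have hv : eval ![p (v, 1) - p (u, 1), -(p (v, 0) - p (u, 0)),
        p (u, 1) * (p (v, 0) - p (u, 0)) - p (u, 0) * (p (v, 1) - p (u, 1))] (dl p v) = 0 := by
    unfold dl
    simp
    ring
  have h1 := congrArg (eval ![p (v, 1) - p (u, 1), -(p (v, 0) - p (u, 0)),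
        p (u, 1) * (p (v, 0) - p (u, 0)) - p (u, 0) * (p (v, 1) - p (u, 1))]) hAB
  rw [map_add, map_mul, map_mul, hu, hv, mul_zero, mul_zero, add_zero, map_sub] at h1
  exact (sub_eq_zero.1 h1.symm)

end Pool.Agent.SplF
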