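import Pool.Agent.SplF.Dec
import Pool.Agent.SplF.Adp
import Pool.Agent.SplF.Nf

/-!
# SplF/Dz: from the twisted systems to the truncated system of the spline problem (Frobenius filtration)

`q = p₀ ^ e`, `2 m + 1 = q` or `2 m + 2 = q`, `δ = 2 q - 1 - m`, `k = 4 q - 3 - 2 m`.  `DZ m q p E I`: families of linear maps `φ v` from the
forms of degree `2 m` to `K²`, zero for `v ∉ I`, with `φ u g = φ v g` in the direction `p_v^q - p_u^q` for `g ∈ (L_u, L_v)^m`, are zero.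

PAPER PROOF of `sol_of_dz`.  Let `μ ∈ Sol k δ q p E I`, `L_v = dl p v`, `L'_v = dl p' v`, `p' = p^q`; `expand q L'_v = L_v ^ q` (`expand_dl`).
(1) For an edge `u v`: `μ u - μ v ∈ (L_u, L_v)^δ + (L_u^q, L_v^q)` (`mem_J`).
(2) If `g ∈ (L_u, L_v)^m`, then `(μ u - μ v) g ∈ (L_u, L_v)^(2q-1) + (L_u^q, L_v^q) = (L_u^q, L_v^q)` (`pow_mem`), so
`dec q ((μ u - μ v) g) ∈ (L'_u, L'_v)` (`(μ u - μ v) g = A L_u^q + B L_v^q`, `dec_expand_mul`).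
(3) `g` homogeneous of degree `2 m`: `dec q (μ v g)` is homogeneous of degree `1` (`k + 2 m + 3 = 4 q`, `dec_hom`).  Put
`φ v g = red1 (p' v 0) (p' v 1) (dec q (μ v g))`, a linear map (`LinearMap.mulLeft`).  By (2), `eval_node`, `red1_bev` the hypotheses of `DZ`
hold (`φ v = 0` if `v ∉ I` since `μ v = 0`), so `φ = 0` and `dec q (μ v g)` is a multiple of `L'_v` (`red1_zero`).
(4) `g` homogeneous of degree `q + 2 m`: `dec q (μ v g)` is homogeneous of degree `2` (`k + q + 2 m + 3 = 5 q`).  For an edge `u v` write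
`g = g1 + X 0 ^ q g2` (`split_high`); `dec q (μ v g) = dec q (μ v g1) + X 0 * dec q (μ v g2)`, the last term is a multiple of `L'_v` by
(3), similarly for `u`, so with (2) for `g1`: `dec q (μ u g) - dec q (μ v g) ∈ (L'_u, L'_v)`.  Let `x v` be the `Fin 3 → K` of `nf_bev` (`n = 1`) for
`dec q (μ v g)`, and `x v = 0` if `v ∉ I` (then `dec q (μ v g) = 0`).  `BZ 2 p' E I` (via `eval_node`) gives `x v = 0`, so `L'_v ∣ dec q (μ v g)`.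
(5) Let `s` be an exponent with all `s i < q`, `σ = s 0 + s 1 + s 2 ≤ 3 q - 3`.  `μ v * X^s` is homogeneous of degree `k + σ`.  If `σ = 2 m` or
`σ = q + 2 m` use (3), (4).  Otherwise `dec q (μ v X^s) = 0` (`dec_zero`: `k + σ + 3 = q (d' + 3)` means `σ = q (d' - 1) + 2 m`,
so `d' = 0`: `σ = 2 m - q < 0`; `d' = 1, 2`: the two cases; `d' ≥ 3`: `σ ≥ 2 q + 2 m ≥ 3 q - 2`).  So `L'_v ∣ dec q (μ v X^s)` always, and
`dvd_of_dec` gives `L_v ^ q ∣ μ v`.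
-/

set_option autoImplicit false

namespace Pool.Agent.SplF

open MvPolynomial Pool.Agent.Spl2

variable {V : Type*} [Fintype V] [DecidableEq V] {K : Type*} [Field K]

/-- the twisted dual system has only the solution `0` -/
def DZ (m q : ℕ) (p : V × Fin 2 → K) (E : Finset (Finset V)) (I : Finset V) : Prop :=
  ∀ φ : V → MvPolynomial (Fin 3) K →ₗ[K] (Fin (1 + 1) → K),
    (∀ v, v ∉ I → ∀ g : MvPolynomial (Fin 3) K, g.IsHomogeneous (2 * m) → φ v g = 0) →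
    (∀ u v, u ≠ v → ({u, v} : Finset V) ∈ E → ∀ g : MvPolynomial (Fin 3) K, g.IsHomogeneous (2 * m) →
      g ∈ Ideal.span {dl p u, dl p v} ^ m →
      bev 1 (φ u g) (p (v, 0) ^ q - p (u, 0) ^ q) (p (v, 1) ^ q - p (u, 1) ^ q) =
        bev 1 (φ v g) (p (v, 0) ^ q - p (u, 0) ^ q) (p (v, 1) ^ q - p (u, 1) ^ q)) →
    ∀ v, ∀ g : MvPolynomial (Fin 3) K, g.IsHomogeneous (2 * m) → φ v g = 0

theorem expand_dl (p₀ e : ℕ) [Fact p₀.Prime] [CharP K p₀] (p : V × Fin 2 → K) (v : V) :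
    expand (p₀ ^ e) (dl (fun x => p x ^ (p₀ ^ e)) v) = dl p v ^ (p₀ ^ e) := by
  unfold dl
  rw [add_pow_char_pow, add_pow_char_pow, mul_pow, mul_pow]
  simp only [map_add, map_mul, expand_X, expand_C, map_pow]

private theorem dz_pair (p₀ e : ℕ) [Fact p₀.Prime] [CharP K p₀] (p : V × Fin 2 → K) (u v : V)
    (f : MvPolynomial (Fin 3) K)
    (hf : f ∈ Ideal.span {dl p u ^ (p₀ ^ e), dl p v ^ (p₀ ^ e)}) :
    dec (p₀ ^ e) f ∈ Ideal.span {dl (fun x => p x ^ (p₀ ^ e)) u, dl (fun x => p x ^ (p₀ ^ e)) v} := by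
  have hq : 0 < p₀ ^ e := Nat.pow_pos (Fact.out (p := p₀.Prime)).pos
  obtain ⟨a, b, rfl⟩ := Ideal.mem_span_pair.1 hf
  rw [← expand_dl p₀ e p u, ← expand_dl p₀ e p v, map_add, mul_comm a, mul_comm b,
    dec_expand_mul _ hq, dec_expand_mul _ hq]
  exact Ideal.mem_span_pair.2 ⟨_, _, by rw [mul_comm, mul_comm (dec (p₀ ^ e) b)]⟩

private theorem dz_step (p₀ e m : ℕ) [Fact p₀.Prime] [CharP K p₀]
    (hm : 2 * m + 1 = p₀ ^ e ∨ 2 * m + 2 = p₀ ^ e) (p : V × Fin 2 → K) (E : Finset (Finset V))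
    (I : Finset V) (hΔ : ∀ u v, u ≠ v → ({u, v} : Finset V) ∈ E → p (u, 1) ≠ p (v, 1))
    (μ : V → MvPolynomial (Fin 3) K)
    (hμ : μ ∈ Sol (4 * p₀ ^ e - 3 - 2 * m) (2 * p₀ ^ e - 1 - m) (fun _ => p₀ ^ e) p E I)
    (u v : V) (huv : u ≠ v) (he : ({u, v} : Finset V) ∈ E) (g : MvPolynomial (Fin 3) K)
    (hg : g ∈ Ideal.span {dl p u, dl p v} ^ m) :
    dec (p₀ ^ e) (μ u * g) - dec (p₀ ^ e) (μ v * g) ∈
      Ideal.span {dl (fun x => p x ^ (p₀ ^ e)) u, dl (fun x => p x ^ (p₀ ^ e)) v} := by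
  have hq : 0 < p₀ ^ e := Nat.pow_pos (Fact.out (p := p₀.Prime)).pos
  obtain ⟨h1, -, h3⟩ := hμ
  have h4 := mem_J p u v (hΔ u v huv he) (4 * p₀ ^ e - 3 - 2 * m) (2 * p₀ ^ e - 1 - m) (p₀ ^ e) (p₀ ^ e)
    (μ u - μ v) ((h1 u).sub (h1 v)) (fun i j a b c => h3 u v huv he i j a b c)
  have h5 : (μ u - μ v) * g ∈ Ideal.span {dl p u ^ (p₀ ^ e), dl p v ^ (p₀ ^ e)} := by
    obtain ⟨a, ha, b, hb, hab⟩ := Submodule.mem_sup.1 h4
    rw [← hab, add_mul]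
    refine Ideal.add_mem _ ?_ (Ideal.mul_mem_right _ _ hb)
    refine pow_mem _ _ _ _ hq ?_
    have h6 : 2 * p₀ ^ e - 1 = (2 * p₀ ^ e - 1 - m) + m := by omega
    rw [h6, pow_add]
    exact Ideal.mul_mem_mul ha hg
  have h7 := dz_pair p₀ e p u v _ h5
  rwa [sub_mul, map_sub] at h7

private theorem dz_low (p₀ e m : ℕ) [Fact p₀.Prime] [CharP K p₀]
    (hm : 2 * m + 1 = p₀ ^ e ∨ 2 * m + 2 = p₀ ^ e) (p : V × Fin 2 → K) (E : Finset (Finset V))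
    (I : Finset V) (hΔ : ∀ u v, u ≠ v → ({u, v} : Finset V) ∈ E → p (u, 1) ≠ p (v, 1))
    (hD : DZ m (p₀ ^ e) p E I) (μ : V → MvPolynomial (Fin 3) K)
    (hμ : μ ∈ Sol (4 * p₀ ^ e - 3 - 2 * m) (2 * p₀ ^ e - 1 - m) (fun _ => p₀ ^ e) p E I)
    (v : V) (g : MvPolynomial (Fin 3) K) (hg : g.IsHomogeneous (2 * m)) :
    dl (fun x => p x ^ (p₀ ^ e)) v ∣ dec (p₀ ^ e) (μ v * g) := by
  have hq : 0 < p₀ ^ e := Nat.pow_pos (Fact.out (p := p₀.Prime)).pos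
  have h1 := hμ.1
  have h2 := hμ.2.1
  have hh : ∀ w, ∀ f : MvPolynomial (Fin 3) K, f.IsHomogeneous (2 * m) →
      (dec (p₀ ^ e) (μ w * f)).IsHomogeneous 1 := fun w f hf =>
    dec_hom _ hq _ _ 1 ((h1 w).mul hf) (by omega)
  have h3 := hD (fun w => (red1 (p (w, 0) ^ (p₀ ^ e)) (p (w, 1) ^ (p₀ ^ e))).comp
    ((dec (p₀ ^ e)).comp (LinearMap.mulLeft K (μ w)))) ?_ ?_ v g hg
  · have h4 : red1 (p (v, 0) ^ (p₀ ^ e)) (p (v, 1) ^ (p₀ ^ e)) (dec (p₀ ^ e) (μ v * g)) = 0 := h3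
    rw [red1_zero _ _ _ (hh v g hg) h4]
    exact Dvd.intro_left _ rfl
  · intro w hw f _
    simp only [LinearMap.comp_apply, LinearMap.mulLeft_apply, h2 w hw, zero_mul, map_zero]
  · intro a b hab he f hf hfm
    simp only [LinearMap.comp_apply, LinearMap.mulLeft_apply]
    rw [red1_bev _ _ _ (hh a f hf), red1_bev _ _ _ (hh b f hf)]
    exact eval_node (fun x => p x ^ (p₀ ^ e)) a b _ _ (dz_step p₀ e m hm p E I hΔ μ hμ a b hab he f hfm)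

private theorem dz_high (p₀ e m : ℕ) [Fact p₀.Prime] [CharP K p₀]
    (hm : 2 * m + 1 = p₀ ^ e ∨ 2 * m + 2 = p₀ ^ e) (p : V × Fin 2 → K) (E : Finset (Finset V))
    (I : Finset V) (hΔ : ∀ u v, u ≠ v → ({u, v} : Finset V) ∈ E → p (u, 1) ≠ p (v, 1))
    (hD : DZ m (p₀ ^ e) p E I) (hB : BZ 2 (fun x => p x ^ (p₀ ^ e)) E I)
    (μ : V → MvPolynomial (Fin 3) K)
    (hμ : μ ∈ Sol (4 * p₀ ^ e - 3 - 2 * m) (2 * p₀ ^ e - 1 - m) (fun _ => p₀ ^ e) p E I)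
    (v : V) (g : MvPolynomial (Fin 3) K) (hg : g.IsHomogeneous (p₀ ^ e + 2 * m)) :
    dl (fun x => p x ^ (p₀ ^ e)) v ∣ dec (p₀ ^ e) (μ v * g) := by
  have hq : 0 < p₀ ^ e := Nat.pow_pos (Fact.out (p := p₀.Prime)).pos
  have h1 := hμ.1
  have h2 := hμ.2.1
  have hh : ∀ w, (dec (p₀ ^ e) (μ w * g)).IsHomogeneous (1 + 1) := fun w =>
    dec_hom _ hq _ _ 2 ((h1 w).mul hg) (by omega)
  have h3 : ∀ w, ∃ x : Fin (2 + 1) → K, (w ∉ I → x = 0) ∧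
      (x = 0 → dl (fun x => p x ^ (p₀ ^ e)) w ∣ dec (p₀ ^ e) (μ w * g)) ∧
      ∀ a b : K, bev 2 x a b = eval ![b, -a, p (w, 1) ^ (p₀ ^ e) * a - p (w, 0) ^ (p₀ ^ e) * b]
        (dec (p₀ ^ e) (μ w * g)) := by
    intro w
    by_cases hw : w ∈ I
    · obtain ⟨x, hx1, hx2⟩ := nf_bev (p (w, 0) ^ (p₀ ^ e)) (p (w, 1) ^ (p₀ ^ e)) 1 _ (hh w)
      exact ⟨x, fun h => absurd hw h, hx1, hx2⟩
    · refine ⟨0, fun _ => rfl, fun _ => ?_, fun a b => ?_⟩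
      · rw [h2 w hw, zero_mul, map_zero]; exact dvd_zero _
      · rw [h2 w hw, zero_mul, map_zero, map_zero]; simp [bev]
  choose x hx1 hx2 hx3 using h3
  refine hx2 v (hB x (fun w hw => hx1 w hw) ?_ v)
  intro a b hab he
  rw [hx3 a, hx3 b]
  refine eval_node (fun x => p x ^ (p₀ ^ e)) a b _ _ ?_
  obtain ⟨g1, g2, hgg, hg1, hg2, hg3⟩ := split_high p a b (hΔ a b hab he) m (p₀ ^ e) g hg
  have h4 : ∀ w, dec (p₀ ^ e) (μ w * g) = dec (p₀ ^ e) (μ w * g1) + X 0 * dec (p₀ ^ e) (μ w * g2) := by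
    intro w
    have h5 : μ w * g = μ w * g1 + expand (p₀ ^ e) (X 0) * (μ w * g2) := by
      rw [hgg, expand_X]; ring
    rw [h5, map_add, dec_expand_mul _ hq]
  rw [h4 a, h4 b]
  have h6 := dz_step p₀ e m hm p E I hΔ μ hμ a b hab he g1 hg3
  have h7 := dz_low p₀ e m hm p E I hΔ hD μ hμ a g2 hg2
  have h8 := dz_low p₀ e m hm p E I hΔ hD μ hμ b g2 hg2
  have h9 : dec (p₀ ^ e) (μ a * g1) + X 0 * dec (p₀ ^ e) (μ a * g2) -
      (dec (p₀ ^ e) (μ b * g1) + X 0 * dec (p₀ ^ e) (μ b * g2)) =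
      (dec (p₀ ^ e) (μ a * g1) - dec (p₀ ^ e) (μ b * g1)) +
        (X 0 * dec (p₀ ^ e) (μ a * g2) - X 0 * dec (p₀ ^ e) (μ b * g2)) := by ring
  rw [h9]
  refine Ideal.add_mem _ h6 (Ideal.sub_mem _ (Ideal.mul_mem_left _ _ ?_) (Ideal.mul_mem_left _ _ ?_))
  · obtain ⟨c, hc⟩ := h7
    rw [hc]
    exact Ideal.mul_mem_right _ _ (Ideal.subset_span (Set.mem_insert _ _))
  · obtain ⟨c, hc⟩ := h8
    rw [hc]
    exact Ideal.mul_mem_right _ _ (Ideal.subset_span (Set.mem_insert_of_mem _ (Set.mem_singleton _)))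

theorem sol_of_dz (p₀ e m : ℕ) [Fact p₀.Prime] [CharP K p₀]
    (hm : 2 * m + 1 = p₀ ^ e ∨ 2 * m + 2 = p₀ ^ e) (p : V × Fin 2 → K) (E : Finset (Finset V))
    (I : Finset V) (hΔ : ∀ u v, u ≠ v → ({u, v} : Finset V) ∈ E → p (u, 1) ≠ p (v, 1))
    (hD : DZ m (p₀ ^ e) p E I) (hB : BZ 2 (fun x => p x ^ (p₀ ^ e)) E I) :
    ∀ μ ∈ Sol (4 * p₀ ^ e - 3 - 2 * m) (2 * p₀ ^ e - 1 - m) (fun _ => p₀ ^ e) p E I,
      ∀ v, dl p v ^ (p₀ ^ e) ∣ μ v := by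
  intro μ hμ v
  have hq : 0 < p₀ ^ e := Nat.pow_pos (Fact.out (p := p₀.Prime)).pos
  rw [← expand_dl p₀ e p v]
  refine dvd_of_dec _ hq _ _ fun s hs => ?_
  have hmon : (monomial s (1 : K)).IsHomogeneous (s 0 + s 1 + s 2) := by
    refine isHomogeneous_monomial _ ?_
    rw [Finsupp.degree_eq_sum, Fin.sum_univ_three]
  have hs0 := hs 0
  have hs1 := hs 1
  have hs2 := hs 2
  by_cases hA : s 0 + s 1 + s 2 = 2 * m
  · exact dz_low p₀ e m hm p E I hΔ hD μ hμ v _ (hA ▸ hmon)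
  by_cases hB' : s 0 + s 1 + s 2 = p₀ ^ e + 2 * m
  · exact dz_high p₀ e m hm p E I hΔ hD hB μ hμ v _ (hB' ▸ hmon)
  rw [dec_zero _ hq _ _ ((hμ.1 v).mul hmon) ?_]
  · exact dvd_zero _
  intro d' hd
  rcases d' with _ | _ | _ | d'
  · omega
  · omega
  · omega
  · have h1 : p₀ ^ e * (d' + 1 + 1 + 1 + 3) = p₀ ^ e * d' + 6 * p₀ ^ e := by ring
    rw [h1] at hd
    omega

end Pool.Agent.SplF
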