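import Pool.Agent.SplF.Str
import Pool.Agent.Spl2.Defs

/-!
# SplF/Rig: a triangulated sphere is rigid in the plane

PAPER PROOF.  `bev 1 x a b = x 0 * b + x 1 * a`.  Let `D` be the set of the triangles of `T` all of whose vertices `v` have `x v = 0`.  If
`t ∈ D`, `t' ∈ T` and `t`, `t'` contain the edge `{u, v}` (`u ≠ v`), then `t' = {u, v, w}` and the equations of the edges `{w, u}`, `{w, v}` are
`x w 0 * (y_u1 - y_w1) + x w 1 * (y_u0 - y_w0) = 0` and the same with `v`; the determinant is `± dt y w u v ≠ 0`, so `x w = 0` and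
`t' ∈ D`.  Hence every edge is in `0` or `2` triangles of `D` and `bdry D = ∅`, so by `Sph.H2` `D = ∅` or `D = T`.  The triangles at the edge `{b, c}`
are in `D` by the same computation.  So `D = T`.
-/

set_option autoImplicit false

namespace Pool.Agent.SplF

open Finset Pool.Agent.Spl1 Pool.Agent.Spl2 Pool.Agent.Spl3

variable {V : Type*} [Fintype V] [DecidableEq V] {K : Type*} [Field K]

private theorem bev1 (x : Fin (1 + 1) → K) (a b : K) : bev 1 x a b = x 0 * b + x 1 * a := by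
  have h : bev 1 x a b = ∑ j : Fin 2, x j * (a ^ (j : ℕ) * b ^ (1 - (j : ℕ))) := rfl
  rw [h, Fin.sum_univ_two]
  simp

omit [Fintype V] in
private theorem rig_third {t : Finset V} (ht : t.card = 3) {u v : V} (huv : u ≠ v) (hu : u ∈ t)
    (hv : v ∈ t) : ∃ w, w ≠ u ∧ w ≠ v ∧ t = {u, v, w} := by
  have h1 : ((t.erase u).erase v).card = 1 := by
    rw [Finset.card_erase_of_mem (Finset.mem_erase.2 ⟨huv.symm, hv⟩), Finset.card_erase_of_mem hu, ht]
  obtain ⟨w, hw⟩ := Finset.card_eq_one.1 h1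
  have hwm : w ∈ (t.erase u).erase v := by
    rw [hw]
    exact Finset.mem_singleton_self w
  rw [Finset.mem_erase, Finset.mem_erase] at hwm
  refine ⟨w, hwm.2.1, hwm.1, ?_⟩
  ext z
  simp only [Finset.mem_insert, Finset.mem_singleton]
  constructor
  · intro hz
    by_cases h2 : z = u
    · exact Or.inl h2
    by_cases h3 : z = v
    · exact Or.inr (Or.inl h3)
    right; right
    have h4 : z ∈ (t.erase u).erase v := Finset.mem_erase.2 ⟨h3, Finset.mem_erase.2 ⟨h2, hz⟩⟩
    rw [hw] at h4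
    exact Finset.mem_singleton.1 h4
  · rintro (rfl | rfl | rfl)
    · exact hu
    · exact hv
    · exact hwm.2.2

private theorem rig_step {T : Finset (Finset V)} (hT : Sph T) (y : V × Fin 2 → K)
    (hy : ∀ u v w, ({u, v, w} : Finset V) ∈ T → dt y u v w ≠ 0) (x : V → Fin (1 + 1) → K)
    (hx : ∀ u v, ({u, v} : Finset V) ∈ edges T →
      bev 1 (x u) (y (v, 0) - y (u, 0)) (y (v, 1) - y (u, 1)) =
        bev 1 (x v) (y (v, 0) - y (u, 0)) (y (v, 1) - y (u, 1)))
    {t : Finset V} (ht : t ∈ T) {u v : V} (huv : u ≠ v) (hut : u ∈ t) (hvt : v ∈ t) (hu : x u = 0)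
    (hv : x v = 0) : ∀ z ∈ t, x z = 0 := by
  obtain ⟨w, hwu, hwv, rfl⟩ := rig_third (hT.card3 t ht) huv hut hvt
  have e1 := hx u w (edge_of_tri ht hwu.symm (by simp) (by simp))
  have e2 := hx v w (edge_of_tri ht hwv.symm (by simp) (by simp))
  have hd := hy u v w ht
  rw [bev1, bev1, hu] at e1
  rw [bev1, bev1, hv] at e2
  unfold dt at hd
  simp only [Pi.zero_apply, zero_mul, add_zero] at e1 e2
  have h0 : x w 0 = 0 := by
    have h1 : x w 0 * ((y (v, 0) - y (u, 0)) * (y (w, 1) - y (u, 1)) -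
        (y (v, 1) - y (u, 1)) * (y (w, 0) - y (u, 0))) = 0 := by
      linear_combination (y (w, 0) - y (v, 0)) * e1 - (y (w, 0) - y (u, 0)) * e2
    exact (mul_eq_zero.1 h1).resolve_right hd
  have h1 : x w 1 = 0 := by
    have h1 : x w 1 * ((y (v, 0) - y (u, 0)) * (y (w, 1) - y (u, 1)) -
        (y (v, 1) - y (u, 1)) * (y (w, 0) - y (u, 0))) = 0 := by
      linear_combination (-(y (w, 1) - y (v, 1))) * e1 + (y (w, 1) - y (u, 1)) * e2
    exact (mul_eq_zero.1 h1).resolve_right hd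
  intro z hz
  simp only [Finset.mem_insert, Finset.mem_singleton] at hz
  rcases hz with rfl | rfl | rfl
  · exact hu
  · exact hv
  · funext j
    fin_cases j
    · exact h0
    · exact h1

theorem rigid {T : Finset (Finset V)} (hT : Sph T) (y : V × Fin 2 → K)
    (hy : ∀ u v w, ({u, v, w} : Finset V) ∈ T → dt y u v w ≠ 0) (x : V → Fin (1 + 1) → K)
    (hx : ∀ u v, ({u, v} : Finset V) ∈ edges T →
      bev 1 (x u) (y (v, 0) - y (u, 0)) (y (v, 1) - y (u, 1)) =
        bev 1 (x v) (y (v, 0) - y (u, 0)) (y (v, 1) - y (u, 1)))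
    (b c : V) (hbc : ({b, c} : Finset V) ∈ edges T) (hb : x b = 0) (hc : x c = 0) :
    ∀ v ∈ vs T, x v = 0 := by
  classical
  set D := T.filter (fun t => ∀ z ∈ t, x z = 0) with hD
  have hbd : bdry D = ∅ := by
    rw [Finset.eq_empty_iff_forall_notMem]
    intro e he
    rw [mem_bdry] at he
    obtain ⟨he2, hodd⟩ := he
    obtain ⟨u, v, huv, rfl⟩ := Finset.card_eq_two.1 he2
    have hpos : 0 < tdeg D {u, v} := hodd.pos
    unfold tdeg at hpos
    obtain ⟨t, ht⟩ := Finset.card_pos.1 hpos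
    rw [Finset.mem_filter, hD, Finset.mem_filter] at ht
    have hu : x u = 0 := ht.1.2 u (ht.2 (by simp))
    have hv : x v = 0 := ht.1.2 v (ht.2 (by simp))
    have hE : ({u, v} : Finset V) ∈ edges T := mem_edges.2 ⟨he2, t, ht.1.1, ht.2⟩
    have h1 : tdeg D {u, v} = tdeg T {u, v} := by
      unfold tdeg
      congr 1
      ext s
      rw [hD, Finset.mem_filter, Finset.mem_filter, Finset.mem_filter]
      constructor
      · rintro ⟨⟨h2, -⟩, h3⟩
        exact ⟨h2, h3⟩
      · rintro ⟨h2, h3⟩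
        exact ⟨⟨h2, rig_step hT y hy x hx h2 huv (h3 (by simp)) (h3 (by simp)) hu hv⟩, h3⟩
    rw [h1, hT.two _ hE] at hodd
    exact absurd hodd (by decide)
  obtain ⟨-, s, hs, hsub⟩ := mem_edges.1 hbc
  have hsD : s ∈ D := by
    rw [hD, Finset.mem_filter]
    exact ⟨hs, rig_step hT y hy x hx hs (edge_ne hbc) (hsub (by simp)) (hsub (by simp)) hb hc⟩
  have hDT : D = T := by
    rcases hT.H2 D (Finset.filter_subset _ _) hbd with h | h
    · rw [h] at hsD
      exact absurd hsD (Finset.notMem_empty s)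
    · exact h
  intro v hv
  obtain ⟨t, ht, hvt⟩ := mem_vs.1 hv
  rw [← hDT, hD, Finset.mem_filter] at ht
  exact ht.2 v hvt

end Pool.Agent.SplF
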