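import Pool.Agent.SplF.Dz
import Pool.Agent.SplF.Rig

/-!
# SplF/DzP: the twisted dual system from the primal statement S

`PS m q p T lf e₁`: for every edge `e₀ ≠ e₁` and every form `g` of degree `2 m` there are forms `h v` of degree `2 m` such that for all edges
`{u, v} ≠ e₁` the dependency `cc y h u v (lf u v) (lf v u)` (`y = p ^ q`) is `g` modulo `(L_u, L_v)^m` if `{u, v} = e₀` and `0` modulo
`(L_u, L_v)^m` otherwise.

PAPER PROOF.  Let `φ` be as in `DZ` for `E = edges T`, `I = vs T \ {b, c}`, `y = p ^ q`, `d u v g = bev 1 (φ u g) D - bev 1 (φ v g) D`,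
`D = y_v - y_u`; `d u v g = 0` for forms `g ∈ (L_u, L_v)^m` of degree `2 m` if `{u, v} ∈ edges T`.
(1) `d u v g = 0` for every edge and every form `g` of degree `2 m`.  If `{u, v} = {b, c}` both are zero.  Otherwise let `u₀ v₀` be the edge,
`s = dt y u₀ v₀ (lf u₀ v₀) * dt y u₀ v₀ (lf v₀ u₀) ≠ 0`, and take `h` from `PS` for `e₀ = {u₀, v₀}` and `C s * g` (= `s • g`).  `M` = all
polynomials.  For the other edges `om y h lf u v = (scalar) • cc` is a form of degree `2 m` (`cc` is a combination of the forms `h`) in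
`(L_u, L_v)^m`, or the edge is `{b, c}` (both `φ` are zero on forms of degree `2 m`), so `tele_edge` applies and gives
`d u₀ v₀ (om u₀ v₀) = 0`; and `om u₀ v₀ - g = s⁻¹ • (cc - s • g)` is a form of degree `2 m` in `(L_u₀, L_v₀)^m`, so
`d u₀ v₀ g = 0`.
(2) For fixed `g` apply `rigid` to `x v = φ v g` (`φ b g = φ c g = 0`): `φ v g = 0` for `v ∈ vs T`; for the other `v` by hypothesis.
-/

set_option autoImplicit false

namespace Pool.Agent.SplF

open Finset MvPolynomial Pool.Agent.Spl1 Pool.Agent.Spl2 Pool.Agent.Spl3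

variable {V : Type*} [Fintype V] [DecidableEq V] {K : Type*} [Field K]

/-- the primal statement S -/
def PS (m q : ℕ) (p : V × Fin 2 → K) (T : Finset (Finset V)) (lf : V → V → V) (e₁ : Finset V) :
    Prop :=
  ∀ e₀ ∈ edges T, e₀ ≠ e₁ → ∀ g : MvPolynomial (Fin 3) K, g.IsHomogeneous (2 * m) →
    ∃ h : V → MvPolynomial (Fin 3) K, (∀ v, (h v).IsHomogeneous (2 * m)) ∧
      ∀ u v, ({u, v} : Finset V) ∈ edges T → ({u, v} : Finset V) ≠ e₁ →
        cc (fun x => p x ^ q) h u v (lf u v) (lf v u) - (if ({u, v} : Finset V) = e₀ then g else 0) ∈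
          Ideal.span {dl p u, dl p v} ^ m

private theorem dzp_bev_sub (x y : Fin (1 + 1) → K) (a b : K) :
    bev 1 (x - y) a b = bev 1 x a b - bev 1 y a b := by
  unfold bev
  rw [← Finset.sum_sub_distrib]
  refine Finset.sum_congr rfl fun j _ => ?_
  rw [Pi.sub_apply]
  ring

private theorem dzp_smul_hom (s : K) {n : ℕ} {g : MvPolynomial (Fin 3) K} (hg : g.IsHomogeneous n) :
    (s • g).IsHomogeneous n :=
  (homogeneousSubmodule (Fin 3) K n).smul_mem s hg

omit [Fintype V] [DecidableEq V] in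
private theorem dzp_cc_hom (y : V × Fin 2 → K) {n : ℕ} {h : V → MvPolynomial (Fin 3) K}
    (hh : ∀ v, (h v).IsHomogeneous n) (u v a b : V) : (cc y h u v a b).IsHomogeneous n := by
  unfold cc
  exact ((dzp_smul_hom _ ((hh a).sub (hh u))).sub (dzp_smul_hom _ ((hh v).sub (hh u)))).sub
    (dzp_smul_hom _ ((hh b).sub (hh u)))

private theorem dzp_smul_mem {I : Ideal (MvPolynomial (Fin 3) K)} (s : K)
    {g : MvPolynomial (Fin 3) K} (hg : g ∈ I) : s • g ∈ I := by
  rw [MvPolynomial.smul_eq_C_mul]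
  exact I.mul_mem_left _ hg

omit [Fintype V] in
private theorem dzp_swap (u v w : V) : ({v, u, w} : Finset V) = {u, v, w} :=
  Finset.insert_comm v u {w}

theorem dz_of_ps (m q : ℕ) (p : V × Fin 2 → K) {T : Finset (Finset V)} (hT : Sph T)
    {lf : V → V → V} (hl : LeftOf T lf)
    (hy : ∀ u v w, ({u, v, w} : Finset V) ∈ T → dt (fun x => p x ^ q) u v w ≠ 0) (b c : V)
    (hbc : ({b, c} : Finset V) ∈ edges T) (hP : PS m q p T lf {b, c}) :
    DZ m q p (edges T) (vs T \ {b, c}) := by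
  intro φ hφ0 hφ
  have hpair : ∀ u v, ({u, v} : Finset V) = {b, c} → ∀ g : MvPolynomial (Fin 3) K,
      g.IsHomogeneous (2 * m) → φ u g = 0 ∧ φ v g = 0 := by
    intro u v huv g hg
    have hu : u ∈ ({b, c} : Finset V) := by
      rw [← huv]
      exact Finset.mem_insert_self _ _
    have hv : v ∈ ({b, c} : Finset V) := by
      rw [← huv]
      exact Finset.mem_insert_of_mem (Finset.mem_singleton_self _)
    refine ⟨hφ0 u (fun h => ?_) g hg, hφ0 v (fun h => ?_) g hg⟩
    · exact (Finset.mem_sdiff.1 h).2 hu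
    · exact (Finset.mem_sdiff.1 h).2 hv
  have hne : ∀ u v, ({u, v} : Finset V) ∈ edges T → u ≠ v := by
    rintro u v huv rfl
    rw [mem_edges] at huv
    have h2 := huv.1
    rw [Finset.pair_eq_singleton, Finset.card_singleton] at h2
    omega
  have key : ∀ u v, ({u, v} : Finset V) ∈ edges T → ∀ g : MvPolynomial (Fin 3) K,
      g.IsHomogeneous (2 * m) →
      bev 1 (φ u g) (p (v, 0) ^ q - p (u, 0) ^ q) (p (v, 1) ^ q - p (u, 1) ^ q) =
        bev 1 (φ v g) (p (v, 0) ^ q - p (u, 0) ^ q) (p (v, 1) ^ q - p (u, 1) ^ q) := by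
    intro u₀ v₀ h0 g hg
    by_cases hb : ({u₀, v₀} : Finset V) = {b, c}
    · obtain ⟨h1, h2⟩ := hpair u₀ v₀ hb g hg
      rw [h1, h2]
    · set s : K := dt (fun x => p x ^ q) u₀ v₀ (lf u₀ v₀) *
        dt (fun x => p x ^ q) u₀ v₀ (lf v₀ u₀) with hs
      have hs0 : s ≠ 0 := by
        refine mul_ne_zero (hy _ _ _ (hl.tri u₀ v₀ h0)) (hy _ _ _ ?_)
        have h1 : ({v₀, u₀} : Finset V) ∈ edges T := by
          rw [Finset.pair_comm]
          exact h0
        have h2 := hl.tri v₀ u₀ h1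
        rw [dzp_swap] at h2
        exact h2
      obtain ⟨h, hh, hcc⟩ := hP {u₀, v₀} h0 hb (s • g) (dzp_smul_hom s hg)
      have hom : ∀ u v, (om (fun x => p x ^ q) h lf u v).IsHomogeneous (2 * m) := by
        intro u v
        unfold om
        exact dzp_smul_hom _ (dzp_cc_hom _ hh _ _ _ _)
      have ht := tele_edge hT hl (fun x => p x ^ q) hy h φ u₀ v₀ h0 (by
        intro u v huv hne0
        by_cases hb' : ({u, v} : Finset V) = {b, c}
        · obtain ⟨h1, h2⟩ := hpair u v hb' _ (hom u v)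
          rw [h1, h2]
        · refine hφ u v (hne u v huv) huv _ (hom u v) ?_
          have h1 := hcc u v huv hb'
          rw [if_neg hne0, sub_zero] at h1
          unfold om
          exact dzp_smul_mem _ h1)
      have h1 := hcc u₀ v₀ h0 hb
      rw [if_pos rfl] at h1
      have h2 : om (fun x => p x ^ q) h lf u₀ v₀ - g ∈ Ideal.span {dl p u₀, dl p v₀} ^ m := by
        have h3 : om (fun x => p x ^ q) h lf u₀ v₀ - g =
            s⁻¹ • (cc (fun x => p x ^ q) h u₀ v₀ (lf u₀ v₀) (lf v₀ u₀) - s • g) := by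
          rw [smul_sub, smul_smul, inv_mul_cancel₀ hs0, one_smul]
          rfl
        rw [h3]
        exact dzp_smul_mem _ h1
      have h4 := hφ u₀ v₀ (hne u₀ v₀ h0) h0 _ ((hom u₀ v₀).sub hg) h2
      rw [map_sub, map_sub, dzp_bev_sub, dzp_bev_sub] at h4
      have ht' : bev 1 (φ u₀ (om (fun x => p x ^ q) h lf u₀ v₀)) (p (v₀, 0) ^ q - p (u₀, 0) ^ q)
          (p (v₀, 1) ^ q - p (u₀, 1) ^ q) =
          bev 1 (φ v₀ (om (fun x => p x ^ q) h lf u₀ v₀)) (p (v₀, 0) ^ q - p (u₀, 0) ^ q)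
          (p (v₀, 1) ^ q - p (u₀, 1) ^ q) := ht
      linear_combination ht' - h4
  intro v g hg
  obtain ⟨hb0, hc0⟩ := hpair b c rfl g hg
  by_cases hv : v ∈ vs T
  · exact rigid hT (fun x => p x ^ q) hy (fun v => φ v g) (fun u v huv => key u v huv g hg) b c hbc
      hb0 hc0 v hv
  · exact hφ0 v (fun h => hv (Finset.mem_sdiff.1 h).1) g hg

end Pool.Agent.SplF
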