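import Pool.Agent.SplF.Main
import Pool.Agent.SplG.Final
import Pool.Agent.SplZ.Five

/-!
# SplF/Fin: the generic dimension of all discs for `δ = ⌊3 q / 2⌋`, `q` a prime power
-/

set_option autoImplicit false

namespace Pool.Agent.SplF

open Finset MvPolynomial Pool.Agent.Spl1 Pool.Agent.Spl2 Pool.Agent.SplZ

variable {V : Type} [Fintype V] [DecidableEq V]

/-- HA for prime powers -/
theorem ha_primepow {W : Type*} [Fintype W] [DecidableEq W] {q : ℕ} (hq : IsPrimePow q) :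
    SplG.HA W q (3 * q / 2) := by
  obtain ⟨ℓ, e, hℓ, he, rfl⟩ := hq
  have hℓ' : Fact ℓ.Prime := ⟨hℓ.nat_prime⟩
  have hpos : 0 < ℓ ^ e := pow_pos hℓ'.out.pos e
  obtain ⟨m, hm⟩ : ∃ m, 2 * m + 1 = ℓ ^ e ∨ 2 * m + 2 = ℓ ^ e := ⟨(ℓ ^ e - 1) / 2, by omega⟩
  have hδ : 3 * ℓ ^ e / 2 = 2 * ℓ ^ e - 1 - m := by omega
  have hk0 : 2 * (2 * ℓ ^ e - 1 - m) - 1 = 4 * ℓ ^ e - 3 - 2 * m := by omega
  rw [hδ]
  intro P hP hF h8 F hFP
  obtain ⟨K, i1, p, h⟩ := sol_HA ℓ e m hm hP hF h8 hFP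
  rw [hk0]
  exact SplG.gz_of_special p (fun v _ => by omega) (fun μ hμ v _ => h μ hμ v)

/-- HB for prime powers -/
theorem hb_primepow {W : Type*} [Fintype W] [DecidableEq W] {q : ℕ} (hq : IsPrimePow q) :
    SplG.HB W q (3 * q / 2) := by
  obtain ⟨ℓ, e, hℓ, he, rfl⟩ := hq
  have hℓ' : Fact ℓ.Prime := ⟨hℓ.nat_prime⟩
  have hpos : 0 < ℓ ^ e := pow_pos hℓ'.out.pos e
  obtain ⟨m, hm⟩ : ∃ m, 2 * m + 1 = ℓ ^ e ∨ 2 * m + 2 = ℓ ^ e := ⟨(ℓ ^ e - 1) / 2, by omega⟩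
  have hδ : 3 * ℓ ^ e / 2 = 2 * ℓ ^ e - 1 - m := by omega
  have hk0 : 2 * (2 * ℓ ^ e - 1 - m) - 1 = 4 * ℓ ^ e - 3 - 2 * m := by omega
  rw [hδ]
  intro P hP hF h8 x b c a _ _ _ hx ha
  obtain ⟨K, i1, p, h⟩ := sol_HB ℓ e m hm hP hF h8 hx ha
  rw [hk0]
  exact SplG.gz_of_special p (fun v _ => by omega) (fun μ hμ v _ => h μ hμ v)

theorem gen_primepow {T : Finset (Finset V)} (hT : Disc T) {p₀ : V × Fin 2 → ℝ}
    (hp₀ : IsTriang p₀ T) {q : ℕ} (hq : IsPrimePow q) (r k : ℕ) (hr : r + 1 ≤ 3 * q / 2)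
    (hk : r + 3 * q / 2 ≤ k) : GenSch r k T := by
  have h1 := hq.pos
  exact SplG.gen_sch hT hp₀ (q := q) (δ := 3 * q / 2) (by omega) (by omega) (by omega)
    (ha_primepow hq) (hb_primepow hq) r k hr hk

/-- all cases known -/
theorem gen_all {T : Finset (Finset V)} (hT : Disc T) {p₀ : V × Fin 2 → ℝ}
    (hp₀ : IsTriang p₀ T) {r k : ℕ} (h : (1 ≤ r ∧ 5 * r ≤ 2 * k + 1) ∨
      ∃ q, IsPrimePow q ∧ r + 1 ≤ 3 * q / 2 ∧ r + 3 * q / 2 ≤ k) : GenSch r k T := by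
  rcases h with ⟨h1, h2⟩ | ⟨q, hq, h1, h2⟩
  · exact gen_of_5r hT hp₀ h1 h2
  · exact gen_primepow hT hp₀ hq r k h1 h2

omit [Fintype V] in
theorem nb_card_aux {E : Finset (Finset V)} (hE : ∀ e ∈ E, e.card = 2) (v : V) (N : Finset V)
    (hN : ∀ u, u ∈ N ↔ u ≠ v ∧ ({v, u} : Finset V) ∈ E) :
    N.card = (E.filter fun e => v ∈ e).card := by
  refine Finset.card_bij (fun u _ => ({v, u} : Finset V)) ?_ ?_ ?_
  · intro u hu
    rw [mem_filter]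
    exact ⟨((hN u).1 hu).2, by simp⟩
  · intro u hu u' hu' h
    have h1 := ((hN u).1 hu).1
    have h2 : u ∈ ({v, u'} : Finset V) := by rw [← h]; simp
    rw [mem_insert, mem_singleton] at h2
    rcases h2 with h2 | h2
    · exact absurd h2 h1
    · exact h2
  · intro e he
    rw [mem_filter] at he
    obtain ⟨x, y, hxy, rfl⟩ := Finset.card_eq_two.1 (hE e he.1)
    have h1 := he.2
    rw [mem_insert, mem_singleton] at h1
    rcases h1 with rfl | rfl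
    · exact ⟨y, (hN y).2 ⟨hxy.symm, he.1⟩, rfl⟩
    · refine ⟨x, (hN x).2 ⟨hxy, ?_⟩, ?_⟩
      · rw [Finset.pair_comm]
        exact he.1
      · exact Finset.pair_comm _ _

theorem nb_card_edges (T : Finset (Finset V)) (v : V) :
    (nb (edges T) v).card = ((edges T).filter fun e => v ∈ e).card := by
  refine nb_card_aux (fun e he => ?_) v _ (fun u => ?_)
  · unfold edges at he
    exact (mem_filter.1 he).2.1
  · unfold nb
    rw [mem_filter]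
    exact ⟨fun h => h.2, fun h => ⟨mem_univ _, h⟩⟩

end Pool.Agent.SplF
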