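import Pool.Agent.SplF.Dz
import Pool.Agent.Spl2.BrGen

/-!
# SplF/Gen: generic positions for `DZ`, and the choice of the position

PAPER PROOFS.  `dz_generic`: integral matrix (`BrMat.inj_generic`, as in `BrGen.gb_of_one`).  Unknowns `x (v, s, j)`, `v : V`, `s` an exponent
(`Fin 3 →₀ ℕ`) of degree `2 m` (finite type `↥(Finset.finsuppAntidiag univ (2 m))`), `j : Fin 2`; `φ v g = fun j => ∑_s x (v, s, j) * coeff s g`.
Rows: (a) for `v ∉ I`: `x (v, s, j) = 0`; (b) for the ordered pairs `u ≠ v`, `{u, v} ∈ E`, `i : Fin (m + 1)` and exponents `t` of degree `m`: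
`bev 1 (φ u G) D - bev 1 (φ v G) D` for `G = dl X u ^ i * dl X v ^ (m - i) * monomial t 1`, `D = X_v ^ q - X_u ^ q`; the
coefficients of `G` and `D` are integral polynomials in the positions and commute with specialisation (`MvPolynomial.map`).
At `p₀` the system has only the zero solution: a solution `x` gives linear maps `φ v` which satisfy the hypotheses of `DZ`, because
a form `g ∈ (L_u, L_v)^m` of degree `2 m` is a linear combination of such `G` (`hom_pow` with `l = m`, it needs `p₀ (u, 1) ≠ p₀ (v, 1)`), so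
`φ v = 0` on forms of degree `2 m`, in particular on monomials: `x = 0`.  `inj_generic` gives `Q`.  If `eval p Q ≠ 0` and `φ` is as in `DZ` for `p`, then
`x (v, s, j) = φ v (monomial s 1) j` solves the system at `p` (every `G` is a form of degree `2 m` in `(L_u, L_v)^m`), so `x = 0` and `φ v g = 0`.
`exists_pos`: the product of the polynomials `Q₁` of `dz_generic`, `expand q Q₂` (`GB 2`; `eval p (expand q Q) = eval (p ^ q) Q`,
`expand` is injective for `q > 0`), and of all `X (u, 1) - X (v, 1)`, `u ≠ v`, is not `0` and `K` is infinite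
(`MvPolynomial.funext`), as in `BrGen.exists_good`.
-/

set_option autoImplicit false

namespace Pool.Agent.SplF

open MvPolynomial Pool.Agent.Spl2

variable {V : Type*} [Fintype V] [DecidableEq V] {K : Type*} [Field K]

/-! ### the exponents of a given degree -/

/-- the exponents of degree `n` -/
private abbrev Sx (n : ℕ) : Type := ↥(Finset.finsuppAntidiag (Finset.univ : Finset (Fin 3)) n)

private theorem mem_sx {n : ℕ} {s : Fin 3 →₀ ℕ} :
    s ∈ Finset.finsuppAntidiag (Finset.univ : Finset (Fin 3)) n ↔ s 0 + s 1 + s 2 = n := by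
  rw [Finset.mem_finsuppAntidiag, Fin.sum_univ_three]
  constructor
  · intro h
    exact h.1
  · intro h
    exact ⟨h, Finset.subset_univ _⟩

private theorem sum_of_hom {n : ℕ} {g : MvPolynomial (Fin 3) K} (hg : g.IsHomogeneous n)
    {s : Fin 3 →₀ ℕ} (hs : coeff s g ≠ 0) : s 0 + s 1 + s 2 = n := by
  have h := hg hs
  rw [Finsupp.weight_apply, Finsupp.sum_fintype _ _ (fun i => by simp), Fin.sum_univ_three] at h
  simpa using h

private theorem mon_hom {n : ℕ} (s : Sx n) :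
    (monomial (s : Fin 3 →₀ ℕ) (1 : K)).IsHomogeneous n := by
  refine isHomogeneous_monomial _ ?_
  have h := mem_sx.1 s.2
  rw [Finsupp.degree_eq_sum, Fin.sum_univ_three]
  exact h

private theorem hom_sum {n : ℕ} {g : MvPolynomial (Fin 3) K} (hg : g.IsHomogeneous n) :
    g = ∑ s : Sx n, coeff (s : Fin 3 →₀ ℕ) g • monomial (s : Fin 3 →₀ ℕ) (1 : K) := by
  have h1 : ∑ s : Sx n, coeff (s : Fin 3 →₀ ℕ) g • monomial (s : Fin 3 →₀ ℕ) (1 : K) =
      ∑ s ∈ Finset.finsuppAntidiag (Finset.univ : Finset (Fin 3)) n,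
        coeff s g • monomial s (1 : K) :=
    Finset.sum_coe_sort (Finset.finsuppAntidiag (Finset.univ : Finset (Fin 3)) n)
      (fun s => coeff s g • monomial s (1 : K))
  rw [h1]
  have h2 : g.support ⊆ Finset.finsuppAntidiag (Finset.univ : Finset (Fin 3)) n := by
    intro s hs
    exact mem_sx.2 (sum_of_hom hg (mem_support_iff.1 hs))
  rw [← Finset.sum_subset h2]
  · conv_lhs => rw [← support_sum_monomial_coeff g]
    refine Finset.sum_congr rfl fun s _ => ?_
    rw [smul_monomial, smul_eq_mul, mul_one]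
  · intro s _ hs
    rw [notMem_support_iff.1 hs, zero_smul]

private theorem lin_hom {n : ℕ} (φ : MvPolynomial (Fin 3) K →ₗ[K] (Fin (1 + 1) → K))
    {g : MvPolynomial (Fin 3) K} (hg : g.IsHomogeneous n) :
    φ g = fun j => ∑ s : Sx n, φ (monomial (s : Fin 3 →₀ ℕ) 1) j * coeff (s : Fin 3 →₀ ℕ) g := by
  conv_lhs => rw [hom_sum hg]
  rw [map_sum]
  funext j
  rw [Finset.sum_apply]
  refine Finset.sum_congr rfl fun s _ => ?_
  rw [map_smul, Pi.smul_apply, smul_eq_mul, mul_comm]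

/-! ### the matrix of the system -/

/-- the matrix of a system with several equations for every ordered pair -/
private noncomputable def gm2 {ρ κ : Type*} [DecidableEq κ] (E : Finset (Finset V)) (I : Finset V)
    (B : V → V → ρ → V × κ → MvPolynomial (V × Fin 2) ℤ) :
    Matrix (((V × V) × ρ) ⊕ (V × κ)) (V × κ) (MvPolynomial (V × Fin 2) ℤ) :=
  fun r c => Sum.elim
    (fun r : (V × V) × ρ =>
      if r.1.1 ≠ r.1.2 ∧ ({r.1.1, r.1.2} : Finset V) ∈ E then B r.1.1 r.1.2 r.2 c else 0)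
    (fun d : V × κ => if d.1 ∉ I ∧ d = c then 1 else 0) r

private theorem gm2_mulVec {ρ κ : Type*} [DecidableEq κ] [Fintype κ]
    (E : Finset (Finset V)) (I : Finset V) (B : V → V → ρ → V × κ → MvPolynomial (V × Fin 2) ℤ)
    {S : Type*} [CommRing S] (p : V × Fin 2 → S) (x : V × κ → S) :
    ((gm2 E I B).map fun P => eval₂ (Int.castRingHom S) p P).mulVec x = 0 ↔
      (∀ d : V × κ, d.1 ∉ I → x d = 0) ∧
        ∀ u v, u ≠ v → ({u, v} : Finset V) ∈ E → ∀ r : ρ,
          ∑ c, eval₂ (Int.castRingHom S) p (B u v r c) * x c = 0 := by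
  constructor
  · intro h
    refine ⟨fun d hd => ?_, fun u v huv he r => ?_⟩
    · have h1 := congrFun h (Sum.inr d)
      simp only [Matrix.mulVec, dotProduct, Matrix.map_apply, gm2, Sum.elim_inr, hd,
        not_false_eq_true, true_and, Pi.zero_apply] at h1
      rw [← h1, Finset.sum_eq_single d]
      · simp
      · intro c _ hc
        simp [Ne.symm hc]
      · intro hc
        exact absurd (Finset.mem_univ _) hc
    · have h1 := congrFun h (Sum.inl ((u, v), r))
      simp only [Matrix.mulVec, dotProduct, Matrix.map_apply, gm2, Sum.elim_inl,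
        Pi.zero_apply] at h1
      rw [← h1]
      refine Finset.sum_congr rfl fun c _ => ?_
      rw [if_pos ⟨huv, he⟩]
  · rintro ⟨h1, h2⟩
    funext r
    rcases r with ⟨⟨u, v⟩, r⟩ | d
    · simp only [Matrix.mulVec, dotProduct, Matrix.map_apply, gm2, Sum.elim_inl,
        Pi.zero_apply]
      by_cases h : u ≠ v ∧ ({u, v} : Finset V) ∈ E
      · rw [← h2 u v h.1 h.2 r]
        refine Finset.sum_congr rfl fun c _ => ?_
        rw [if_pos h]
      · refine Finset.sum_eq_zero fun c _ => ?_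
        rw [if_neg h, eval₂_zero, zero_mul]
    · simp only [Matrix.mulVec, dotProduct, Matrix.map_apply, gm2, Sum.elim_inr,
        Pi.zero_apply]
      refine Finset.sum_eq_zero fun c _ => ?_
      by_cases h : d.1 ∉ I ∧ d = c
      · rw [← h.2, h1 d h.1, mul_zero]
      · rw [if_neg h, eval₂_zero, zero_mul]

/-- the generators of the forms in the `m`-th power of the ideal of the node -/
private noncomputable def gG {R : Type*} [CommRing R] (m : ℕ) (p : V × Fin 2 → R) (u v : V) (i : ℕ)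
    (t : Fin 3 →₀ ℕ) : MvPolynomial (Fin 3) R :=
  dl p u ^ i * dl p v ^ (m - i) * monomial t 1

private theorem gG_coeff {S : Type*} [CommRing S] (m : ℕ) (p : V × Fin 2 → S) (u v : V) (i : ℕ)
    (t s : Fin 3 →₀ ℕ) :
    eval₂ (Int.castRingHom S) p
        (coeff s (gG m (fun x => (X x : MvPolynomial (V × Fin 2) ℤ)) u v i t)) =
      coeff s (gG m p u v i t) := by
  have h1 : ∀ w : V, MvPolynomial.map (eval₂Hom (Int.castRingHom S) p)
      (dl (fun x => (X x : MvPolynomial (V × Fin 2) ℤ)) w) = dl p w := by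
    intro w
    unfold dl
    simp only [map_add, map_mul, map_C, map_X, coe_eval₂Hom, eval₂_X]
  have h2 : MvPolynomial.map (eval₂Hom (Int.castRingHom S) p)
      (gG m (fun x => (X x : MvPolynomial (V × Fin 2) ℤ)) u v i t) = gG m p u v i t := by
    unfold gG
    rw [map_mul, map_mul, map_pow, map_pow, h1, h1, map_monomial, map_one]
  rw [← h2, coeff_map]
  rfl

/-- the rows of the system -/
private noncomputable def dzB (m q : ℕ) (u v : V) (r : Fin (m + 1) × Sx m)
    (c : V × (Sx (2 * m) × Fin (1 + 1))) : MvPolynomial (V × Fin 2) ℤ :=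
  ((if c.1 = u then 1 else 0) - (if c.1 = v then 1 else 0)) *
    (coeff (c.2.1 : Fin 3 →₀ ℕ)
        (gG m (fun x => (X x : MvPolynomial (V × Fin 2) ℤ)) u v r.1 (r.2 : Fin 3 →₀ ℕ)) *
      ((X (v, 0) ^ q - X (u, 0) ^ q) ^ (c.2.2 : ℕ) *
        (X (v, 1) ^ q - X (u, 1) ^ q) ^ (1 - (c.2.2 : ℕ))))

private theorem dzB_sum (m q : ℕ) {S : Type*} [CommRing S] (p : V × Fin 2 → S) (u v : V)
    (r : Fin (m + 1) × Sx m) (x : V × (Sx (2 * m) × Fin (1 + 1)) → S) :
    ∑ c, eval₂ (Int.castRingHom S) p (dzB m q u v r c) * x c =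
      bev 1 (fun j => ∑ s : Sx (2 * m), x (u, (s, j)) *
          coeff (s : Fin 3 →₀ ℕ) (gG m p u v r.1 (r.2 : Fin 3 →₀ ℕ)))
        (p (v, 0) ^ q - p (u, 0) ^ q) (p (v, 1) ^ q - p (u, 1) ^ q) -
      bev 1 (fun j => ∑ s : Sx (2 * m), x (v, (s, j)) *
          coeff (s : Fin 3 →₀ ℕ) (gG m p u v r.1 (r.2 : Fin 3 →₀ ℕ)))
        (p (v, 0) ^ q - p (u, 0) ^ q) (p (v, 1) ^ q - p (u, 1) ^ q) := by
  set G := gG m p u v r.1 (r.2 : Fin 3 →₀ ℕ) with hG
  set D0 := p (v, 0) ^ q - p (u, 0) ^ q with hD0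
  set D1 := p (v, 1) ^ q - p (u, 1) ^ q with hD1
  have e : ∀ c : V × (Sx (2 * m) × Fin (1 + 1)),
      eval₂ (Int.castRingHom S) p (dzB m q u v r c) * x c =
      (if c.1 = u then x c * (coeff (c.2.1 : Fin 3 →₀ ℕ) G * (D0 ^ (c.2.2 : ℕ) *
        D1 ^ (1 - (c.2.2 : ℕ)))) else 0) -
      (if c.1 = v then x c * (coeff (c.2.1 : Fin 3 →₀ ℕ) G * (D0 ^ (c.2.2 : ℕ) *
        D1 ^ (1 - (c.2.2 : ℕ)))) else 0) := by
    intro c
    unfold dzB
    rw [eval₂_mul, eval₂_mul, gG_coeff, ← hG]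
    simp only [eval₂_mul, eval₂_sub, eval₂_pow, eval₂_X]
    rw [← hD0, ← hD1]
    split_ifs <;> simp <;> ring
  have b : ∀ w : V, ∑ y : V, ∑ z : Sx (2 * m) × Fin (1 + 1),
      (if y = w then x (y, z) * (coeff (z.1 : Fin 3 →₀ ℕ) G * (D0 ^ (z.2 : ℕ) *
        D1 ^ (1 - (z.2 : ℕ)))) else 0) =
      bev 1 (fun j => ∑ s : Sx (2 * m), x (w, (s, j)) * coeff (s : Fin 3 →₀ ℕ) G) D0 D1 := by
    intro w
    rw [Finset.sum_eq_single w]
    · unfold bev
      rw [Fintype.sum_prod_type_right]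
      refine Finset.sum_congr rfl fun j _ => ?_
      rw [Finset.sum_mul]
      refine Finset.sum_congr rfl fun s _ => ?_
      rw [if_pos rfl]
      ring
    · intro y _ hy
      refine Finset.sum_eq_zero fun z _ => ?_
      rw [if_neg hy]
    · intro h
      exact absurd (Finset.mem_univ _) h
  rw [Finset.sum_congr rfl fun c _ => e c, Finset.sum_sub_distrib, Fintype.sum_prod_type,
    Fintype.sum_prod_type]
  exact congrArg₂ (fun a b => a - b) (b u) (b v)

/-- the linear maps given by a solution -/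
private noncomputable def phi {m : ℕ} (x : V × (Sx (2 * m) × Fin (1 + 1)) → K) (v : V) :
    MvPolynomial (Fin 3) K →ₗ[K] (Fin (1 + 1) → K) :=
  LinearMap.pi fun j => ∑ s : Sx (2 * m), x (v, (s, j)) • lcoeff K (s : Fin 3 →₀ ℕ)

private theorem phi_apply {m : ℕ} (x : V × (Sx (2 * m) × Fin (1 + 1)) → K) (v : V)
    (g : MvPolynomial (Fin 3) K) :
    phi x v g = fun j => ∑ s : Sx (2 * m), x (v, (s, j)) * coeff (s : Fin 3 →₀ ℕ) g := by
  funext j
  unfold phi
  rw [LinearMap.pi_apply, LinearMap.sum_apply]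
  refine Finset.sum_congr rfl fun s _ => ?_
  rw [LinearMap.smul_apply, smul_eq_mul, lcoeff_apply]

private theorem phi_mon {m : ℕ} (x : V × (Sx (2 * m) × Fin (1 + 1)) → K) (v : V)
    (s : Sx (2 * m)) (j : Fin (1 + 1)) :
    phi x v (monomial (s : Fin 3 →₀ ℕ) 1) j = x (v, (s, j)) := by
  rw [phi_apply]
  show ∑ s' : Sx (2 * m), x (v, (s', j)) *
    coeff (s' : Fin 3 →₀ ℕ) (monomial (s : Fin 3 →₀ ℕ) (1 : K)) = _
  rw [Finset.sum_eq_single s]
  · rw [coeff_monomial, if_pos rfl, mul_one]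
  · intro s' _ hs'
    rw [coeff_monomial, if_neg, mul_zero]
    intro h
    exact hs' (Subtype.ext h.symm)
  · intro h
    exact absurd (Finset.mem_univ _) h

private theorem bev_add (q r : Fin (1 + 1) → K) (a b : K) :
    bev 1 (q + r) a b = bev 1 q a b + bev 1 r a b := by
  unfold bev
  rw [← Finset.sum_add_distrib]
  refine Finset.sum_congr rfl fun j _ => ?_
  rw [Pi.add_apply, add_mul]

private theorem bev_smul (c : K) (q : Fin (1 + 1) → K) (a b : K) :
    bev 1 (c • q) a b = c * bev 1 q a b := by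
  unfold bev
  rw [Finset.mul_sum]
  refine Finset.sum_congr rfl fun j _ => ?_
  rw [Pi.smul_apply, smul_eq_mul, mul_assoc]

private theorem dl_hom (p : V × Fin 2 → K) (v : V) : (dl p v).IsHomogeneous 1 := by
  unfold dl
  refine ((?_ : IsHomogeneous _ 1).add ?_).add (isHomogeneous_X _ _)
  · have h := (isHomogeneous_C (Fin 3) (p (v, 0))).mul (isHomogeneous_X K (0 : Fin 3))
    rwa [zero_add] at h
  · have h := (isHomogeneous_C (Fin 3) (p (v, 1))).mul (isHomogeneous_X K (1 : Fin 3))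
    rwa [zero_add] at h

private theorem gG_hom (m : ℕ) (p : V × Fin 2 → K) (u v : V) (r : Fin (m + 1) × Sx m) :
    (gG m p u v r.1 (r.2 : Fin 3 →₀ ℕ)).IsHomogeneous (2 * m) := by
  unfold gG
  have h := (((dl_hom p u).pow (r.1 : ℕ)).mul ((dl_hom p v).pow (m - (r.1 : ℕ)))).mul
    (mon_hom (K := K) r.2)
  have h2 : 1 * (r.1 : ℕ) + 1 * (m - (r.1 : ℕ)) + m = 2 * m := by
    have := r.1.2
    omega
  rwa [h2] at h

private theorem gG_mem (m : ℕ) (p : V × Fin 2 → K) (u v : V) (r : Fin (m + 1) × Sx m) :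
    gG m p u v r.1 (r.2 : Fin 3 →₀ ℕ) ∈ Ideal.span {dl p u, dl p v} ^ m := by
  unfold gG
  refine Ideal.mul_mem_right _ _ ?_
  have h1 : dl p u ∈ Ideal.span {dl p u, dl p v} := Ideal.subset_span (by simp)
  have h2 : dl p v ∈ Ideal.span {dl p u, dl p v} := Ideal.subset_span (by simp)
  have h3 := Ideal.mul_mem_mul (Ideal.pow_mem_pow h1 (r.1 : ℕ))
    (Ideal.pow_mem_pow h2 (m - (r.1 : ℕ)))
  rw [← pow_add] at h3
  have h4 : (r.1 : ℕ) + (m - (r.1 : ℕ)) = m := by
    have := r.1.2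
    omega
  rwa [h4] at h3

private theorem dz_to (m q : ℕ) (E : Finset (Finset V)) (I : Finset V) (p : V × Fin 2 → K)
    (hΔ : ∀ u v, u ≠ v → ({u, v} : Finset V) ∈ E → p (u, 1) ≠ p (v, 1))
    (h : DZ m q p E I) (x : V × (Sx (2 * m) × Fin (1 + 1)) → K)
    (hx : ((gm2 E I (dzB m q)).map fun P => eval₂ (Int.castRingHom K) p P).mulVec x = 0) :
    x = 0 := by
  rw [gm2_mulVec] at hx
  obtain ⟨hx1, hx2⟩ := hx
  have h1 := h (phi x) ?_ ?_
  · funext c
    rcases c with ⟨v, s, j⟩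
    have h2 := congrFun (h1 v (monomial (s : Fin 3 →₀ ℕ) 1) (mon_hom s)) j
    rw [phi_mon] at h2
    exact h2
  · intro v hv g _
    rw [phi_apply]
    funext j
    refine Finset.sum_eq_zero fun s _ => ?_
    rw [hx1 (v, (s, j)) hv, zero_mul]
  · intro u v huv he g hg hgI
    have hg' : g.IsHomogeneous (m + m) := by
      have : m + m = 2 * m := by ring
      rwa [this]
    have hsp := hom_pow p u v (hΔ u v huv he) m m g hg' hgI
    clear hg hg' hgI
    induction hsp using Submodule.span_induction with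
    | mem f hf =>
      obtain ⟨i, s, hi, hs, rfl⟩ := hf
      have h3 := hx2 u v huv he (⟨i, by omega⟩, ⟨s, mem_sx.2 hs⟩)
      rw [dzB_sum, sub_eq_zero] at h3
      rw [phi_apply, phi_apply]
      exact h3
    | zero => rw [map_zero, map_zero]
    | add a b _ _ ha hb =>
      rw [map_add, map_add, bev_add, bev_add, ha, hb]
    | smul c a _ ha =>
      rw [map_smul, map_smul, bev_smul, bev_smul, ha]

private theorem dz_of (m q : ℕ) (E : Finset (Finset V)) (I : Finset V) (p : V × Fin 2 → K)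
    (h : ∀ x : V × (Sx (2 * m) × Fin (1 + 1)) → K,
      ((gm2 E I (dzB m q)).map fun P => eval₂ (Int.castRingHom K) p P).mulVec x = 0 → x = 0) :
    DZ m q p E I := by
  intro φ h1 h2
  have h3 := h (fun c => φ c.1 (monomial (c.2.1 : Fin 3 →₀ ℕ) 1) c.2.2) ?_
  · intro v g hg
    rw [lin_hom (φ v) hg]
    funext j
    refine Finset.sum_eq_zero fun s _ => ?_
    have h4 := congrFun h3 (v, (s, j))
    have h5 : φ v (monomial (s : Fin 3 →₀ ℕ) 1) j = 0 := h4
    rw [h5, zero_mul]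
  · rw [gm2_mulVec]
    refine ⟨?_, ?_⟩
    · rintro ⟨v, s, j⟩ hv
      exact congrFun (h1 v hv _ (mon_hom s)) j
    · intro u v huv he r
      rw [dzB_sum, sub_eq_zero]
      have h4 := h2 u v huv he _ (gG_hom m p u v r) (gG_mem m p u v r)
      rw [lin_hom (φ u) (gG_hom m p u v r), lin_hom (φ v) (gG_hom m p u v r)] at h4
      exact h4

theorem dz_generic (m q : ℕ) (E : Finset (Finset V)) (I : Finset V) (p₀ : V × Fin 2 → K)
    (hΔ : ∀ u v, u ≠ v → ({u, v} : Finset V) ∈ E → p₀ (u, 1) ≠ p₀ (v, 1))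
    (h : DZ m q p₀ E I) :
    ∃ Q : MvPolynomial (V × Fin 2) K, Q ≠ 0 ∧ ∀ p : V × Fin 2 → K, eval p Q ≠ 0 → DZ m q p E I := by
  haveI : DecidableEq (((V × V) × (Fin (m + 1) × Sx m)) ⊕ (V × (Sx (2 * m) × Fin (1 + 1)))) :=
    Classical.decEq _
  obtain ⟨Q, hQ, hQ'⟩ := inj_generic (K := K) (gm2 E I (dzB m q)) p₀ (dz_to m q E I p₀ hΔ h)
  exact ⟨Q, hQ, fun p hp => dz_of m q E I p (hQ' p hp)⟩

theorem exists_pos [Infinite K] (m q : ℕ) (hq : 0 < q) (E E' : Finset (Finset V)) (I I' : Finset V)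
    (p₀ : V × Fin 2 → K) (hΔ : ∀ u v, u ≠ v → ({u, v} : Finset V) ∈ E → p₀ (u, 1) ≠ p₀ (v, 1))
    (h : DZ m q p₀ E I) (hG : GB 2 K E' I') :
    ∃ p : V × Fin 2 → K, DZ m q p E I ∧ BZ 2 (fun x => p x ^ q) E' I' ∧
      ∀ u v, u ≠ v → p (u, 1) ≠ p (v, 1) := by
  obtain ⟨Q₁, hQ₁, h₁⟩ := dz_generic m q E I p₀ hΔ h
  obtain ⟨Q₂, hQ₂, h₂⟩ := hG
  obtain ⟨P, hP⟩ : ∃ P : MvPolynomial (V × Fin 2) K, P = ∏ e : V × V,
      if e.1 ≠ e.2 then X (e.1, 1) - X (e.2, 1) else 1 := ⟨_, rfl⟩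
  have hP0 : P ≠ 0 := by
    rw [hP, Finset.prod_ne_zero_iff]
    rintro ⟨u, v⟩ _
    by_cases h : u ≠ v
    · rw [if_pos h, sub_ne_zero]
      intro he
      have := X_injective (R := K) he
      simp only [Prod.mk.injEq, and_true] at this
      exact h this
    · rw [if_neg h]
      exact one_ne_zero
  have hne : Q₁ * expand q Q₂ * P ≠ 0 :=
    mul_ne_zero (mul_ne_zero hQ₁ ((expand_ne_zero hq).2 hQ₂)) hP0
  obtain ⟨p, hp⟩ : ∃ p : V × Fin 2 → K, eval p (Q₁ * expand q Q₂ * P) ≠ 0 := by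
    by_contra hcon
    push Not at hcon
    exact hne (MvPolynomial.funext fun x => by rw [hcon x, map_zero])
  rw [map_mul, map_mul, mul_ne_zero_iff, mul_ne_zero_iff, eval_expand] at hp
  refine ⟨p, h₁ p hp.1.1, h₂ _ hp.1.2, fun u v huv he => hp.2 ?_⟩
  rw [hP, map_prod]
  refine Finset.prod_eq_zero (Finset.mem_univ (u, v)) ?_
  rw [if_pos huv, map_sub, eval_X, eval_X, he, sub_self]

end Pool.Agent.SplF
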