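import Pool.Agent.SplF.Dz
import Pool.Agent.Spl2.BrGlu

/-!
# SplF/Gl: a pinned vertex may be replaced by a vertex with three edges to pinned vertices

PAPER PROOF of `gb_three`: `GB 2 K E (I.erase x)` gives `Q`; take `Q` times the three determinants of the directions `b - x`, `c - x`,
`a - x` (nonzero polynomials, as `dpol` in `BrGlu`).  A solution `q` for `(E, I)` has `q b = q c = q a = 0` (not in `I`), so `q x` vanishes at the three
pairwise independent directions `p_b - p_x`, `p_c - p_x`, `p_a - p_x` and the binary quadratic form `q x` is `0`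
(as `gq_zero` in `BrGlu`: the private lemmas may be copied).  So `q` is a solution for `I.erase x`, and `q = 0`.
`dz_mono`: more edges and fewer free vertices: the hypotheses of `DZ` for `(E', I')` imply those for `(E, I)`.
-/

set_option autoImplicit false

namespace Pool.Agent.SplF

open MvPolynomial Pool.Agent.Spl2

variable {V : Type*} [Fintype V] [DecidableEq V] {K : Type*} [Field K]

private theorem gl_bev2_eq {R : Type*} [CommRing R] (q : Fin 3 → R) (a b : R) :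
    bev 2 q a b = q 0 * b ^ 2 + q 1 * (a * b) + q 2 * a ^ 2 := by
  have h : bev 2 q a b = ∑ j : Fin 3, q j * (a ^ (j : ℕ) * b ^ (2 - (j : ℕ))) := rfl
  rw [h, Fin.sum_univ_three]
  simp

private theorem gl_gq_zero (d : Fin 3 → K) {a0 a1 b0 b1 c0 c1 : K} (ha : bev 2 d a0 a1 = 0)
    (hb : bev 2 d b0 b1 = 0) (hc : bev 2 d c0 c1 = 0) (hab : a0 * b1 - a1 * b0 ≠ 0)
    (hac : a0 * c1 - a1 * c0 ≠ 0) (hbc : b0 * c1 - b1 * c0 ≠ 0) : d = 0 := by
  rw [gl_bev2_eq] at ha hb hc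
  have hne : (a0 * b1 - a1 * b0) * (a0 * c1 - a1 * c0) * (b0 * c1 - b1 * c0) ≠ 0 :=
    mul_ne_zero (mul_ne_zero hab hac) hbc
  have e0 : d 0 * ((a0 * b1 - a1 * b0) * (a0 * c1 - a1 * c0) * (b0 * c1 - b1 * c0)) = 0 := by
    linear_combination (b0 * c0 * (b0 * c1 - b1 * c0)) * ha - (a0 * c0 * (a0 * c1 - a1 * c0)) * hb
      + (a0 * b0 * (a0 * b1 - a1 * b0)) * hc
  have e1 : d 1 * ((a0 * b1 - a1 * b0) * (a0 * c1 - a1 * c0) * (b0 * c1 - b1 * c0)) = 0 := by
    linear_combination -(b0 ^ 2 * c1 ^ 2 - b1 ^ 2 * c0 ^ 2) * ha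
      + (a0 ^ 2 * c1 ^ 2 - a1 ^ 2 * c0 ^ 2) * hb - (a0 ^ 2 * b1 ^ 2 - a1 ^ 2 * b0 ^ 2) * hc
  have e2 : d 2 * ((a0 * b1 - a1 * b0) * (a0 * c1 - a1 * c0) * (b0 * c1 - b1 * c0)) = 0 := by
    linear_combination (b1 * c1 * (b0 * c1 - b1 * c0)) * ha - (a1 * c1 * (a0 * c1 - a1 * c0)) * hb
      + (a1 * b1 * (a0 * b1 - a1 * b0)) * hc
  funext j
  fin_cases j
  · exact (mul_eq_zero.1 e0).resolve_right hne
  · exact (mul_eq_zero.1 e1).resolve_right hne
  · exact (mul_eq_zero.1 e2).resolve_right hne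

/-- the determinant of two edge vectors -/
private noncomputable def gl_dpol (K : Type*) [Field K] (o a b : V) : MvPolynomial (V × Fin 2) K :=
  (X (a, 0) - X (o, 0)) * (X (b, 1) - X (o, 1)) - (X (a, 1) - X (o, 1)) * (X (b, 0) - X (o, 0))

omit [Fintype V] [DecidableEq V] in
private theorem gl_dpol_eval (o a b : V) (p : V × Fin 2 → K) : eval p (gl_dpol K o a b) =
    (p (a, 0) - p (o, 0)) * (p (b, 1) - p (o, 1)) -
      (p (a, 1) - p (o, 1)) * (p (b, 0) - p (o, 0)) := by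
  unfold gl_dpol
  simp

omit [Fintype V] in
private theorem gl_dpol_ne {o a b : V} (hoa : o ≠ a) (hob : o ≠ b) (hab : a ≠ b) :
    gl_dpol K o a b ≠ 0 := by
  intro h
  have h1 := gl_dpol_eval (K := K) o a b
    (fun d => if d = (a, 0) then 1 else if d = (b, 1) then 1 else 0)
  rw [h, map_zero] at h1
  simp [hoa, hob, hab, Ne.symm hab] at h1

private theorem gl_bev2_zero {R : Type*} [CommRing R] (a b : R) : bev 2 (0 : Fin 3 → R) a b = 0 := by
  simp [bev]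

theorem gb_three (E : Finset (Finset V)) (I : Finset V) (x a b c : V)
    (hxa : x ≠ a) (hxb : x ≠ b) (hxc : x ≠ c) (hab : a ≠ b) (hac : a ≠ c) (hbc : b ≠ c)
    (ha : a ∉ I) (hb : b ∉ I) (hc : c ∉ I) (h1 : ({x, a} : Finset V) ∈ E)
    (h2 : ({x, b} : Finset V) ∈ E) (h3 : ({x, c} : Finset V) ∈ E) (h : GB 2 K E (I.erase x)) :
    GB 2 K E I := by
  obtain ⟨Q, hQ, hQ'⟩ := h
  refine ⟨Q * (gl_dpol K x a b * gl_dpol K x a c * gl_dpol K x b c), mul_ne_zero hQ
    (mul_ne_zero (mul_ne_zero (gl_dpol_ne hxa hxb hab) (gl_dpol_ne hxa hxc hac))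
      (gl_dpol_ne hxb hxc hbc)), fun p hp => ?_⟩
  rw [map_mul, map_mul, map_mul, mul_ne_zero_iff, mul_ne_zero_iff, mul_ne_zero_iff, gl_dpol_eval,
    gl_dpol_eval, gl_dpol_eval] at hp
  obtain ⟨hpQ, ⟨d1, d2⟩, d3⟩ := hp
  intro q hq0 hq
  have e : ∀ w, x ≠ w → w ∉ I → ({x, w} : Finset V) ∈ E →
      bev 2 (q x) (p (w, 0) - p (x, 0)) (p (w, 1) - p (x, 1)) = 0 := by
    intro w hwx hw he
    rw [hq x w hwx he, hq0 w hw]
    exact gl_bev2_zero _ _
  have hx0 : q x = 0 := gl_gq_zero (q x) (e a hxa ha h1) (e b hxb hb h2) (e c hxc hc h3) d1 d2 d3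
  refine hQ' p hpQ q ?_ hq
  intro w hw
  by_cases hwx : w = x
  · rw [hwx, hx0]
  · exact hq0 w (fun hwI => hw (Finset.mem_erase.2 ⟨hwx, hwI⟩))

theorem dz_mono {m q : ℕ} {p : V × Fin 2 → K} {E E' : Finset (Finset V)} {I I' : Finset V}
    (hE : ∀ u v, u ≠ v → ({u, v} : Finset V) ∈ E → ({u, v} : Finset V) ∈ E') (hI : I' ⊆ I)
    (h : DZ m q p E I) : DZ m q p E' I' := by
  intro φ h0 h1
  exact h φ (fun v hv g hg => h0 v (fun hv' => hv (hI hv')) g hg)
    (fun u v huv he g hg hg' => h1 u v huv (hE u v huv he) g hg hg')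

end Pool.Agent.SplF
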