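import Pool.Agent.SplF.Ps
import Pool.Agent.SplF.Gen
import Pool.Agent.SplF.Gl
import Pool.Agent.Spl2.SphGlu

/-!
# SplF/Main: the truncated system in characteristic `p₀` (hypotheses HA and HB of the general theorem)

`q = p₀ ^ e`, `2 m + 1 = q` or `2 m + 2 = q`, `k = 4 q - 3 - 2 m`, `δ = 2 q - 1 - m`.

PAPER PROOF.  `K = RatFunc (ZMod p₀)` (infinite, characteristic `p₀`; as in `SphGlu`), `x ↦ x ^ q` is injective.
`dz_sphere`: `exists_left` (an orientation), `exists_ps`, `dz_of_ps`.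
HA: `E = edges P`, `I = vs P \ F₀`: `DZ` for `vs P \ {b, c}` gives `DZ` for `I` (`dz_mono`), `gb_sphere_inf`, `exists_pos`, `sol_of_dz`.
HB: `E = insert {a, x} (edges P)`, `I = vs P \ {b, c}`; `DZ` by `dz_mono`; `GB 2`: `gb_three` (`x` has the edges to `a`, `b`, `c`), for
`I.erase x = vs P \ F₀` by `gb_sphere_inf` and more edges (`gb_mono` in `GluR`).
-/

set_option autoImplicit false

namespace Pool.Agent.SplF

open Finset MvPolynomial Pool.Agent.Spl1 Pool.Agent.Spl2 Pool.Agent.Spl3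

variable {V : Type*} [Fintype V] [DecidableEq V]

theorem dz_sphere (K : Type*) [Field K] [Infinite K] (p₀ e m : ℕ) [Fact p₀.Prime] [CharP K p₀]
    (hm : 2 * m + 1 = p₀ ^ e ∨ 2 * m + 2 = p₀ ^ e) {P : Finset (Finset V)} (hP : Sph P)
    (hF : Fac3 P) (h8 : 8 ≤ P.card) {F₀ : Finset V} (hF₀ : F₀ ∈ P) {b c : V} (hb : b ∈ F₀)
    (hc : c ∈ F₀) (hbc : b ≠ c) :
    ∃ p : V × Fin 2 → K,
      (∀ u v, u ≠ v → ({u, v} : Finset V) ∈ edges P → p (u, 1) ≠ p (v, 1)) ∧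
      DZ m (p₀ ^ e) p (edges P) (vs P \ {b, c}) := by
  obtain ⟨lf, hl⟩ := exists_left hP
  have hinj : Function.Injective fun x : K => x ^ (p₀ ^ e) := by
    have : ExpChar K p₀ := ExpChar.prime Fact.out
    exact iterateFrobenius_inj K p₀ e
  obtain ⟨p, h1, h2, h3⟩ := exists_ps (K := K) m (p₀ ^ e) (by omega) (by omega) hinj hP hF h8 hF₀
    hb hc hbc hl
  have hbe : ({b, c} : Finset V) ∈ edges P := edge_of_tri hF₀ hbc hb hc
  exact ⟨p, h1, dz_of_ps m (p₀ ^ e) p hP hl h2 b c hbe h3⟩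

private theorem sfm_pair {V : Type*} [DecidableEq V] {F : Finset V} (h : F.card = 3) :
    ∃ b c, b ∈ F ∧ c ∈ F ∧ b ≠ c := by
  obtain ⟨a, b, c, hab, hac, hbc, rfl⟩ := Finset.card_eq_three.1 h
  exact ⟨a, b, by simp, by simp, hab⟩

/-- HA: the pinned face is `F₀` -/
theorem sol_HA (p₀ e m : ℕ) [Fact p₀.Prime] (hm : 2 * m + 1 = p₀ ^ e ∨ 2 * m + 2 = p₀ ^ e)
    {P : Finset (Finset V)} (hP : Sph P) (hF : Fac3 P) (h8 : 8 ≤ P.card) {F₀ : Finset V}
    (hF₀ : F₀ ∈ P) :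
    ∃ (K : Type) (_ : Field K) (p : V × Fin 2 → K),
      ∀ μ ∈ Sol (4 * p₀ ^ e - 3 - 2 * m) (2 * p₀ ^ e - 1 - m) (fun _ => p₀ ^ e) p (edges P)
        (vs P \ F₀), ∀ v, dl p v ^ (p₀ ^ e) ∣ μ v := by
  have i1 : CharP (RatFunc (ZMod p₀)) p₀ :=
    charP_of_injective_algebraMap (algebraMap (ZMod p₀) (RatFunc (ZMod p₀))).injective p₀
  have i2 : Infinite (RatFunc (ZMod p₀)) := ratFunc_infinite (ZMod p₀)
  obtain ⟨b, c, hb, hc, hbc⟩ := sfm_pair (hP.card3 F₀ hF₀)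
  obtain ⟨p, hΔ, hD⟩ := dz_sphere (RatFunc (ZMod p₀)) p₀ e m hm hP hF h8 hF₀ hb hc hbc
  have hD' : DZ m (p₀ ^ e) p (edges P) (vs P \ F₀) := by
    refine dz_mono (fun u v _ h => h) (fun v hv => ?_) hD
    rw [mem_sdiff] at hv ⊢
    refine ⟨hv.1, fun h => hv.2 ?_⟩
    rw [mem_insert, mem_singleton] at h
    rcases h with rfl | rfl
    · exact hb
    · exact hc
  obtain ⟨p', h1, h2, h3⟩ := exists_pos m (p₀ ^ e) (pow_pos (Nat.Prime.pos Fact.out) e)
    (edges P) (edges P) (vs P \ F₀) (vs P \ F₀) p hΔ hD' (gb_sphere_inf _ hP hF hF₀ h8)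
  exact ⟨RatFunc (ZMod p₀), inferInstance, p',
    sol_of_dz p₀ e m hm p' (edges P) (vs P \ F₀) (fun u v huv _ => h3 u v huv) h1 h2⟩

/-- HB: `x` has an additional edge to a pinned vertex `a` outside, pinned `b`, `c` -/
theorem sol_HB (p₀ e m : ℕ) [Fact p₀.Prime] (hm : 2 * m + 1 = p₀ ^ e ∨ 2 * m + 2 = p₀ ^ e)
    {P : Finset (Finset V)} (hP : Sph P) (hF : Fac3 P) (h8 : 8 ≤ P.card) {x b c a : V}
    (hF₀ : ({x, b, c} : Finset V) ∈ P) (ha : a ∉ vs P) :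
    ∃ (K : Type) (_ : Field K) (p : V × Fin 2 → K),
      ∀ μ ∈ Sol (4 * p₀ ^ e - 3 - 2 * m) (2 * p₀ ^ e - 1 - m) (fun _ => p₀ ^ e) p
        (insert {a, x} (edges P)) (vs P \ {b, c}), ∀ v, dl p v ^ (p₀ ^ e) ∣ μ v := by
  have i1 : CharP (RatFunc (ZMod p₀)) p₀ :=
    charP_of_injective_algebraMap (algebraMap (ZMod p₀) (RatFunc (ZMod p₀))).injective p₀
  have i2 : Infinite (RatFunc (ZMod p₀)) := ratFunc_infinite (ZMod p₀)
  have h3 := hP.card3 _ hF₀
  have hx3 : x ≠ b ∧ x ≠ c ∧ b ≠ c := by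
    refine ⟨?_, ?_, ?_⟩
    · rintro rfl
      have := (Finset.card_le_two (a := x) (b := c))
      rw [Finset.insert_eq_of_mem (by simp)] at h3
      omega
    · rintro rfl
      have := (Finset.card_le_two (a := x) (b := b))
      have e1 : ({x, b, x} : Finset V) = {x, b} := by
        ext z; simp; tauto
      rw [e1] at h3
      omega
    · rintro rfl
      have := (Finset.card_le_two (a := x) (b := b))
      have e1 : ({x, b, b} : Finset V) = {x, b} := by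
        ext z; simp
      rw [e1] at h3
      omega
  obtain ⟨hxb, hxc, hbc⟩ := hx3
  have hxP : x ∈ vs P := mem_vs.2 ⟨_, hF₀, by simp⟩
  have hbP : b ∈ vs P := mem_vs.2 ⟨_, hF₀, by simp⟩
  have hcP : c ∈ vs P := mem_vs.2 ⟨_, hF₀, by simp⟩
  have hxa : x ≠ a := fun h => ha (h ▸ hxP)
  have hab : a ≠ b := fun h => ha (h ▸ hbP)
  have hac : a ≠ c := fun h => ha (h ▸ hcP)
  obtain ⟨p, hΔ, hD⟩ := dz_sphere (RatFunc (ZMod p₀)) p₀ e m hm hP hF h8 hF₀ (b := b) (c := c)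
    (by simp) (by simp) hbc
  have hG : GB 2 (RatFunc (ZMod p₀)) (insert {a, x} (edges P)) (vs P \ {b, c}) := by
    refine gb_three _ _ x a b c hxa hxb hxc hab hac hbc (fun h => ha (mem_sdiff.1 h).1)
      (fun h => (mem_sdiff.1 h).2 (by simp)) (fun h => (mem_sdiff.1 h).2 (by simp)) ?_ ?_ ?_ ?_
    · rw [Finset.pair_comm]
      exact mem_insert_self _ _
    · exact mem_insert_of_mem (edge_of_tri hF₀ hxb (by simp) (by simp))
    · exact mem_insert_of_mem (edge_of_tri hF₀ hxc (by simp) (by simp))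
    · have e1 : (vs P \ {b, c}).erase x = vs P \ {x, b, c} := by
        ext z
        simp only [mem_erase, mem_sdiff, mem_insert, mem_singleton]
        tauto
      rw [e1]
      exact gb_mono (fun u v _ h => mem_insert_of_mem h) (gb_sphere_inf _ hP hF hF₀ h8)
  obtain ⟨p', h1, h2, h3⟩ := exists_pos m (p₀ ^ e) (pow_pos (Nat.Prime.pos Fact.out) e)
    (edges P) _ _ _ p hΔ hD hG
  have h1' : DZ m (p₀ ^ e) p' (insert {a, x} (edges P)) (vs P \ {b, c}) :=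
    dz_mono (fun u v _ h => mem_insert_of_mem h) (fun v hv => hv) h1
  exact ⟨RatFunc (ZMod p₀), inferInstance, p',
    sol_of_dz p₀ e m hm p' _ _ (fun u v huv _ => h3 u v huv) h1' h2⟩

end Pool.Agent.SplF
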