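import Pool.Agent.Spl3.Main

/-!
# SplF/Son: the S-lemma with pairwise different slopes (no three of the points are collinear)

The proof of `Spl3.S_onto` (helper35) with an additional choice of the heights outside the zeros of a nonzero polynomial.
-/

set_option autoImplicit false

namespace Spl3

open MvPolynomial

section sfstep

variable {K : Type*} [Field K] {E : Type*} [Fintype E] {m q : ℕ} {lam μ kap : ℕ → K}
  {i j k l a b : E → ℕ} {c : ℕ}

/-- The induction step: the vertex `c + 1` gets a height. -/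
theorem sf_step [Infinite K] (hlam : Function.Injective lam) (hμ : Function.Injective μ) (hq : 0 < q)
    (hkap : ∀ v ≤ c + 1, kap v = 0)
    (hQ : ∀ e, i e < j e ∧ j e < k e ∧ k e < l e) (hab : ∀ e, a e ≠ b e)
    (hl : ∀ e, k e = c + 1 → kap (l e) ≠ 0)
    (hloc : ∀ e, k e = c + 1 → NodeOK m q lam kap a b (c + 1) {e | k e = c + 1} e)
    (H : Onto m q lam μ kap i j k l a b (c + 1)) (G : Polynomial K) (hG : G ≠ 0) :
    ∃ z : K, z ≠ 0 ∧ G.eval z ≠ 0 ∧ Onto m q lam μ (Function.update kap (c + 1) z) i j k l a b c := by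
  classical
  have hdat : ∀ e, ∃ (s : ℕ) (x y : MvPolynomial (Fin 2) K)
      (f W : ℕ → ℕ → MvPolynomial (Fin 2) (Polynomial K)) (w : ℕ → ℕ → ℕ),
      k e = c + 1 → NodeD m q lam kap a b (c + 1) {e | k e = c + 1} e s x y f W w := by
    intro e
    by_cases hk : k e = c + 1
    · obtain ⟨s, x, y, f, W, w, hd⟩ := hloc e hk
      exact ⟨s, x, y, f, W, w, fun _ => hd⟩
    · exact ⟨0, 0, 0, fun _ _ => 0, fun _ _ => 0, fun _ _ => 0, fun h => absurd h hk⟩
  choose s x y f W w hdat using hdat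
  obtain ⟨ρ, hρ0, hρ⟩ := step_spec hlam hkap hab H hdat
  -- the choice of the height
  have hne : ρ * Polynomial.X * G ≠ 0 := by
    refine mul_ne_zero (mul_ne_zero ?_ Polynomial.X_ne_zero) hG
    rintro rfl
    simp at hρ0
  obtain ⟨z, hz'⟩ : ∃ z : K, (ρ * Polynomial.X * G).eval z ≠ 0 := by
    by_contra hcon
    push Not at hcon
    exact hne (Polynomial.funext fun z => by rw [hcon z, Polynomial.eval_zero])
  rw [Polynomial.eval_mul, Polynomial.eval_mul, Polynomial.eval_X] at hz'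
  have hz : ρ.eval z * z ≠ 0 := left_ne_zero_of_mul hz'
  have hGz : G.eval z ≠ 0 := right_ne_zero_of_mul hz'
  have hz0 : z ≠ 0 := right_ne_zero_of_mul hz
  have hρz : ρ.eval z ≠ 0 := left_ne_zero_of_mul hz
  refine ⟨z, hz0, hGz, fun t => ?_⟩
  obtain ⟨T', ⟨A, B, h, cc, hA, hB, hh, hT'⟩, hx⟩ := hρ fun e =>
    if k e.1 = c + 1 then
      Cm (scK (z ^ s e.1) (C (((μ (j e.1) - μ (i e.1)) * z ^ q * kap (l e.1) ^ q)⁻¹) * t e.1))
    else Cm (t e.1)
  have hrρ : (ρ.eval z)⁻¹ * ρ.eval z = 1 := inv_mul_cancel₀ hρz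
  have hCev : ∀ P : MvPolynomial (Fin 2) (Polynomial K), P.totalDegree ≤ 2 * m →
      (C (ρ.eval z)⁻¹ * ev z P).totalDegree ≤ 2 * m := fun P hP =>
    (totalDegree_C_mul_le _ _).trans ((totalDegree_ev_le _ _).trans hP)
  have hgdeg : (gA m k c f w (ρ.eval z)⁻¹ z cc).totalDegree ≤ 2 * m :=
    gA_deg cc fun e he => (hdat e he).deg
  have key : ∀ e, c < k e → cdet μ (fun v => Function.update kap (c + 1) z v ^ q)
      (i e) (j e) (k e) (l e)
      (hZ μ c (C (ρ.eval z)⁻¹ * ev z A) (C (ρ.eval z)⁻¹ * ev z B)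
        (gA m k c f w (ρ.eval z)⁻¹ z cc) (fun v => C (ρ.eval z)⁻¹ * ev z (h v))
        (z ^ q)) - t e ∈ (nodeI lam (Function.update kap (c + 1) z) (a e) (b e)) ^ m := by
    intro e hce
    have hxe := hx ⟨e, hce⟩
    rw [hT' ⟨e, hce⟩] at hxe
    have hev := Ideal.mem_map_of_mem (ev z) hxe
    by_cases hk : k e = c + 1
    · rw [map_rowI_of_eq z hk, map_sub, map_mul, MvPolynomial.algebraMap_eq, ev_C, if_pos hk,
        ev_Cm] at hev
      exact class_row hrρ hz0 hq hμ hkap hk (hQ e).1 (hQ e).2.1 (hQ e).2.2 (hl e hk) hdat _ hev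
    · rw [map_rowI_of_ne z hk, map_sub, map_mul, MvPolynomial.algebraMap_eq, ev_C, if_neg hk,
        ev_Cm] at hev
      exact later_row hrρ hk (fun e he => (hdat e he).wlt) hz0 _ hev
  refine ⟨C (ρ.eval z)⁻¹ * ev z A, C (ρ.eval z)⁻¹ * ev z B,
    hZ μ c (C (ρ.eval z)⁻¹ * ev z A) (C (ρ.eval z)⁻¹ * ev z B)
        (gA m k c f w (ρ.eval z)⁻¹ z cc) (fun v => C (ρ.eval z)⁻¹ * ev z (h v))
        (z ^ q), hCev A hA, hCev B hB, fun v => ?_, fun e hce => ?_⟩
  · have h1 : (C (ρ.eval z)⁻¹ * ev z A + C (μ v) * (C (ρ.eval z)⁻¹ * ev z B)).totalDegree ≤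
        2 * m := (totalDegree_add _ _).trans
          (max_le (hCev A hA) ((totalDegree_C_mul_le _ _).trans (hCev B hB)))
    unfold hZ
    split_ifs
    · exact h1
    · exact (totalDegree_add _ _).trans (max_le h1 ((totalDegree_C_mul_le _ _).trans hgdeg))
    · exact hCev _ (hh v)
  · have h2 := key e hce
    have h3 : hZ μ c (C (ρ.eval z)⁻¹ * ev z A) (C (ρ.eval z)⁻¹ * ev z B)
        (gA m k c f w (ρ.eval z)⁻¹ z cc) (fun v => C (ρ.eval z)⁻¹ * ev z (h v)) (z ^ q) =
        fun v => if v ≤ c then C (ρ.eval z)⁻¹ * ev z A + C (μ v) * (C (ρ.eval z)⁻¹ * ev z B) else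
          hZ μ c (C (ρ.eval z)⁻¹ * ev z A) (C (ρ.eval z)⁻¹ * ev z B)
            (gA m k c f w (ρ.eval z)⁻¹ z cc) (fun v => C (ρ.eval z)⁻¹ * ev z (h v)) (z ^ q) v := by
      funext v
      by_cases hv : v ≤ c
      · rw [if_pos hv, hZ, if_pos hv]
      · rw [if_neg hv]
    rw [← h3]
    exact h2


end sfstep

/-- the determinant of three points as a polynomial in the height of `c` -/
noncomputable def sfD {K : Type*} [Field K] (q : ℕ) (μ kap : ℕ → K) (c x y w : ℕ) : Polynomial K :=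
  (Polynomial.C (μ y) - Polynomial.C (μ x)) *
      ((if w = c then Polynomial.X ^ q else Polynomial.C (kap w ^ q)) -
        (if x = c then Polynomial.X ^ q else Polynomial.C (kap x ^ q))) -
    (Polynomial.C (μ w) - Polynomial.C (μ x)) *
      ((if y = c then Polynomial.X ^ q else Polynomial.C (kap y ^ q)) -
        (if x = c then Polynomial.X ^ q else Polynomial.C (kap x ^ q)))

theorem sfD_eval {K : Type*} [Field K] (q : ℕ) (μ kap : ℕ → K) (c x y w : ℕ) (z : K) :
    (sfD q μ kap c x y w).eval z = d3 μ (fun v => Function.update kap c z v ^ q) x y w := by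
  unfold sfD d3
  have e : ∀ v, Polynomial.eval z (if v = c then Polynomial.X ^ q else Polynomial.C (kap v ^ q)) =
      Function.update kap c z v ^ q := by
    intro v
    by_cases h : v = c
    · subst h; simp
    · rw [if_neg h, Function.update_of_ne h]; simp
  simp only [Polynomial.eval_sub, Polynomial.eval_mul, Polynomial.eval_C, e]

theorem sfD_ne {K : Type*} [Field K] {q : ℕ} (hq : 0 < q) {μ : ℕ → K} (hμ : Function.Injective μ)
    (kap : ℕ → K) {c x y w : ℕ} (hxy : x < y) (hyw : y < w) (h : x = c ∨ y = c) :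
    sfD q μ kap c x y w ≠ 0 := by
  intro h0
  have h1 := congrArg (fun P => Polynomial.coeff P q) h0
  have e : ∀ v, Polynomial.coeff (if v = c then Polynomial.X ^ q else Polynomial.C (kap v ^ q) :
      Polynomial K) q = if v = c then 1 else 0 := by
    intro v
    by_cases h : v = c
    · rw [if_pos h, if_pos h, Polynomial.coeff_X_pow_self]
    · rw [if_neg h, if_neg h, Polynomial.coeff_C, if_neg hq.ne']
  simp only [sfD, ← Polynomial.C_sub, Polynomial.coeff_sub, Polynomial.coeff_C_mul, e,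
    Polynomial.coeff_zero] at h1
  rcases h with rfl | rfl
  · rw [if_neg (by omega : ¬ w = x), if_pos rfl, if_neg (by omega : ¬ y = x)] at h1
    have h2 : μ w = μ y := by linear_combination h1
    exact absurd (hμ h2) (by omega)
  · rw [if_neg (by omega : ¬ w = y), if_neg (by omega : ¬ x = y), if_pos rfl] at h1
    have h2 : μ w = μ x := by linear_combination -h1
    exact absurd (hμ h2) (by omega)

section sfmain

variable {K : Type*} [Field K] {E : Type*} [Fintype E] {N m q : ℕ} {lam μ : ℕ → K}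
  {i j k l a b : E → ℕ}

theorem sf_ind [Infinite K] (hlam : Function.Injective lam) (hμ : Function.Injective μ)
    (hq : 0 < q) (hm : 2 * m ≤ q)
    (hQ : ∀ e, i e < j e ∧ j e < k e ∧ k e < l e ∧ l e < N) (hab : ∀ e, a e ≠ b e)
    (hinj : ∀ e e' : E, ({a e, b e} : Finset ℕ) = {a e', b e'} → e = e')
    (hcls : ∀ c, 2 ≤ c → c + 2 ≤ N → Cls N k a b c) (d : ℕ) (hd : d + 3 ≤ N) :
    ∃ kap : ℕ → K, (∀ v ≤ N - 2 - d, kap v = 0) ∧ (∀ v, N - 2 - d < v → v < N → kap v ≠ 0) ∧
      (∀ x y z, x < y → y < z → z < N → N - 2 - d < y → d3 μ (fun v => kap v ^ q) x y z ≠ 0) ∧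
      Onto m q lam μ kap i j k l a b (N - 2 - d) := by
  classical
  induction d with
  | zero =>
    refine ⟨fun v => if v = N - 1 then 1 else 0, fun v hv => if_neg (by omega), fun v hv hv' => ?_,
      fun x y z h1 h2 h3 h4 => by omega,
      fun t => ⟨0, 0, fun _ => 0, by simp, by simp, by simp, fun e he => ?_⟩⟩
    · beta_reduce
      rw [if_pos (by omega)]; exact one_ne_zero
    · have := hQ e
      omega
  | succ d ih =>
    obtain ⟨kap, h0, h1, hD, hO⟩ := ih (by omega)
    obtain ⟨c, hc⟩ : ∃ c, c + 1 = N - 2 - d := ⟨N - 2 - d - 1, by omega⟩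
    have hc' : N - 2 - (d + 1) = c := by omega
    rw [← hc] at h0 h1 hO hD
    rw [hc']
    have hloc : ∀ e, k e = c + 1 → NodeOK m q lam kap a b (c + 1) {e | k e = c + 1} e := by
      intro e he
      obtain ⟨wL, wR, zL, zR, hLR, hL, hR, hzL, hzR, hzL', hzR', h⟩ :=
        hcls (c + 1) (by omega) (by omega)
      rcases h with h | h
      · exact nodeOK_quad hlam hLR hL hR hzL hzR (h0 _ hL.le) (h0 _ hR.le) (h1 _ hzL hzL')
          (h1 _ hzR hzR') hm hinj (fun e' he' => h e' he') he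
      · exact nodeOK_tri hlam hLR hL hR (h0 _ hL.le) (h0 _ hR.le) hm hinj
          (fun e' he' => h e' he') he
    obtain ⟨G, hG⟩ : ∃ G : Polynomial K, G = ∏ s ∈ (Finset.range N ×ˢ Finset.range N ×ˢ
      Finset.range N).filter (fun s => s.1 < s.2.1 ∧ s.2.1 < s.2.2 ∧ (s.1 = c + 1 ∨ s.2.1 = c + 1)),
      sfD q μ kap (c + 1) s.1 s.2.1 s.2.2 := ⟨_, rfl⟩
    have hG0 : G ≠ 0 := by
      rw [hG, Finset.prod_ne_zero_iff]
      intro s hs
      rw [Finset.mem_filter] at hs
      exact sfD_ne hq hμ kap hs.2.1 hs.2.2.1 hs.2.2.2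
    obtain ⟨z, hz, hGz, hO'⟩ := sf_step hlam hμ hq h0
      (fun e => ⟨(hQ e).1, (hQ e).2.1, (hQ e).2.2.1⟩) hab
      (fun e he => h1 _ (by have := hQ e; omega) (by have := hQ e; omega)) hloc hO G hG0
    refine ⟨Function.update kap (c + 1) z, fun v hv => ?_, fun v hv hv' => ?_,
      fun x y w hxy hyw hw hcy => ?_, hO'⟩
    · rw [Function.update_of_ne (by omega)]
      exact h0 v (by omega)
    · by_cases hvc : v = c + 1
      · rw [hvc, Function.update_self]; exact hz
      · rw [Function.update_of_ne hvc]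
        exact h1 v (by omega) hv'
    · by_cases hcase : x = c + 1 ∨ y = c + 1
      · rw [← sfD_eval]
        rw [hG, Polynomial.eval_prod, Finset.prod_ne_zero_iff] at hGz
        refine hGz (x, y, w) ?_
        rw [Finset.mem_filter, Finset.mem_product, Finset.mem_product, Finset.mem_range,
          Finset.mem_range, Finset.mem_range]
        exact ⟨⟨by simp only; omega, by simp only; omega, hw⟩, hxy, hyw, hcase⟩
      · push Not at hcase
        have h2 := hD x y w hxy hyw hw (by omega)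
        unfold d3 at h2 ⊢
        beta_reduce at h2 ⊢
        rw [Function.update_of_ne hcase.1, Function.update_of_ne hcase.2,
          Function.update_of_ne (by omega : w ≠ c + 1)]
        exact h2

/-- The S-lemma with nondegenerate triples. -/
theorem S_onto_nd [Infinite K] (hlam : Function.Injective lam) (hμ : Function.Injective μ)
    (hq : 0 < q) (hm : 2 * m ≤ q)
    (hQ : ∀ e, i e < j e ∧ j e < k e ∧ k e < l e ∧ l e < N) (hab : ∀ e, a e ≠ b e)
    (hinj : ∀ e e' : E, ({a e, b e} : Finset ℕ) = {a e', b e'} → e = e')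
    (hcls : ∀ c, 2 ≤ c → c + 2 ≤ N → Cls N k a b c) (hN : 3 ≤ N) :
    ∃ kap : ℕ → K,
      (∀ x y z, x < y → y < z → z < N → d3 μ (fun v => kap v ^ q) x y z ≠ 0) ∧
      ∀ t : E → MvPolynomial (Fin 2) K, ∃ h : ℕ → MvPolynomial (Fin 2) K,
        (∀ v, (h v).totalDegree ≤ 2 * m) ∧ ∀ e,
          cdet μ (fun v => kap v ^ q) (i e) (j e) (k e) (l e) h - t e ∈
            (nodeI lam kap (a e) (b e)) ^ m := by
  obtain ⟨kap, h0, h1, hD, hO⟩ := sf_ind hlam hμ hq hm hQ hab hinj hcls (N - 3) (by omega)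
  have hN1 : N - 2 - (N - 3) = 1 := by omega
  rw [hN1] at h0 h1 hO hD
  refine ⟨kap, fun x y z hxy hyz hz => ?_, fun t => ?_⟩
  · rcases Nat.lt_or_ge 1 y with hy | hy
    · exact hD x y z hxy hyz hz hy
    · have ex : x = 0 := by omega
      have ey : y = 1 := by omega
      subst ex; subst ey
      unfold d3
      beta_reduce
      rw [h0 0 (by omega), h0 1 le_rfl]
      have h2 : kap z ^ q ≠ 0 := pow_ne_zero _ (h1 z (by omega) hz)
      have h3 : μ 1 - μ 0 ≠ 0 := sub_ne_zero.2 fun h => absurd (hμ h) (by norm_num)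
      have h4 : (0 : K) ^ q = 0 := zero_pow hq.ne'
      rw [h4, sub_zero, sub_zero, mul_zero, sub_zero]
      exact mul_ne_zero h3 h2
  · obtain ⟨A, B, h, hA, hB, hh, hrow⟩ := hO t
    refine ⟨fun v => if v ≤ 1 then A + C (μ v) * B else h v, fun v => ?_, fun e =>
      hrow e (by have := hQ e; omega)⟩
    beta_reduce
    split_ifs
    · exact (totalDegree_add _ _).trans (max_le hA ((totalDegree_C_mul_le _ _).trans hB))
    · exact hh v

end sfmain

end Spl3
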