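import Pool.Agent.Spl3.Orient
import Pool.Agent.Spl2.BrDefs

/-!
# SplF/Str: the stress of a lifting of an oriented triangulated sphere

`y : V × Fin 2 → K` positions, `h : V → M` heights in a vector space `M`.  `dt y u v a` is the determinant of `y_v - y_u`, `y_a - y_u`;
`cc y h u v a b` is the affine dependency of the four points applied to `h`; `om y h lf u v = cc / (dt u v a * dt u v b)`, where `a = lf u v`,
`b = lf v u` are the apexes of the edge.

PAPER PROOFS.  `cc_symm`: `dt y u v a` is alternating in `u, v, a` and `[v,a,b] - [u,a,b] + [u,v,b] - [u,v,a] = 0` (expand in coordinates: it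
is a linear identity in `h u, h v, h a, h b`; `module` after unfolding, or compare the four coefficients by `ring`).
`om_symm`: `cc_symm` and `dt v u x = - dt u v x`.
`equil`: for an edge `u v` with `w = lf u v` let `G i u v` (`i = 0, 1`) be the gradient of the affine function on the triangle `u, v, w`:
`G 0 u v = (dt u v w)⁻¹ • ((y_w1 - y_u1) • (h v - h u) - (y_v1 - y_u1) • (h w - h u))`,
`G 1 u v = (dt u v w)⁻¹ • ((y_v0 - y_u0) • (h w - h u) - (y_w0 - y_u0) • (h v - h u))`.
Then `G i u v = G i w u` (the same triangle: `lf w u = v` by `LeftOf.rot` twice; algebra), and for the edge `u v` with `a = lf u v`, `b = lf v u`: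
`G 0 u v - G 0 v u = -(y_v1 - y_u1) • om u v`, `G 1 u v - G 1 v u = (y_v0 - y_u0) • om u v` (algebra: multiply by
`dt u v a * dt v u b`, coefficients of `h u, h v, h a, h b`).  So `∑_{v ∈ nb u} ± (y_vi - y_ui) • om u v = ∑_v G u v - ∑_v G v u = 0`, since
`v ↦ lf u v` is a permutation of `nb (edges T) u` (it maps into it; injective because `lf (lf u v) u = v`) and
`G u v = G (lf u v) u`.
`tele`: `bev 1 x a b = x 0 * b + x 1 * a`; for fixed `u` the inner sum is `(φ u (∑ (y_v1 - y_u1) • om)) 0 + (φ u (∑ (y_v0 - y_u0) • om)) 1 = 0`.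
`tele_edge`: write `tele` as a sum over the ordered pairs `(u, v)`, `{u, v} ∈ edges T`, `u ≠ v`; the map `(u, v) ↦ (v, u)` pairs the terms
other than `(u₀, v₀)`, `(v₀, u₀)`: `T(u, v) + T(v, u) = bev 1 (φ u ω) D - bev 1 (φ v ω) D = 0` (`om_symm`, `D ↦ -D`;
`Finset.sum_involution`, no division by `2`), so `T(u₀, v₀) + T(v₀, u₀) = 0`.
-/

set_option autoImplicit false

namespace Pool.Agent.SplF

open Finset Pool.Agent.Spl1 Pool.Agent.Spl2 Pool.Agent.Spl3

variable {V : Type*} [Fintype V] [DecidableEq V] {K : Type*} [Field K] {M : Type*}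
  [AddCommGroup M] [Module K M]

/-- the determinant of the triangle `u v a` -/
def dt (y : V × Fin 2 → K) (u v a : V) : K :=
  (y (v, 0) - y (u, 0)) * (y (a, 1) - y (u, 1)) - (y (v, 1) - y (u, 1)) * (y (a, 0) - y (u, 0))

/-- the affine dependency of four points -/
def cc (y : V × Fin 2 → K) (h : V → M) (u v a b : V) : M :=
  dt y u v b • (h a - h u) - dt y u a b • (h v - h u) - dt y u v a • (h b - h u)

/-- the stress -/
noncomputable def om (y : V × Fin 2 → K) (h : V → M) (lf : V → V → V) (u v : V) : M :=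
  (dt y u v (lf u v) * dt y u v (lf v u))⁻¹ • cc y h u v (lf u v) (lf v u)

theorem cc_symm (y : V × Fin 2 → K) (h : V → M) (u v a b : V) : cc y h v u b a = cc y h u v a b := by
  unfold cc dt
  match_scalars <;> ring

theorem om_symm (y : V × Fin 2 → K) (h : V → M) (lf : V → V → V) (u v : V) :
    om y h lf v u = om y h lf u v := by
  unfold om
  have h1 : dt y v u (lf v u) * dt y v u (lf u v) = dt y u v (lf u v) * dt y u v (lf v u) := by
    unfold dt
    ring
  rw [h1, cc_symm]

/-- gradients -/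
private noncomputable def gE (y : V × Fin 2 → K) (h : V → M) (i : Fin 2) (u v w : V) : M :=
  (dt y u v w)⁻¹ • ((y (v, i) - y (u, i)) • (h w - h u) - (y (w, i) - y (u, i)) • (h v - h u))

omit [Fintype V] [DecidableEq V] in
private theorem gE_rot (y : V × Fin 2 → K) (h : V → M) (i : Fin 2) (u v w : V) :
    gE y h i w u v = gE y h i u v w := by
  unfold gE
  have h1 : dt y w u v = dt y u v w := by
    unfold dt
    ring
  rw [h1]
  congr 1
  match_scalars <;> ring

omit [Fintype V] [DecidableEq V] in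
private theorem gE_edge (y : V × Fin 2 → K) (h : V → M) (lf : V → V → V) (i : Fin 2) (u v : V)
    (ha : dt y u v (lf u v) ≠ 0) (hb : dt y u v (lf v u) ≠ 0) :
    (y (v, i) - y (u, i)) • om y h lf u v =
      gE y h i u v (lf u v) - gE y h i v u (lf v u) := by
  unfold om gE
  generalize lf u v = a at *
  generalize lf v u = b at *
  have h1 : dt y v u b = - dt y u v b := by
    unfold dt
    ring
  have h2 : (dt y u v a)⁻¹ = (dt y u v a * dt y u v b)⁻¹ * dt y u v b := by
    field_simp
  have h3 : (dt y v u b)⁻¹ = (dt y u v a * dt y u v b)⁻¹ * (- dt y u v a) := by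
    rw [h1]
    field_simp
  rw [h2, h3, mul_smul, mul_smul, ← smul_sub, smul_comm]
  congr 1
  unfold cc dt
  fin_cases i
  · simp only [Fin.zero_eta]
    match_scalars <;> ring
  · simp only [Fin.mk_one]
    match_scalars <;> ring

private theorem str_facts {T : Finset (Finset V)} (hT : Sph T) {lf : V → V → V}
    (hl : LeftOf T lf) {u v : V} (he : ({u, v} : Finset V) ∈ edges T) :
    u ≠ v ∧ lf u v ≠ u ∧ lf u v ≠ v ∧ ({u, lf u v} : Finset V) ∈ edges T ∧
      ({v, lf u v} : Finset V) ∈ edges T := by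
  have h1 := hl.tri u v he
  have h3 := hT.card3 _ h1
  have huv : u ≠ v := by
    rintro rfl
    have h4 := (mem_edges.1 he).1
    simp at h4
  have hu : lf u v ≠ u := by
    intro h
    rw [h] at h3
    have h5 : ({u, v, u} : Finset V) = {u, v} := by
      ext x
      simp only [Finset.mem_insert, Finset.mem_singleton]
      tauto
    rw [h5] at h3
    have := Finset.card_le_two (a := u) (b := v)
    omega
  have hv : lf u v ≠ v := by
    intro h
    rw [h] at h3
    have h5 : ({u, v, v} : Finset V) = {u, v} := by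
      ext x
      simp only [Finset.mem_insert, Finset.mem_singleton]
      tauto
    rw [h5] at h3
    have := Finset.card_le_two (a := u) (b := v)
    omega
  refine ⟨huv, hu, hv, ?_, ?_⟩
  · exact edge_of_tri h1 hu.symm (by simp) (by simp)
  · exact edge_of_tri h1 hv.symm (by simp) (by simp)

private theorem str_swap {T : Finset (Finset V)} {u v : V}
    (he : ({u, v} : Finset V) ∈ edges T) : ({v, u} : Finset V) ∈ edges T := by
  rw [Finset.pair_comm]
  exact he

private theorem str_rot2 {T : Finset (Finset V)} (hT : Sph T) {lf : V → V → V}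
    (hl : LeftOf T lf) {u v : V} (he : ({u, v} : Finset V) ∈ edges T) :
    lf (lf u v) u = v := by
  have h1 := hl.rot u v he
  have h2 := hl.rot v (lf u v) (str_facts hT hl he).2.2.2.2
  rwa [h1] at h2

theorem equil {T : Finset (Finset V)} (hT : Sph T) {lf : V → V → V} (hl : LeftOf T lf)
    (y : V × Fin 2 → K) (hy : ∀ u v w, ({u, v, w} : Finset V) ∈ T → dt y u v w ≠ 0) (h : V → M)
    (u : V) (i : Fin 2) : ∑ v ∈ nb (edges T) u, (y (v, i) - y (u, i)) • om y h lf u v = 0 := by
  have hterm : ∀ v ∈ nb (edges T) u, (y (v, i) - y (u, i)) • om y h lf u v =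
      gE y h i u v (lf u v) - gE y h i v u (lf v u) := by
    intro v hv
    obtain ⟨hvu, he⟩ := mem_nb.1 hv
    apply gE_edge
    · exact hy _ _ _ (hl.tri u v he)
    · have h1 := hy _ _ _ (hl.tri v u (str_swap he))
      have h2 : dt y v u (lf v u) = - dt y u v (lf v u) := by
        unfold dt
        ring
      rw [h2] at h1
      exact fun h3 => h1 (by rw [h3, neg_zero])
  rw [Finset.sum_congr rfl hterm, Finset.sum_sub_distrib, sub_eq_zero]
  apply Finset.sum_nbij' (fun v => lf u v) (fun w => lf w u)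
  · intro v hv
    obtain ⟨hvu, he⟩ := mem_nb.1 hv
    have h1 := str_facts hT hl he
    exact mem_nb.2 ⟨h1.2.1, h1.2.2.2.1⟩
  · intro w hw
    obtain ⟨hwu, he⟩ := mem_nb.1 hw
    have h1 := str_facts hT hl (str_swap he)
    exact mem_nb.2 ⟨h1.2.2.1, h1.2.2.2.2⟩
  · intro v hv
    exact str_rot2 hT hl (mem_nb.1 hv).2
  · intro w hw
    exact hl.rot w u (str_swap (mem_nb.1 hw).2)
  · intro v hv
    rw [str_rot2 hT hl (mem_nb.1 hv).2]
    exact (gE_rot y h i u v (lf u v)).symm

omit [Fintype V] [DecidableEq V] in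
private theorem str_bev (q : Fin (1 + 1) → K) (a b : K) : bev 1 q a b = q 0 * b + q 1 * a := by
  unfold bev
  rw [Fin.sum_univ_two]
  simp

theorem tele {T : Finset (Finset V)} (hT : Sph T) {lf : V → V → V} (hl : LeftOf T lf)
    (y : V × Fin 2 → K) (hy : ∀ u v w, ({u, v, w} : Finset V) ∈ T → dt y u v w ≠ 0) (h : V → M)
    (φ : V → M →ₗ[K] (Fin (1 + 1) → K)) :
    ∑ u, ∑ v ∈ nb (edges T) u, bev 1 (φ u (om y h lf u v)) (y (v, 0) - y (u, 0))
      (y (v, 1) - y (u, 1)) = 0 := by
  apply Finset.sum_eq_zero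
  intro u _
  have h0 := equil hT hl y hy h u 0
  have h1 := equil hT hl y hy h u 1
  have h2 := congrArg (fun m => φ u m 1) h0
  have h3 := congrArg (fun m => φ u m 0) h1
  simp only [map_sum, map_smul, map_zero, Finset.sum_apply, Pi.smul_apply, smul_eq_mul,
    Pi.zero_apply] at h2 h3
  have h4 : ∀ v ∈ nb (edges T) u, bev 1 (φ u (om y h lf u v)) (y (v, 0) - y (u, 0))
      (y (v, 1) - y (u, 1)) = (y (v, 1) - y (u, 1)) * φ u (om y h lf u v) 0 +
      (y (v, 0) - y (u, 0)) * φ u (om y h lf u v) 1 := by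
    intro v _
    rw [str_bev]
    ring
  rw [Finset.sum_congr rfl h4, Finset.sum_add_distrib, h2, h3, add_zero]

theorem tele_edge {T : Finset (Finset V)} (hT : Sph T) {lf : V → V → V} (hl : LeftOf T lf)
    (y : V × Fin 2 → K) (hy : ∀ u v w, ({u, v, w} : Finset V) ∈ T → dt y u v w ≠ 0) (h : V → M)
    (φ : V → M →ₗ[K] (Fin (1 + 1) → K)) (u₀ v₀ : V) (h0 : ({u₀, v₀} : Finset V) ∈ edges T)
    (he : ∀ u v, ({u, v} : Finset V) ∈ edges T → ({u, v} : Finset V) ≠ {u₀, v₀} →
      bev 1 (φ u (om y h lf u v)) (y (v, 0) - y (u, 0)) (y (v, 1) - y (u, 1)) =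
        bev 1 (φ v (om y h lf u v)) (y (v, 0) - y (u, 0)) (y (v, 1) - y (u, 1))) :
    bev 1 (φ u₀ (om y h lf u₀ v₀)) (y (v₀, 0) - y (u₀, 0)) (y (v₀, 1) - y (u₀, 1)) =
      bev 1 (φ v₀ (om y h lf u₀ v₀)) (y (v₀, 0) - y (u₀, 0)) (y (v₀, 1) - y (u₀, 1)) := by
  have huv : u₀ ≠ v₀ := (str_facts hT hl h0).1
  obtain ⟨f, hf⟩ : ∃ f : V × V → K, ∀ p, f p = bev 1 (φ p.1 (om y h lf p.1 p.2))
      (y (p.2, 0) - y (p.1, 0)) (y (p.2, 1) - y (p.1, 1)) := ⟨_, fun _ => rfl⟩
  have hsw : ∀ u v, f (v, u) = - bev 1 (φ v (om y h lf u v)) (y (v, 0) - y (u, 0))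
      (y (v, 1) - y (u, 1)) := by
    intro u v
    rw [hf, str_bev, str_bev, om_symm]
    ring
  have hS := tele hT hl y hy h φ
  have hS2 : ∑ p ∈ (Finset.univ : Finset (V × V)).filter (fun p => p.2 ∈ nb (edges T) p.1),
      f p = 0 := by
    rw [← hS, Finset.sum_filter, Fintype.sum_prod_type]
    apply Finset.sum_congr rfl
    intro u _
    rw [← Finset.sum_filter]
    apply Finset.sum_congr
    · ext v
      simp
    · intro v _
      rw [hf]
  rw [← Finset.sum_filter_add_sum_filter_not _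
    (fun p : V × V => ({p.1, p.2} : Finset V) = {u₀, v₀})] at hS2
  have hzero : ∑ p ∈ ((Finset.univ : Finset (V × V)).filter
      (fun p => p.2 ∈ nb (edges T) p.1)).filter
      (fun p : V × V => ¬ ({p.1, p.2} : Finset V) = {u₀, v₀}), f p = 0 := by
    apply Finset.sum_involution (fun p _ => (p.2, p.1))
    · rintro ⟨u, v⟩ hp
      rw [Finset.mem_filter, Finset.mem_filter, mem_nb] at hp
      obtain ⟨⟨-, hvu, hed⟩, hne⟩ := hp
      simp only at hvu hed hne
      have h1 := he u v hed hne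
      change f (u, v) + f (v, u) = 0
      rw [hsw u v, hf, ← h1]
      simp
    · rintro ⟨u, v⟩ hp _ heq
      rw [Finset.mem_filter, Finset.mem_filter, mem_nb] at hp
      obtain ⟨⟨-, hvu, hed⟩, hne⟩ := hp
      rw [Prod.mk.injEq] at heq
      exact hvu heq.1
    · rintro ⟨u, v⟩ hp
      rw [Finset.mem_filter, Finset.mem_filter, mem_nb] at hp ⊢
      obtain ⟨⟨-, hvu, hed⟩, hne⟩ := hp
      refine ⟨⟨Finset.mem_univ _, Ne.symm hvu, str_swap hed⟩, ?_⟩
      rw [Finset.pair_comm]
      exact hne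
    · rintro ⟨u, v⟩ hp
      rfl
  have hpair : ((Finset.univ : Finset (V × V)).filter
      (fun p => p.2 ∈ nb (edges T) p.1)).filter
      (fun p : V × V => ({p.1, p.2} : Finset V) = {u₀, v₀}) = {(u₀, v₀), (v₀, u₀)} := by
    ext ⟨u, v⟩
    rw [Finset.mem_filter, Finset.mem_filter, mem_nb, Finset.mem_insert, Finset.mem_singleton,
      Prod.mk.injEq, Prod.mk.injEq]
    constructor
    · rintro ⟨⟨-, hvu, hed⟩, heq⟩
      simp only at hvu heq
      have h1 : u ∈ ({u₀, v₀} : Finset V) := by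
        rw [← heq]
        simp
      have h2 : v ∈ ({u₀, v₀} : Finset V) := by
        rw [← heq]
        simp
      rw [Finset.mem_insert, Finset.mem_singleton] at h1 h2
      rcases h1 with h1 | h1 <;> rcases h2 with h2 | h2
      · exact absurd (h2.trans h1.symm) hvu
      · exact Or.inl ⟨h1, h2⟩
      · exact Or.inr ⟨h1, h2⟩
      · exact absurd (h2.trans h1.symm) hvu
    · rintro (⟨rfl, rfl⟩ | ⟨rfl, rfl⟩)
      · exact ⟨⟨Finset.mem_univ _, huv.symm, h0⟩, rfl⟩
      · exact ⟨⟨Finset.mem_univ _, huv, str_swap h0⟩, Finset.pair_comm _ _⟩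
  rw [hzero, add_zero, hpair, Finset.sum_pair (by
    intro h
    rw [Prod.mk.injEq] at h
    exact huv h.1), hsw u₀ v₀, hf] at hS2
  exact add_neg_eq_zero.1 hS2

end Pool.Agent.SplF
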