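import Pool.Agent.Spl3.Defs
import Pool.Agent.SplF.Str

/-!
# SplF/Srt: the affine dependency of four points and its sorted form

PAPER PROOF.  `cc y h u v a b = dt v a b • h u - dt u a b • h v + dt u v b • h a - dt u v a • h b` (expand) `= - cdet μ η (rk u) (rk v) (rk a) (rk b) H`
(`dt = - d3`, `smul_eq_C_mul`); `cdet` changes its sign under transpositions of two arguments.  Since the ranks are a permutation of
`i < j < k < l`: `24` cases (each of the four ranks is one of `i, j, k, l`, they are pairwise different because the set has four elements), each by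
expanding `cdet`, `d3` and `ring`; or sort by adjacent transpositions.
-/

set_option autoImplicit false

namespace Pool.Agent.SplF

open MvPolynomial

variable {V : Type*} [Fintype V] [DecidableEq V] {K : Type*} [Field K]

private theorem srt_all (μ η : ℕ → K) (H : ℕ → MvPolynomial (Fin 2) K) (i j k l p q r s : ℕ)
    (hij : i < j) (hjk : j < k) (hkl : k < l) (hr : ({p, q, r, s} : Finset ℕ) = {i, j, k, l}) :
    Spl3.cdet μ η p q r s H = Spl3.cdet μ η i j k l H ∨
      Spl3.cdet μ η p q r s H = - Spl3.cdet μ η i j k l H := by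
  have hi : i ∈ ({p, q, r, s} : Finset ℕ) := by rw [hr]; simp
  have hj : j ∈ ({p, q, r, s} : Finset ℕ) := by rw [hr]; simp
  have hk : k ∈ ({p, q, r, s} : Finset ℕ) := by rw [hr]; simp
  have hl : l ∈ ({p, q, r, s} : Finset ℕ) := by rw [hr]; simp
  clear hr
  simp only [Finset.mem_insert, Finset.mem_singleton] at hi hj hk hl
  rcases hi with rfl | rfl | rfl | rfl <;> rcases hj with rfl | rfl | rfl | rfl <;>
    first
    | (exfalso; omega)
    | (rcases hk with rfl | rfl | rfl | rfl <;>
        first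
        | (exfalso; omega)
        | (rcases hl with rfl | rfl | rfl | rfl <;>
            first
            | (exfalso; omega)
            | (left; with_reducible rfl)
            | (left; simp only [Spl3.cdet, Spl3.d3, map_sub, map_mul]; ring1)
            | (right; simp only [Spl3.cdet, Spl3.d3, map_sub, map_mul]; ring1)))

theorem cc_sorted (y : V × Fin 2 → K) (h : V → MvPolynomial (Fin 2) K) (rk : V → ℕ) (μ η : ℕ → K)
    (H : ℕ → MvPolynomial (Fin 2) K) (u v a b : V)
    (h1 : ∀ x ∈ ({u, v, a, b} : Finset V), y (x, 1) = μ (rk x) ∧ y (x, 0) = η (rk x) ∧ h x = H (rk x))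
    (i j k l : ℕ) (hij : i < j) (hjk : j < k) (hkl : k < l)
    (hr : ({rk u, rk v, rk a, rk b} : Finset ℕ) = {i, j, k, l}) :
    ∃ ε : K, (ε = 1 ∨ ε = -1) ∧ cc y h u v a b = C ε * Spl3.cdet μ η i j k l H := by
  obtain ⟨hu1, hu0, hu⟩ := h1 u (by simp)
  obtain ⟨hv1, hv0, hv⟩ := h1 v (by simp)
  obtain ⟨ha1, ha0, ha⟩ := h1 a (by simp)
  obtain ⟨hb1, hb0, hb⟩ := h1 b (by simp)
  have key : cc y h u v a b = - Spl3.cdet μ η (rk u) (rk v) (rk a) (rk b) H := by
    simp only [cc, dt, Spl3.cdet, Spl3.d3, hu1, hu0, hu, hv1, hv0, hv, ha1, ha0, ha, hb1, hb0, hb,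
      smul_eq_C_mul, map_sub, map_mul]
    ring
  rcases srt_all μ η H i j k l _ _ _ _ hij hjk hkl hr with h2 | h2
  · exact ⟨-1, Or.inr rfl, by rw [key, h2]; simp⟩
  · exact ⟨1, Or.inl rfl, by rw [key, h2]; simp⟩

end Pool.Agent.SplF
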