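import Pool.Agent.SplF.DzP
import Pool.Agent.SplF.Aff
import Pool.Agent.SplF.Srt
import Pool.Agent.Spl2.SphOrdH
import Pool.Agent.SplF.Son

/-!
# SplF/Ps: the primal statement at the positions of the S-lemma

`rk` = canonical ordering with `b`, `c` on top (`canon_top`), `p (v, 1) = lam (rk v)`, `p (v, 0) = kap (rk v)` with `kap` from the S-lemma for the
edges different from `{b, c}` (`Can.nat_form`).  For `e₀` and `g` take `t = deh1 g` at `e₀`, `0` elsewhere; the heights `H` are
homogenised (`deh1_surj`) and multiplied by the sign of `e₀` (`cc_sorted`).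
-/

set_option autoImplicit false

namespace Pool.Agent.SplF

open Finset MvPolynomial Pool.Agent.Spl1 Pool.Agent.Spl2 Pool.Agent.Spl3

variable {V : Type*} [Fintype V] [DecidableEq V] {K : Type*} [Field K]

private theorem ps_d3 {N : ℕ} {μ η : ℕ → K}
    (h : ∀ x y z, x < y → y < z → z < N → Spl3.d3 μ η x y z ≠ 0) (x y z : ℕ) (hx : x < N)
    (hy : y < N) (hz : z < N) (hxy : x ≠ y) (hxz : x ≠ z) (hyz : y ≠ z) : Spl3.d3 μ η x y z ≠ 0 := by
  intro h0
  unfold Spl3.d3 at h0 h
  rcases lt_or_gt_of_ne hxy with h1 | h1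
  · rcases lt_or_gt_of_ne hyz with h2 | h2
    · exact h x y z h1 h2 hz h0
    · rcases lt_or_gt_of_ne hxz with h3 | h3
      · exact h x z y h3 h2 hy (by linear_combination -h0)
      · exact h z x y h3 h1 hy (by linear_combination h0)
  · rcases lt_or_gt_of_ne hxz with h2 | h2
    · exact h y x z h1 h2 hz (by linear_combination -h0)
    · rcases lt_or_gt_of_ne hyz with h3 | h3
      · exact h y z x h3 h2 hx (by linear_combination h0)
      · exact h z y x h3 h1 hx (by linear_combination -h0)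

private theorem ps_pair {a b c d : V} (h : ({a, b} : Finset V) = {c, d}) :
    (a = c ∧ b = d) ∨ (a = d ∧ b = c) := by
  have ha : a ∈ ({c, d} : Finset V) := by rw [← h]; simp
  have hb : b ∈ ({c, d} : Finset V) := by rw [← h]; simp
  have hc : c ∈ ({a, b} : Finset V) := by rw [h]; simp
  have hd : d ∈ ({a, b} : Finset V) := by rw [h]; simp
  simp only [mem_insert, mem_singleton] at ha hb hc hd
  rcases ha with rfl | rfl
  · rcases hb with rfl | rfl
    · rcases hd with rfl | rfl <;> exact Or.inl ⟨rfl, rfl⟩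
    · exact Or.inl ⟨rfl, rfl⟩
  · rcases hb with rfl | rfl
    · exact Or.inr ⟨rfl, rfl⟩
    · rcases hc with rfl | rfl <;> exact Or.inl ⟨rfl, rfl⟩

/-- the ranks of the four vertices of an edge -/
private theorem ps_set {T : Finset (Finset V)} {lf : V → V → V} (hl : LeftOf T lf)
    {rk : V → ℕ} {v w p q u u' : V} {S : Finset ℕ} (hQ : Quad T v w p q)
    (hS : ({rk v, rk w, rk p, rk q} : Finset ℕ) = S) (he : ({u, u'} : Finset V) = {v, w}) :
    ({rk u, rk u', rk (lf u u'), rk (lf u' u)} : Finset ℕ) = S := by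
  rw [← hS]
  have h1 := hl.cov v w p hQ.hp
  have h2 := hl.cov v w q hQ.hq
  have h3 := hQ.pq
  rcases ps_pair he with ⟨rfl, rfl⟩ | ⟨rfl, rfl⟩
  · rcases h1 with h1 | h1 <;> rcases h2 with h2 | h2
    · exact absurd (h1.trans h2.symm) h3
    · rw [← h1, ← h2]
    · rw [← h1, ← h2]
      ext z
      simp only [mem_insert, mem_singleton]
      tauto
    · exact absurd (h1.trans h2.symm) h3
  · rcases h1 with h1 | h1 <;> rcases h2 with h2 | h2
    · exact absurd (h1.trans h2.symm) h3
    · rw [← h1, ← h2]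
      ext z
      simp only [mem_insert, mem_singleton]
      tauto
    · rw [← h1, ← h2]
      ext z
      simp only [mem_insert, mem_singleton]
      tauto
    · exact absurd (h1.trans h2.symm) h3

private theorem ps_cc_hom (y : V × Fin 2 → K) (h : V → MvPolynomial (Fin 3) K) (n : ℕ)
    (hh : ∀ v, (h v).IsHomogeneous n) (u v a b : V) : (cc y h u v a b).IsHomogeneous n := by
  have hs : ∀ (c : K) (f : MvPolynomial (Fin 3) K), f.IsHomogeneous n → (c • f).IsHomogeneous n :=
    fun c f hf => (homogeneousSubmodule (Fin 3) K n).smul_mem c hf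
  unfold cc
  exact ((hs _ _ ((hh a).sub (hh u))).sub (hs _ _ ((hh v).sub (hh u)))).sub
    (hs _ _ ((hh b).sub (hh u)))

private theorem ps_cc_map (y : V × Fin 2 → K) (h : V → MvPolynomial (Fin 3) K) (ε : K)
    (u v a b : V) : deh1 (cc y (fun x => C ε * h x) u v a b) =
      C ε * cc y (fun x => deh1 (h x)) u v a b := by
  have hC : ∀ a : K, deh1 (C a : MvPolynomial (Fin 3) K) = C a := by
    intro a
    unfold deh1
    rw [aeval_C]
    rfl
  unfold cc
  simp only [map_sub, map_mul, smul_eq_C_mul, hC]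
  ring

theorem exists_ps [Infinite K] (m q : ℕ) (hmq : 2 * m ≤ q) (hq : 0 < q)
    (hinj : Function.Injective fun x : K => x ^ q) {T : Finset (Finset V)} (hT : Sph T)
    (hF : Fac3 T) (h8 : 8 ≤ T.card) {F₀ : Finset V} (hF₀ : F₀ ∈ T) {b c : V} (hb : b ∈ F₀)
    (hc : c ∈ F₀) (hbc : b ≠ c) {lf : V → V → V} (hl : LeftOf T lf) :
    ∃ p : V × Fin 2 → K,
      (∀ u v, u ≠ v → ({u, v} : Finset V) ∈ edges T → p (u, 1) ≠ p (v, 1)) ∧
      (∀ u v w, ({u, v, w} : Finset V) ∈ T → dt (fun x => p x ^ q) u v w ≠ 0) ∧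
      PS m q p T lf {b, c} := by
  classical
  obtain ⟨rk, hC, hrb, hrc⟩ := canon_top hT hF (by omega) hF₀ hb hc hbc
  obtain ⟨N, hN⟩ : ∃ N, N = (uv T).card := ⟨_, rfl⟩
  have hdeg : ∀ x ∈ uv T, rk x ≤ 1 → 4 ≤ (star T x).card := fun x hx _ =>
    hT.four_le hF (by omega) (mem_uv.1 hx)
  obtain ⟨fv, fw, fp, fq, i, j, k, l, h1, h2, h3⟩ := hC.nat_form hT hF₀ hdeg
  rw [← hN] at hrb hrc h1 h3
  have huv : ∀ {t : Finset V} (_ : t ∈ T) {x : V} (_ : x ∈ t), x ∈ uv T := fun {t} ht {x} hx =>
    mem_uv.2 ⟨t, mem_star.2 ⟨ht, hx⟩⟩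
  have hbu : b ∈ uv T := huv hF₀ hb
  have hcu : c ∈ uv T := huv hF₀ hc
  have hedge : ∀ {e : Finset V} (_ : e ∈ edges T) {x : V} (_ : x ∈ e), x ∈ uv T := by
    intro e he x hx
    rw [mem_edges] at he
    obtain ⟨-, t, ht, het⟩ := he
    exact huv ht (het hx)
  let E : Type _ := {e : Finset V // e ∈ edges T ∧ e ≠ {b, c}}
  have hfin : Fintype E := Fintype.ofFinite E
  obtain ⟨lam, hlam⟩ : ∃ lam : ℕ → K, Function.Injective lam :=
    ⟨Infinite.natEmbedding K, (Infinite.natEmbedding K).injective⟩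
  have hμ : Function.Injective fun n => lam n ^ q := hinj.comp hlam
  have hmem : ∀ e ∈ edges T, fv e ∈ uv T ∧ fw e ∈ uv T := by
    intro e he
    have h4 := (h1 e he).1
    have h5 : fv e ∈ ({fv e, fw e} : Finset V) := by simp
    have h6 : fw e ∈ ({fv e, fw e} : Finset V) := by simp
    rw [← h4] at h5 h6
    exact ⟨hedge he h5, hedge he h6⟩
  have hab : ∀ e ∈ edges T, rk (fv e) ≠ rk (fw e) := by
    intro e he h
    obtain ⟨h5, h6⟩ := hmem e he
    exact (h1 e he).2.1.vw (hC.inj _ h5 _ h6 h)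
  have htop : ∀ e ∈ edges T, e ≠ {b, c} → ¬ (N ≤ rk (fv e) + 2 ∧ N ≤ rk (fw e) + 2) := by
    intro e he hne h
    have h4 := (h1 e he).1
    obtain ⟨h5, h6⟩ := hmem e he
    have h7 := hC.lt _ h5
    have h8 := hC.lt _ h6
    rw [← hN] at h7 h8
    have h9 := hab e he
    have key : ∀ x ∈ uv T, N ≤ rk x + 2 → x = b ∨ x = c := by
      intro x hx hx2
      have hx3 := hC.lt _ hx
      rw [← hN] at hx3
      rcases Nat.lt_or_ge (rk x + 1) N with hx4 | hx4
      · exact Or.inr (hC.inj _ hx _ hcu (by omega))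
      · exact Or.inl (hC.inj _ hx _ hbu (by omega))
    apply hne
    refine h4.trans ?_
    rcases key _ h5 h.1 with h10 | h10 <;> rcases key _ h6 h.2 with h11 | h11
    · exact absurd (by rw [h10, h11]) h9
    · rw [h10, h11]
    · rw [h10, h11, Finset.pair_comm]
    · exact absurd (by rw [h10, h11]) h9
  obtain ⟨kap, hd3, hS⟩ := Spl3.S_onto_nd (E := E) (N := N) (m := m) (q := q) (lam := lam)
    (μ := fun n => lam n ^ q) (i := fun e => i e.1) (j := fun e => j e.1) (k := fun e => k e.1)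
    (l := fun e => l e.1) (a := fun e => rk (fv e.1)) (b := fun e => rk (fw e.1)) hlam hμ hq hmq
    (fun e => by
      obtain ⟨-, -, h4, h5, h6, h7, -⟩ := h1 e.1 e.2.1
      exact ⟨h4, h5, h6, h7⟩)
    (fun e => hab e.1 e.2.1)
    (fun e e' h => Subtype.ext (h2 e.1 e.2.1 e'.1 e'.2.1 h))
    (fun c hc2 hcN => by
      obtain ⟨wL, wR, zL, zR, g1, g2, g3, g4, g5, g6, g7, g8⟩ := h3 c hc2 hcN
      refine ⟨wL, wR, zL, zR, g1, g2, g3, g4, g5, g6, g7, ?_⟩
      rcases g8 with g8 | g8
      · exact Or.inl fun e he => g8 e.1 e.2.1 (htop e.1 e.2.1 e.2.2) he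
      · exact Or.inr fun e he => g8 e.1 e.2.1 (htop e.1 e.2.1 e.2.2) he)
    (by
      have g1 := Finset.card_le_card (s := F₀) (t := uv T) (fun x hx => huv hF₀ hx)
      rw [hT.card3 _ hF₀] at g1
      omega)
  obtain ⟨p, hp⟩ : ∃ p : V × Fin 2 → K, p = fun x => if x.2 = 1 then lam (rk x.1) else
    kap (rk x.1) := ⟨_, rfl⟩
  have hp1 : ∀ v, p (v, 1) = lam (rk v) := fun v => by rw [hp]; simp
  have hp0 : ∀ v, p (v, 0) = kap (rk v) := fun v => by rw [hp]; simp
  have hΔ : ∀ u v, u ≠ v → ({u, v} : Finset V) ∈ edges T → p (u, 1) ≠ p (v, 1) := by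
    intro u v huv' he h
    rw [hp1, hp1] at h
    exact huv' (hC.inj _ (hedge he (by simp)) _ (hedge he (by simp)) (hlam h))
  refine ⟨p, hΔ, ?_, ?_⟩
  · intro u v w ht h0
    have h3' := hT.card3 _ ht
    have hu := huv ht (x := u) (by simp)
    have hv := huv ht (x := v) (by simp)
    have hw := huv ht (x := w) (by simp)
    have hne : u ≠ v ∧ u ≠ w ∧ v ≠ w := by
      refine ⟨?_, ?_, ?_⟩
      · rintro rfl
        rw [Finset.insert_eq_of_mem (by simp)] at h3'
        have := Finset.card_le_two (a := u) (b := w)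
        omega
      · rintro rfl
        rw [Finset.insert_eq_of_mem (by simp)] at h3'
        have := Finset.card_le_two (a := v) (b := u)
        omega
      · rintro rfl
        have e1 : ({u, v, v} : Finset V) = {u, v} := by
          ext z; simp
        rw [e1] at h3'
        have := Finset.card_le_two (a := u) (b := v)
        omega
    have g1 := hC.lt _ hu
    have g2 := hC.lt _ hv
    have g3 := hC.lt _ hw
    rw [← hN] at g1 g2 g3
    refine ps_d3 hd3 (rk u) (rk v) (rk w) g1 g2 g3 (fun h => hne.1 (hC.inj _ hu _ hv h))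
      (fun h => hne.2.1 (hC.inj _ hu _ hw h)) (fun h => hne.2.2 (hC.inj _ hv _ hw h)) ?_
    unfold dt at h0
    simp only [hp1, hp0] at h0
    unfold Spl3.d3
    linear_combination -h0
  · intro e₀ he₀ hne₀ g hg
    obtain ⟨H, hH1, hH2⟩ := hS (fun e => if e.1 = e₀ then deh1 g else 0)
    choose Hh hHh1 hHh2 using fun n => deh1_surj (2 * m) (H n) (hH1 n)
    -- the sorted form of every edge
    have hcc : ∀ u v, ({u, v} : Finset V) ∈ edges T → ∃ ε : K, (ε = 1 ∨ ε = -1) ∧
        cc (fun x => p x ^ q) (fun x => deh1 (Hh (rk x))) u v (lf u v) (lf v u) =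
          C ε * Spl3.cdet (fun n => lam n ^ q) (fun n => kap n ^ q) (i {u, v}) (j {u, v})
            (k {u, v}) (l {u, v}) H := by
      intro u v he
      obtain ⟨g1, g2, g3, g4, g5, -, g6⟩ := h1 _ he
      refine cc_sorted (fun x => p x ^ q) (fun x => deh1 (Hh (rk x))) rk _ _ H u v (lf u v)
        (lf v u) (fun x _ => ⟨by simp only [hp1], by simp only [hp0], hHh2 _⟩) _ _ _ _ g3 g4 g5
        (ps_set hl g2 g6 g1)
    obtain ⟨ε, hε, hεe⟩ := hcc (fv e₀) (fw e₀) (by rw [← (h1 e₀ he₀).1]; exact he₀)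
    have hε2 : (C ε : MvPolynomial (Fin 2) K) * C ε = 1 := by
      rw [← C_mul]
      rcases hε with rfl | rfl <;> simp
    refine ⟨fun x => C ε * Hh (rk x), fun x => ?_, fun u v he hne => ?_⟩
    · have := (isHomogeneous_C (Fin 3) ε).mul (hHh1 (rk x))
      rwa [zero_add] at this
    · have hF2 : (cc (fun x => p x ^ q) (fun x => C ε * Hh (rk x)) u v (lf u v) (lf v u) -
          (if ({u, v} : Finset V) = e₀ then g else 0)).IsHomogeneous (2 * m) := by
        refine (ps_cc_hom _ _ _ (fun x => ?_) _ _ _ _).sub ?_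
        · have := (isHomogeneous_C (Fin 3) ε).mul (hHh1 (rk x))
          rwa [zero_add] at this
        · split_ifs
          · exact hg
          · exact isHomogeneous_zero _ _ _
      have huv' : u ≠ v := edge_ne he
      refine deh1_mem p u v (hΔ u v huv' he) (2 * m) m _ hF2 ?_
      rw [map_sub, ps_cc_map]
      -- the row of the edge
      have hrow := hH2 ⟨{u, v}, he, hne⟩
      have hnode : Spl3.nodeI lam kap (rk (fv {u, v})) (rk (fw {u, v})) =
          Ideal.span {Spl3.ln (p (u, 1)) (p (u, 0)), Spl3.ln (p (v, 1)) (p (v, 0))} := by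
        unfold Spl3.nodeI
        rw [hp1, hp0, hp1, hp0]
        rcases ps_pair (h1 _ he).1 with ⟨g1, g2⟩ | ⟨g1, g2⟩
        · rw [← g1, ← g2]
        · rw [← g1, ← g2, Set.pair_comm]
      simp only at hrow
      rw [hnode] at hrow
      by_cases hcase : ({u, v} : Finset V) = e₀
      · rw [if_pos hcase]
        rw [if_pos hcase] at hrow
        have hsym : cc (fun x => p x ^ q) (fun x => deh1 (Hh (rk x))) u v (lf u v) (lf v u) =
            C ε * Spl3.cdet (fun n => lam n ^ q) (fun n => kap n ^ q) (i e₀) (j e₀)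
            (k e₀) (l e₀) H := by
          have g0 : ({fv e₀, fw e₀} : Finset V) = e₀ := (h1 e₀ he₀).1.symm
          rw [g0] at hεe
          rcases ps_pair (hcase.trans (h1 e₀ he₀).1) with ⟨g1, g2⟩ | ⟨g1, g2⟩
          · rw [g1, g2]
            exact hεe
          · rw [g1, g2, cc_symm]
            exact hεe
        rw [hsym, ← mul_assoc, hε2, one_mul]
        rw [hcase] at hrow
        exact hrow
      · rw [if_neg hcase, map_zero, sub_zero]
        rw [if_neg hcase, sub_zero] at hrow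
        obtain ⟨ε', -, hε'⟩ := hcc u v he
        rw [hε']
        exact Ideal.mul_mem_left _ _ (Ideal.mul_mem_left _ _ hrow)

end Pool.Agent.SplF
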